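import Pool.Agent.Lib.MP_417c68_gt_T.Comb
import Pool.Agent.Lib.MP_417c68_gt_P.J.Crit

/-!
# MP_417c68_gt, project T, module Indec: factors with indecomposable maximal compact subgroup
-/

noncomputable section

namespace Pool.Agent.MP_417c68_gt

open Matrix NormedSpace Pool.Agent.MP417P Module

variable {n : ℕ} {N : Fin n → ℕ} {G H L : Subgroup (Alg N)ˣ} {m : ℕ}
  {P : Fin m → Submodule ℝ (Alg N)}

private theorem ind_comm {X Y : Alg N} (hX : ∀ i, (X i)ᵀ = X i) (hY : ∀ i, (Y i)ᵀ = Y i)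
    (h : br (br X Y) X = 0) : X * Y = Y * X := by
  funext i
  have h1 : (X i * Y i - Y i * X i) * X i - X i * (X i * Y i - Y i * X i) = 0 := congrFun h i
  have h2 : fr (X i * Y i - Y i * X i) = 0 := by
    have e1 : (X i * Y i - Y i * X i)ᵀ = -(X i * Y i - Y i * X i) := by
      rw [Matrix.transpose_sub, Matrix.transpose_mul, Matrix.transpose_mul, hX, hY, neg_sub]
    obtain ⟨A, hA⟩ : ∃ A, A = X i * Y i - Y i * X i := ⟨_, rfl⟩
    rw [← hA] at h1 e1 ⊢
    have e2 : (A * A).trace = 0 := by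
      have e3 : A * A = A * X i * Y i - A * Y i * X i := by
        nth_rewrite 2 [hA]
        rw [mul_sub, mul_assoc, mul_assoc]
      rw [e3, Matrix.trace_sub, Matrix.trace_mul_comm (A * Y i) (X i), ← mul_assoc,
        ← Matrix.trace_sub, ← sub_mul, h1, Matrix.zero_mul, Matrix.trace_zero]
    rw [fr, e1, Matrix.neg_mul, Matrix.trace_neg, e2, neg_zero]
  exact sub_eq_zero.1 (fr_eq_zero h2)

private theorem com_of_T (hG : SelfAdj G) (B : Bdg G) {x y : pS G}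
    (h : B.S.T (B.φ x) (B.φ y) = 0) : x.1 * y.1 = y.1 * x.1 := by
  refine ind_comm (((mem_pS hG.closed).1 x.2).1) (((mem_pS hG.closed).1 y.2).1) ?_
  rw [← B.T_eq x y x, h, LinearMap.zero_apply, map_zero]
  rfl

/-- complementary Lie triples `A`, `C` in an ideal `P j`: there are self-adjoint subgroups `H`, `L`
with `𝔭(H) = A`, `𝔭(L) = C ⊕ (other ideals)`, and they are complementary -/
theorem ext_pair (hG : SelfAdj G) (hK : Kconn G) (hP : Ideals G P) {j : Fin m}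
    {A C : Submodule ℝ (Alg N)} (hA : Trp A) (hC : Trp C) (hAP : A ≤ P j) (hCP : C ≤ P j)
    (hd : finrank ℝ A + finrank ℝ C = finrank ℝ (P j))
    (hdis : ∀ k ∈ G, Orth k → ∀ x ∈ A, ∀ y ∈ C, x = cA k y → x = 0) :
    ∃ H L : Subgroup (Alg N)ˣ, H ≤ G ∧ L ≤ G ∧ SelfAdj H ∧ SelfAdj L ∧ pS H = A ∧
      (∀ X ∈ P j, X ∈ pp L ↔ X ∈ C) ∧
      (∀ X ∈ pp L, ∃ Y ∈ C, ∀ Z ∈ P j, (X - Y) * Z = Z * (X - Y)) ∧ Cpl G H L := by
  obtain ⟨B⟩ := bridge hG hK
  obtain ⟨π, hπ, hr⟩ := dcm hG hP B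
  have hPG := Ideals.le hG hP j
  have hAG := hAP.trans hPG
  have hCG := hCP.trans hPG
  have hf : ∀ V : Submodule ℝ (Alg N), V ≤ pS G → finrank ℝ (B.dn V) = finrank ℝ V := by
    intro V hV
    rw [← B.finrank_up (B.dn V), B.up_dn hV]
  have hsubA := B.dn_sub hG hA hAG
  have hsubC := B.dn_sub hG hC hCG
  have hfixP : ∀ x ∈ B.dn (P j), π j x = x := by
    intro x hx
    rw [← hr] at hx
    obtain ⟨w, rfl⟩ := hx
    rw [hπ.orth, if_pos rfl]
  have hmono : ∀ {V W : Submodule ℝ (Alg N)}, V ≤ W → B.dn V ≤ B.dn W := by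
    intro V W h x hx
    obtain ⟨X, rfl⟩ := B.φ.surjective x
    exact B.mem_dn.2 (h (B.mem_dn.1 hx))
  have hsubW : B.S.Sub ((B.dn C).comap (π j)) := by
    intro x hx y hy z hz
    have h1 := hπ.hom j x y z
    show π j (B.S.T x y z) ∈ B.dn C
    rw [h1]
    exact hsubC _ hx _ hy _ hz
  obtain ⟨H, hHG, hH, hH2⟩ := B.exists_grp hG hsubA
  obtain ⟨L, hLG, hL, hL2⟩ := B.exists_grp hG hsubW
  have hpH : pS H = A := by
    have h1 : pS H ≤ pS G := Submodule.span_mono (pp_mono hHG)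
    rw [← B.up_dn h1, hH2, B.up_dn hAG]
  have hpL : ∀ X : pS G, X.1 ∈ pp L ↔ π j (B.φ X) ∈ B.dn C := by
    intro X
    rw [← mem_pS hL.closed, ← B.mem_dn, hL2]
    exact Iff.rfl
  have hcp : LTS.Cp B.K (B.dn (pS H)) (B.dn (pS L)) := by
    rw [hH2, hL2]
    have hd1 := (B.disj_iff hAG hCG).2 hdis
    refine ⟨fun k hk x hx y hy hxy => ?_, ?_⟩
    · refine hd1 k hk x hx (π j y) hy ?_
      rw [← LTS.kinv hπ B.grp (B.fix hG hK) hk, ← hxy, hfixP x (hmono hAP hx)]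
    · have h1 : finrank ℝ (LinearMap.range (π j)) + finrank ℝ (LinearMap.ker (π j)) =
          finrank ℝ B.E := LinearMap.finrank_range_add_finrank_ker (π j)
      have h2 : finrank ℝ ((B.dn C).comap (π j)) =
          finrank ℝ (B.dn C) + finrank ℝ (LinearMap.ker (π j)) := by
        have h3 : B.dn C ⊔ LinearMap.ker (π j) = (B.dn C).comap (π j) := by
          refine le_antisymm (sup_le (fun x hx => ?_) fun x hx => ?_) fun x hx => ?_
          · show π j x ∈ B.dn C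
            rwa [hfixP x (hmono hCP hx)]
          · show π j x ∈ B.dn C
            rw [LinearMap.mem_ker.1 hx]
            exact Submodule.zero_mem _
          · have h4 : x = π j x + (x - π j x) := by abel
            rw [h4]
            refine Submodule.add_mem_sup hx ?_
            rw [LinearMap.mem_ker, map_sub, hπ.orth, if_pos rfl, sub_self]
        have h5 : B.dn C ⊓ LinearMap.ker (π j) = ⊥ := by
          rw [Submodule.eq_bot_iff]
          rintro x ⟨hx, hx2⟩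
          rw [← hfixP x (hmono hCP hx)]
          exact LinearMap.mem_ker.1 hx2
        have h6 := Submodule.finrank_sup_add_finrank_inf_eq (B.dn C) (LinearMap.ker (π j))
        rw [h5, finrank_bot, add_zero, h3] at h6
        exact h6
      have h7 : finrank ℝ (LinearMap.range (π j)) = finrank ℝ (P j) := by
        rw [hr, hf _ hPG]
      rw [h2, hf A hAG, hf C hCG]
      omega
  refine ⟨H, L, hHG, hLG, hH, hL, hpH, fun X hX => ?_, fun X hX => ?_,
    (B.cp_iff hG hH hHG hL hLG).1 hcp⟩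
  · have h1 := hpL ⟨X, hPG hX⟩
    have h2 : π j (B.φ ⟨X, hPG hX⟩) = B.φ ⟨X, hPG hX⟩ := hfixP _ (B.mem_dn.2 hX)
    rw [h2, B.mem_dn] at h1
    exact h1
  · have hXG : X ∈ pS G := (mem_pS hG.closed).2 (pp_mono hLG hX)
    have h1 := (hpL ⟨X, hXG⟩).1 hX
    obtain ⟨Y, hY⟩ := B.φ.surjective (π j (B.φ ⟨X, hXG⟩))
    rw [← hY, B.mem_dn] at h1
    refine ⟨Y.1, h1, fun Z hZ => ?_⟩
    have hZG := hPG hZ
    have h2 : B.φ ⟨Z, hZG⟩ = π j (B.φ ⟨Z, hZG⟩) := (hfixP _ (B.mem_dn.2 hZ)).symm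
    have h3 : B.S.T (B.φ (⟨X, hXG⟩ - Y)) (B.φ ⟨Z, hZG⟩) = 0 := by
      rw [map_sub, hY, h2]
      have h4 : B.φ ⟨X, hXG⟩ - π j (B.φ ⟨X, hXG⟩) =
          ∑ i ∈ Finset.univ.erase j, π i (B.φ ⟨X, hXG⟩) := by
        rw [Finset.sum_erase_eq_sub (Finset.mem_univ j), hπ.sum]
      rw [h4, map_sum, LinearMap.sum_apply]
      exact Finset.sum_eq_zero fun i hi => hπ.com i j (Finset.ne_of_mem_erase hi) _ _
    exact com_of_T hG B h3

/-- the subgroup `A` acts irreducibly on `Q` -/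
def Irr (A : Subgroup (Alg N)ˣ) (Q : Submodule ℝ (Alg N)) : Prop :=
  ∀ U ≤ Q, (∀ a ∈ A, ∀ x ∈ U, cA a x ∈ U) → U = ⊥ ∨ U = Q

/-- for every factorization `K = A B` of the maximal compact subgroup `K` of `G` into compact
subgroups one of `A`, `B` acts irreducibly on `Q` -/
def IndK (G : Subgroup (Alg N)ˣ) (Q : Submodule ℝ (Alg N)) : Prop :=
  ∀ A B : Subgroup (Alg N)ˣ, IsCompact (A : Set (Alg N)ˣ) → IsCompact (B : Set (Alg N)ˣ) →
    (∀ a ∈ A, a ∈ G ∧ Orth a) → (∀ b ∈ B, b ∈ G ∧ Orth b) →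
    (∀ k ∈ G, Orth k → ∃ a ∈ A, ∃ b ∈ B, k = a * b) → Irr A Q ∨ Irr B Q

theorem indP (hG : SelfAdj G) (hK : Kconn G) (hP : Ideals G P) {j : Fin m}
    (h : IndK G (P j)) : RigP G (P j) := by
  intro A C hA hC hAP hCP hd hdis
  obtain ⟨H, L, hHG, hLG, hH, hL, hpH, hpL, -, hc⟩ := ext_pair hG hK hP hA hC hAP hCP hd hdis
  have hpHm : ∀ X, X ∈ pp H ↔ X ∈ A := fun X => by rw [← mem_pS hH.closed, hpH]
  have hS := sumN_of_cocompact hG hH hL hHG hLG ((ky hG hH hL hHG hLG).2 hc).2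
  have hfac := h (NK G L) (NK G H) (NK_compact hG hL) (NK_compact hG hH)
    (fun a ha => ⟨ha.1, ha.2.1⟩) (fun b hb => ⟨hb.1, hb.2.1⟩)
    fun k hk ho => nk_mul hG hK hH hL hHG hLG hS hk ho
  have fA : A = P j → C = ⊥ := by
    intro e
    rw [e] at hd
    exact Submodule.finrank_eq_zero.1 (by omega)
  have fC : C = P j → A = ⊥ := by
    intro e
    rw [e] at hd
    exact Submodule.finrank_eq_zero.1 (by omega)
  rcases hfac with h1 | h1
  · rcases h1 C hCP (fun a ha x hx => by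
      have h2 := ha.2.2.1 x ((hpL x (hCP hx)).2 hx)
      exact (hpL _ (Pinv hG hK hP ha.1 ha.2.1 j (hCP hx))).1 h2) with h2 | h2
    · exact Or.inr h2
    · exact Or.inl (fC h2)
  · rcases h1 A hAP (fun a ha x hx => (hpHm _).1 (ha.2.2.1 x ((hpHm x).2 hx))) with h2 | h2
    · exact Or.inl h2
    · exact Or.inr (fA h2)

end Pool.Agent.MP_417c68_gt
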