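import Pool.Agent.Lib.MP_417c68_gt_T.Conn
import Pool.Agent.Lib.MP_417c68_gt_P.J.Main

/-!
# MP_417c68_gt, project T, module Comb: combination of Theorem T4 with Theorem P
-/

noncomputable section

namespace Pool.Agent.MP_417c68_gt

open Matrix NormedSpace

variable {n : ℕ} {N : Fin n → ℕ} {G H L : Subgroup (Alg N)ˣ} {m : ℕ}
  {P : Fin m → Submodule ℝ (Alg N)}

/-- `L'` may be chosen self-adjoint and split over the ideals `P j` -/
theorem std_iff_split (hG : SelfAdj G) (hK : Kconn G) (hP : Ideals G P) (hH : Red G H) :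
    Std G H ↔ ∃ L' H' : Subgroup (Alg N)ˣ, L' ≤ G ∧ SelfAdj L' ∧ SplP P L' ∧ Red G H' ∧
      CocptIn H H' ∧ Fct G L' H' := by
  constructor
  · intro hS
    obtain ⟨hHG, a, ha, hSH⟩ := id hH
    obtain ⟨L, -, hLG, -, hL, -, hsp, -, ⟨hp, hc⟩, -, -⟩ := (thmP hG hK hP hHG ha hSH).1 hS
    have h3 : ProperAct G (cj a H) (cj 1 L) := (properAct_cj ha G.one_mem).2 hp
    have h4 : Cocompact G (cj a H) (cj 1 L) := (cocompact_cj ha G.one_mem).2 hc
    rw [cj_one] at h3 h4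
    have h5 := (ky hG hSH hL (cj_le' hHG ha) hLG).1 ⟨h3, h4⟩
    obtain ⟨H', L', hH'G, hL'G, hH', hL', -, hpl, -, hi, hf⟩ :=
      fct_of_cpl hG hK hSH hL (cj_le' hHG ha) hLG h5
    refine ⟨L', cj a⁻¹ H', hL'G, hL', fun Y hY hs j => (hpl _).2 (hsp Y hY ((hpl _).1 hs) j),
      red_cj ⟨hH'G, 1, G.one_mem, by rwa [cj_one]⟩ (G.inv_mem ha), ?_,
      fct_cj hf (G.inv_mem ha)⟩
    have h6 := cocptIn_cj hi a⁻¹
    rwa [cj_cj, inv_mul_cancel, cj_one] at h6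
  · rintro ⟨L', H', hL'G, hL', -, hH', hi, hf⟩
    have hR : Red G L' := ⟨hL'G, 1, G.one_mem, by rwa [cj_one]⟩
    obtain ⟨h1, h2⟩ := std_of_fct hG hH hH' hR hi hf
    exact ⟨L', hR, h1, h2⟩

end Pool.Agent.MP_417c68_gt
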