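import Pool.Agent.Lib.MP_417c68_gt_T.Fin

/-!
# MP_417c68_gt, project T, module FinG: Theorem T4 for every `G`

Here the maximal compact subgroup `K` of `G` need not be connected.  The local statement behind
Theorem T2 (`nk_near`) holds for every `K`; applied to `k H k⁻¹` it says that the double cosets
`N_K(W) k N_K(V)` are open in `K`, so `K` is the union of finitely many of them (`nk_fin`).
-/

noncomputable section

namespace Pool.Agent.MP_417c68_gt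

open Matrix NormedSpace Pointwise

variable {n : ℕ} {N : Fin n → ℕ} {G H L : Subgroup (Alg N)ˣ}

/-- `L` has only finitely many orbits in `G/H`, all with compact isotropy groups: `G` is the union
of the sets `L f H`, `f ∈ F`, with `F` finite, and `L ∩ f H f⁻¹` is compact -/
def FinOrb (G L H : Subgroup (Alg N)ˣ) : Prop :=
  ∃ F : Finset (Alg N)ˣ,
    (∀ f ∈ F, f ∈ G ∧ IsCompact ((L : Set (Alg N)ˣ) ∩ (cj f H : Set (Alg N)ˣ))) ∧
    ∀ g ∈ G, ∃ f ∈ F, ∃ l ∈ L, ∃ h ∈ H, g = l * f * h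

private theorem fing_nk {k b : (Alg N)ˣ} (hk : k ∈ G) (ho : Orth k) (hb : b ∈ NK G (cj k H)) :
    k⁻¹ * b * k ∈ NK G H := by
  have hin : ∀ {x : Alg N}, x ∈ pp H → cA k x ∈ pp (cj k H) := fun {x} hx => by
    rw [mem_pp_cj ho, cA_inv_cA]
    exact hx
  refine ⟨G.mul_mem (G.mul_mem (G.inv_mem hk) hb.1) hk,
    orth_mul (orth_mul (orth_inv ho) hb.2.1) ho, fun x hx => ?_, fun x hx => ?_⟩
  · have h1 := hb.2.2.1 _ (hin hx)
    rw [mem_pp_cj ho] at h1
    rw [cA_mul, cA_mul]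
    exact h1
  · have h1 := hb.2.2.2 _ (hin hx)
    rw [mem_pp_cj ho] at h1
    have h2 : (k⁻¹ * b * k)⁻¹ = k⁻¹ * b⁻¹ * k := by group
    rw [h2, cA_mul, cA_mul]
    exact h1

/-- the maximal compact subgroup is a finite union of double cosets -/
theorem nk_fin (hG : SelfAdj G) (hH : SelfAdj H) (hL : SelfAdj L) (hHG : H ≤ G) (hLG : L ≤ G)
    (hC : Cocompact G H L) : ∃ F : Finset (Alg N)ˣ, (∀ f ∈ F, f ∈ G ∧ Orth f) ∧
      ∀ k ∈ G, Orth k → ∃ f ∈ F, ∃ l ∈ NK G L, ∃ b ∈ NK G H, k = l * f * b := by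
  have hKc : IsCompact ((G : Set (Alg N)ˣ) ∩ {k : (Alg N)ˣ | Orth k}) :=
    isCompact_orth.inter_left hG.closed
  have hU : ∀ k ∈ (G : Set (Alg N)ˣ) ∩ {k : (Alg N)ˣ | Orth k},
      {k' : (Alg N)ˣ | k' ∈ G → Orth k' → ∃ l ∈ NK G L, ∃ b ∈ NK G H, k' = l * k * b} ∈
        nhds k := by
    rintro k ⟨hk, ho⟩
    have hS : SumN G (cj k H) L := by
      refine sumN_of_cocompact hG (selfAdj_cj ho hH) hL (cj_le' hHG hk) hLG ?_
      have h1 := (cocompact_cj (H := H) (L := L) hk G.one_mem).2 hC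
      rwa [cj_one] at h1
    obtain ⟨ε, hε, hn⟩ := nk_near hG (selfAdj_cj ho hH) hL (cj_le' hHG hk) hLG hS
    have hcont : Continuous fun k' : (Alg N)ˣ => nF ((k' * k⁻¹).1 - (1 : (Alg N)ˣ).1) :=
      nF_cont.comp ((Units.continuous_val.comp (continuous_id.mul continuous_const)).sub
        continuous_const)
    have hopen : IsOpen {k' : (Alg N)ˣ | nF ((k' * k⁻¹).1 - (1 : (Alg N)ˣ).1) < ε} :=
      isOpen_lt hcont continuous_const
    refine Filter.mem_of_superset (hopen.mem_nhds ?_) fun k' hk' hk'G hk'o => ?_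
    · show nF ((k * k⁻¹).1 - (1 : (Alg N)ˣ).1) < ε
      rw [mul_inv_cancel, sub_self, nF_zero]
      exact hε
    · have h1 : nF ((k' * k⁻¹).1 - (1 * 1 : (Alg N)ˣ).1) < ε := by
        rw [mul_one]
        exact hk'
      obtain ⟨l, hl, b, hb, e⟩ := hn (k' * k⁻¹) (G.mul_mem hk'G (G.inv_mem hk))
        (orth_mul hk'o (orth_inv ho)) 1 (NK G L).one_mem 1 (NK G (cj k H)).one_mem h1
      refine ⟨l, hl, k⁻¹ * b * k, fing_nk hk ho hb, ?_⟩
      have h2 : k' = k' * k⁻¹ * k := by group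
      rw [h2, e]
      group
  obtain ⟨F, hF, hcov⟩ := hKc.elim_nhds_subcover
    (fun k => {k' : (Alg N)ˣ | k' ∈ G → Orth k' →
      ∃ l ∈ NK G L, ∃ b ∈ NK G H, k' = l * k * b}) hU
  refine ⟨F, fun f hf => hF f hf, fun k hk ho => ?_⟩
  obtain ⟨f, hf, h1⟩ := Set.mem_iUnion₂.1 (hcov ⟨hk, ho⟩)
  exact ⟨f, hf, h1 hk ho⟩

theorem orb_of_cpl (hG : SelfAdj G) (hH : SelfAdj H) (hL : SelfAdj L)
    (hHG : H ≤ G) (hLG : L ≤ G) (hc : Cpl G H L) :
    ∃ H' L' : Subgroup (Alg N)ˣ, H' ≤ G ∧ L' ≤ G ∧ SelfAdj H' ∧ SelfAdj L' ∧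
      (∀ X, X ∈ pp H' ↔ X ∈ pp H) ∧ (∀ X, X ∈ pp L' ↔ X ∈ pp L) ∧ L ≤ L' ∧ CocptIn H H' ∧
      FinOrb G L' H' := by
  obtain ⟨H', hH'G, hH', hHH', hNH, hppH, hdH⟩ := gvx hG hH hHG
  obtain ⟨L', hL'G, hL', hLL', hNL, hppL, -⟩ := gvx hG hL hLG
  obtain ⟨F, hF, hcov⟩ := nk_fin hG hH hL hHG hLG ((ky hG hH hL hHG hLG).2 hc).2
  refine ⟨H', L', hH'G, hL'G, hH', hL', hppH, hppL, hLL', ⟨hHH', NK G H, NK_compact hG hH,
    hdH⟩, F, fun f hf => ⟨(hF f hf).1, ?_⟩, fun g hg => ?_⟩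
  · have hfo := (hF f hf).2
    have hI := selfAdj_inf hL' (selfAdj_cj hfo hH')
    refine isCompact_orth.of_isClosed_subset ?_ (fun g hg => ?_)
    · have h1 := hI.closed
      rwa [Subgroup.coe_inf] at h1
    · obtain ⟨X, hX, he⟩ := hI.polar g (Subgroup.mem_inf.2 hg)
      have hX' := mem_pp_inf.1 hX
      have h2 := (hppH _).1 ((mem_pp_cj hfo).1 hX'.2)
      have h1 := (hc f⁻¹ (G.inv_mem (hF f hf).1) (orth_inv hfo)).1 _ h2 X ((hppL X).1 hX'.1) rfl
      have h3 : X = 0 := by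
        rw [← cA_cA_inv f X, h1, cA_zero]
      intro i
      rw [he i, h3, Pi.zero_apply, exp_zero]
  · obtain ⟨l, hl, k, hk, ho, h, hh, rfl⟩ := lkh hG hH hL hHG hLG hc hg
    obtain ⟨f, hf, l', hl', b, hb, rfl⟩ := hcov k hk ho
    exact ⟨f, hf, l * l', L'.mul_mem (hLL' hl) (hNL hl'), b * h,
      H'.mul_mem (hNH hb) (hHH' hh), by group⟩

private theorem fing_eu_cA (k : (Alg N)ˣ) (t : ℝ) (x : Alg N) :
    eu (t • cA k x) = k * eu (t • x) * k⁻¹ := by
  rw [← cA_smul, eu_cA]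

/-- a symmetric element with bounded one-parameter group is zero -/
private theorem fing_bdd {x : Alg N} (hx : ∀ i, (x i)ᵀ = x i) {C : Set (Alg N)ˣ}
    (hC : IsCompact C) (h : ∀ t : ℝ, eu (t • x) ∈ C) : x = 0 := by
  obtain ⟨R, hR⟩ := exists_KR hC
  have hb : ∀ t : ℝ, t ^ 2 * ip x x ≤ (n : ℝ) * (2 * R) := by
    intro t
    have key : ∀ i, t ^ 2 * (x i * x i).trace ≤ 2 * R := by
      intro i
      obtain ⟨h1, h2⟩ := hR (h t)  i
      have e1 : fr ((eu (t • x)).1 i) = (exp ((2 : ℝ) • (t • x i))).trace := by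
        show fr (exp (t • x i)) = _
        have e : (exp (t • x i))ᵀ = exp (t • x i) := by
          rw [← Matrix.exp_transpose, Matrix.transpose_smul, hx i]
        rw [fr, e, ← Matrix.exp_add_of_commute _ _ (Commute.refl _), two_smul]
      have e2 : fr (((eu (t • x))⁻¹).1 i) = (exp (-((2 : ℝ) • (t • x i)))).trace := by
        rw [← eu_neg]
        show fr (exp (-(t • x i))) = _
        have e : (exp (-(t • x i)))ᵀ = exp (-(t • x i)) := by
          rw [← Matrix.exp_transpose, Matrix.transpose_neg, Matrix.transpose_smul, hx i]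
        rw [fr, e, ← Matrix.exp_add_of_commute _ _ (Commute.refl _), two_smul, neg_add]
      rw [e1] at h1
      rw [e2] at h2
      have h5 : ((2 : ℝ) • (t • x i))ᵀ = (2 : ℝ) • (t • x i) := by
        rw [Matrix.transpose_smul, Matrix.transpose_smul, hx i]
      have h6 := sq_le_exp h5
      have h7 : (((2 : ℝ) • (t • x i)) * ((2 : ℝ) • (t • x i))).trace =
          4 * (t ^ 2 * (x i * x i).trace) := by
        rw [smul_smul, Matrix.smul_mul, Matrix.mul_smul, smul_smul, Matrix.trace_smul,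
          smul_eq_mul]
        ring
      rw [h7] at h6
      have h8 : 0 ≤ (x i * x i).trace := by
        have := fr_nonneg (x i)
        rwa [fr, hx i] at this
      nlinarith [mul_nonneg (sq_nonneg t) h8]
    unfold ip
    rw [Finset.mul_sum]
    refine (Finset.sum_le_sum fun i _ => key i).trans ?_
    rw [Finset.sum_const, Finset.card_univ, Fintype.card_fin, nsmul_eq_mul]
  have h0 : ip x x = 0 := by
    by_contra hne
    have hpos : 0 < ip x x := lt_of_le_of_ne (ip_nonneg hx) (Ne.symm hne)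
    obtain ⟨k, hk⟩ := exists_nat_gt ((n : ℝ) * (2 * R) / ip x x)
    have h1 := hb (k + 1)
    rw [div_lt_iff₀ hpos] at hk
    nlinarith [mul_nonneg (Nat.cast_nonneg (α := ℝ) k) hpos.le]
  exact ip_self_zero hx h0

theorem std_of_orb (hG : SelfAdj G) {H' L' : Subgroup (Alg N)ˣ}
    (hH' : Red G H') (hL' : Red G L') (hi : CocptIn H H') (hf : FinOrb G L' H') :
    ProperAct G H L' ∧ Cocompact G H L' := by
  obtain ⟨hH'G, a, ha, hSH⟩ := hH'
  obtain ⟨hL'G, b, hb, hSL⟩ := hL'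
  obtain ⟨hHH', C, hC, hCH⟩ := hi
  obtain ⟨F, hF, hdec⟩ := hf
  refine ⟨?_, ⋃ f ∈ F, (fun c => f * c) '' ((G : Set (Alg N)ˣ) ∩ C),
    F.isCompact_biUnion fun f _ => (hC.inter_left hG.closed).image (by fun_prop), ?_,
    fun g hg => ?_⟩
  · have hP : ProperAct G (cj a H') (cj b L') := by
      refine proper_of_disj hG hSH hSL (cj_le' hH'G ha) (cj_le' hL'G hb) ?_
      intro k hk ho x hx w hw hxw
      obtain ⟨f, hfF, l, hl, h, hh, e⟩ := hdec (b⁻¹ * k⁻¹ * a)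
        (G.mul_mem (G.mul_mem (G.inv_mem hb) (G.inv_mem hk)) ha)
      have ek : k = a * h⁻¹ * f⁻¹ * l⁻¹ * b⁻¹ := by
        have e1 : k⁻¹ = b * (l * f * h) * a⁻¹ := by rw [← e]; group
        have e2 : k = (b * (l * f * h) * a⁻¹)⁻¹ := by rw [← e1, inv_inv]
        rw [e2]
        group
      have hu : cA (f * h * a⁻¹) x = cA (l⁻¹ * b⁻¹) w := by
        rw [hxw, ← cA_mul]
        congr 1
        rw [ek]
        group
      refine fing_bdd hx.1 (C := (fun g => (f * h * a⁻¹)⁻¹ * g * (f * h * a⁻¹)) ''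
        ((L' : Set (Alg N)ˣ) ∩ (cj f H' : Set (Alg N)ˣ)))
        ((hF f hfF).2.image (by fun_prop)) fun t => ?_
      refine ⟨eu (t • cA (f * h * a⁻¹) x), ⟨?_, ?_⟩, ?_⟩
      · rw [hu, fing_eu_cA]
        have h1 : b⁻¹ * eu (t • w) * b ∈ L' := hw.2 t
        have h2 := L'.mul_mem (L'.mul_mem (L'.inv_mem hl) h1) hl
        have h3 : l⁻¹ * b⁻¹ * eu (t • w) * (l⁻¹ * b⁻¹)⁻¹ = l⁻¹ * (b⁻¹ * eu (t • w) * b) * l := by
          group
        rw [h3]
        exact h2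
      · rw [fing_eu_cA]
        have h1 : a⁻¹ * eu (t • x) * a ∈ H' := hx.2 t
        have h2 := H'.mul_mem (H'.mul_mem hh h1) (H'.inv_mem hh)
        show f⁻¹ * (f * h * a⁻¹ * eu (t • x) * (f * h * a⁻¹)⁻¹) * f ∈ H'
        have h3 : f⁻¹ * (f * h * a⁻¹ * eu (t • x) * (f * h * a⁻¹)⁻¹) * f =
            h * (a⁻¹ * eu (t • x) * a) * h⁻¹ := by
          group
        rw [h3]
        exact h2
      · rw [fing_eu_cA]
        group
    have hP' := (properAct_cj ha hb).1 hP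
    intro S hS hSG
    obtain ⟨K, hK, h1⟩ := hP' S hS hSG
    exact ⟨K, hK, fun l hl h hh => h1 l hl h (hHH' hh)⟩
  · intro g hg
    obtain ⟨f, hfF, c, hc, rfl⟩ := Set.mem_iUnion₂.1 hg
    exact G.mul_mem (hF f hfF).1 hc.1
  · obtain ⟨f, hfF, l, hl, h, hh, rfl⟩ := hdec g hg
    obtain ⟨c, hc, h', hh', rfl⟩ := hCH h hh
    refine ⟨l, hl, f * c, Set.mem_iUnion₂.2 ⟨f, hfF, c, ⟨?_, hc⟩, rfl⟩, h', hh', by group⟩
    have h1 := G.mul_mem (hH'G hh) (G.inv_mem (hH'G (hHH' hh')))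
    have h2 : c * h' * h'⁻¹ = c := by group
    rwa [h2] at h1

/-- conjugation of the second group -/
theorem finOrb_cj {a : (Alg N)ˣ} (ha : a ∈ G) (h : FinOrb G L H) : FinOrb G L (cj a⁻¹ H) := by
  classical
  obtain ⟨F, hF, hdec⟩ := h
  refine ⟨F.image fun f => f * a, fun f hf => ?_, fun g hg => ?_⟩
  · obtain ⟨f', hf', rfl⟩ := Finset.mem_image.1 hf
    refine ⟨G.mul_mem (hF f' hf').1 ha, ?_⟩
    rw [cj_cj, mul_inv_cancel_right]
    exact (hF f' hf').2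
  · obtain ⟨f, hf, l, hl, h, hh, e⟩ := hdec (g * a⁻¹) (G.mul_mem hg (G.inv_mem ha))
    refine ⟨f * a, Finset.mem_image_of_mem _ hf, l, hl, a⁻¹ * h * a, ?_, ?_⟩
    · rw [mem_cj]
      have h1 : a⁻¹⁻¹ * (a⁻¹ * h * a) * a⁻¹ = h := by group
      rwa [h1]
    · have h1 : g = g * a⁻¹ * a := by group
      rw [h1, e]
      group

/-- Theorem T4 for every `G` (the maximal compact subgroup need not be connected): `G/H` has a
compact standard quotient if and only if `H` is cocompact in a subgroup `H'` which is reductive in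
`G`, and some subgroup which is reductive in `G` has only finitely many orbits in `G/H'`, all with
compact isotropy groups. -/
theorem std_iff_orb (hG : SelfAdj G) (hH : Red G H) :
    Std G H ↔ ∃ H' L' : Subgroup (Alg N)ˣ, Red G H' ∧ Red G L' ∧ CocptIn H H' ∧
      FinOrb G L' H' := by
  constructor
  · intro hS
    obtain ⟨hHG, a, ha, hSH⟩ := id hH
    obtain ⟨L, hLG, hL, hc⟩ := (std_iff hG hHG ha hSH).1 hS
    obtain ⟨H', L', hH'G, hL'G, hH', hL', -, -, -, ⟨hi1, C, hC, hi2⟩, hf⟩ :=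
      orb_of_cpl hG hSH hL (cj_le' hHG ha) hLG hc
    have hmem : ∀ (A : Subgroup (Alg N)ˣ) (g : (Alg N)ˣ), g ∈ cj a⁻¹ A ↔ a * g * a⁻¹ ∈ A :=
      fun A g => by rw [mem_cj, inv_inv]
    refine ⟨cj a⁻¹ H', L', ⟨cj_le' hH'G (G.inv_mem ha), a, ha, by
      rwa [cj_cj, mul_inv_cancel, cj_one]⟩, ⟨hL'G, 1, G.one_mem, by rwa [cj_one]⟩,
      ⟨fun h hh => ?_, (fun g => a⁻¹ * g * a) '' C, hC.image (by fun_prop), fun g hg => ?_⟩,
      finOrb_cj ha hf⟩
    · rw [hmem]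
      refine hi1 ?_
      rw [mem_cj]
      have : a⁻¹ * (a * h * a⁻¹) * a = h := by group
      rwa [this]
    · rw [hmem] at hg
      obtain ⟨c, hc, h, hh, e⟩ := hi2 _ hg
      refine ⟨a⁻¹ * c * a, ⟨c, hc, rfl⟩, a⁻¹ * h * a, hh, ?_⟩
      have : g = a⁻¹ * (a * g * a⁻¹) * a := by group
      rw [this, e]
      group
  · rintro ⟨H', L', hH', hL', hi, hf⟩
    obtain ⟨h1, h2⟩ := std_of_orb hG hH' hL' hi hf
    exact ⟨L', hL', h1, h2⟩

/-! ### Theorem T3 for every `G` -/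

/-- Theorem T2 on a connected set -/
theorem nk_mul_pre (hG : SelfAdj G) (hH : SelfAdj H) (hL : SelfAdj L) (hHG : H ≤ G)
    (hLG : L ≤ G) (h : SumN G H L) {C : Set (Alg N)ˣ} (hC : IsPreconnected C)
    (hCK : ∀ k ∈ C, k ∈ G ∧ Orth k) (h1 : (1 : (Alg N)ˣ) ∈ C) {k : (Alg N)ˣ} (hk : k ∈ C) :
    ∃ l ∈ NK G L, ∃ b ∈ NK G H, k = l * b := by
  obtain ⟨ε, hε, hnear⟩ := nk_near hG hH hL hHG hLG h
  have hScpt : IsCompact ((NK G L : Set (Alg N)ˣ) * (NK G H : Set (Alg N)ˣ)) :=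
    (NK_compact hG hL).mul (NK_compact hG hH)
  have hu : IsOpen {k : (Alg N)ˣ | ∃ l ∈ NK G L, ∃ b ∈ NK G H,
      nF (k.1 - (l * b : (Alg N)ˣ).1) < ε} := by
    have e : {k : (Alg N)ˣ | ∃ l ∈ NK G L, ∃ b ∈ NK G H,
        nF (k.1 - (l * b : (Alg N)ˣ).1) < ε} = ⋃ l ∈ NK G L, ⋃ b ∈ NK G H,
          {k : (Alg N)ˣ | nF (k.1 - (l * b : (Alg N)ˣ).1) < ε} := by
      ext k
      simp only [Set.mem_iUnion, exists_prop]
      exact Iff.rfl
    rw [e]
    refine isOpen_biUnion fun l _ => isOpen_biUnion fun b _ => ?_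
    exact isOpen_lt (nF_cont.comp (Units.continuous_val.sub continuous_const)) continuous_const
  have key := isPreconnected_iff_subset_of_disjoint.1 hC _ _ hu hScpt.isClosed.isOpen_compl
    (fun x hx => ?_) ?_
  · rcases key with hs | hs
    · obtain ⟨l, hl, b, hb, h2⟩ := hs hk
      exact hnear k (hCK k hk).1 (hCK k hk).2 l hl b hb h2
    · exact absurd (Set.mem_mul.2 ⟨1, (NK G L).one_mem, 1, (NK G H).one_mem, one_mul 1⟩) (hs h1)
  · by_cases hx' : x ∈ (NK G L : Set (Alg N)ˣ) * (NK G H : Set (Alg N)ˣ)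
    · obtain ⟨l, hl, b, hb, e⟩ := Set.mem_mul.1 hx'
      refine Or.inl ⟨l, hl, b, hb, ?_⟩
      rw [e, sub_self, nF_zero]
      exact hε
    · exact Or.inr hx'
  · rw [Set.eq_empty_iff_forall_notMem]
    rintro x ⟨hx, ⟨l, hl, b, hb, h2⟩, h3⟩
    obtain ⟨l', hl', b', hb', e⟩ := hnear x (hCK x hx).1 (hCK x hx).2 l hl b hb h2
    exact h3 (Set.mem_mul.2 ⟨l', hl', b', hb', e.symm⟩)

/-- Theorem T3 for every `G`: let `R` be a set of elements of the maximal compact subgroup `K` of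
`G` which meets every connected component of `K`.  Then `L` acts properly and cocompactly on `G/H`
if and only if `𝔭(G) = 𝔭(H) ⊕ Ad(r) 𝔭(L)` and `[𝔭(G), 𝔭(G)]` is the sum of the normalizers of
`𝔭(H)` and of `Ad(r) 𝔭(L)`, for every `r ∈ R`. -/
theorem alg_crit_gen (hG : SelfAdj G) (hH : SelfAdj H) (hL : SelfAdj L) (hHG : H ≤ G)
    (hLG : L ≤ G) {R : Set (Alg N)ˣ} (hR : ∀ r ∈ R, r ∈ G ∧ Orth r)
    (hRK : ∀ k ∈ G, Orth k → ∃ r ∈ R, k ∈ connectedComponentIn {k | k ∈ G ∧ Orth k} r) :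
    ProperAct G H L ∧ Cocompact G H L ↔ ∀ r ∈ R, DirSum G H (cj r L) ∧ SumN G H (cj r L) := by
  constructor
  · rintro ⟨hP, hC⟩ r hr
    obtain ⟨hrG, hro⟩ := hR r hr
    have hP' : ProperAct G H (cj r L) := by
      have h1 := (properAct_cj (H := H) (L := L) G.one_mem hrG).2 hP
      rwa [cj_one] at h1
    have hC' : Cocompact G H (cj r L) := by
      have h1 := (cocompact_cj (H := H) (L := L) G.one_mem hrG).2 hC
      rwa [cj_one] at h1
    have hc := (ky hG hH (selfAdj_cj hro hL) hHG (cj_le' hLG hrG)).1 ⟨hP', hC'⟩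
    have h1 := hc 1 G.one_mem orth_one
    refine ⟨⟨fun x hx hx' => h1.1 x hx x hx' (cA_one x).symm, fun z hz => ?_⟩,
      sumN_of_cocompact hG hH (selfAdj_cj hro hL) hHG (cj_le' hLG hrG) hC'⟩
    obtain ⟨x, hx, y, hy, e⟩ := h1.2 z hz
    exact ⟨x, hx, y, hy, by rw [e, cA_one]⟩
  · intro h
    refine (ky hG hH hL hHG hLG).2 fun k hk ho => ?_
    obtain ⟨r, hr, hkr⟩ := hRK k hk ho
    obtain ⟨hrG, hro⟩ := hR r hr
    obtain ⟨hD, hS⟩ := h r hr
    have hcomp : IsPreconnected ((fun u : (Alg N)ˣ => r * u⁻¹) ''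
        connectedComponentIn {k | k ∈ G ∧ Orth k} r) :=
      isPreconnected_connectedComponentIn.image _ (by fun_prop)
    have hin : ∀ u ∈ (fun u : (Alg N)ˣ => r * u⁻¹) ''
        connectedComponentIn {k | k ∈ G ∧ Orth k} r, u ∈ G ∧ Orth u := by
      rintro _ ⟨u, hu, rfl⟩
      have h2 := connectedComponentIn_subset _ _ hu
      exact ⟨G.mul_mem hrG (G.inv_mem h2.1), orth_mul hro (orth_inv h2.2)⟩
    have hone : (1 : (Alg N)ˣ) ∈ (fun u : (Alg N)ˣ => r * u⁻¹) ''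
        connectedComponentIn {k | k ∈ G ∧ Orth k} r :=
      ⟨r, mem_connectedComponentIn ⟨hrG, hro⟩, mul_inv_cancel r⟩
    obtain ⟨l, hl, b, hb, e⟩ := nk_mul_pre hG hH (selfAdj_cj hro hL) hHG (cj_le' hLG hrG) hS
      hcomp hin hone (k := r * k⁻¹) ⟨k, hkr, rfl⟩
    have ek : k = b⁻¹ * l⁻¹ * r := by
      have e1 : k = (r * k⁻¹)⁻¹ * r := by group
      rw [e1, e]
      group
    have hrin : ∀ {y : Alg N}, y ∈ pp L → cA r y ∈ pp (cj r L) := fun {y} hy => by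
      rw [mem_pp_cj hro, cA_inv_cA]
      exact hy
    refine ⟨fun x hx y hy hxy => ?_, fun z hz => ?_⟩
    · have h1 : cA b x = cA l⁻¹ (cA r y) := by rw [hxy, ek, cA_mul, cA_mul, cA_cA_inv]
      have h2 : cA b x ∈ pp H := hb.2.2.1 x hx
      have h3 : cA b x ∈ pp (cj r L) := by
        rw [h1]
        exact hl.2.2.2 _ (hrin hy)
      have h4 := hD.1 _ h2 h3
      rw [← cA_inv_cA b x, h4, cA_zero]
    · obtain ⟨x, hx, y, hy, hxy⟩ := hD.2 (cA b z) (pp_cA hb.1 hb.2.1 hz)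
      have hy' : cA r⁻¹ (cA l y) ∈ pp L := (mem_pp_cj hro).1 (hl.2.2.1 y hy)
      refine ⟨cA b⁻¹ x, hb.2.2.2 x hx, cA r⁻¹ (cA l y), hy', ?_⟩
      rw [ek, cA_mul, cA_mul, cA_cA_inv, cA_inv_cA, ← cA_add, ← hxy, cA_inv_cA]

end Pool.Agent.MP_417c68_gt
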