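import Pool.Agent.Lib.MP_417c68_gt_P.I.Bridge

/-!
# MP_417c68_gt, project T, module Ad: `Ad (exp a)` preserves every subspace preserved by `ad a`
-/

noncomputable section

namespace Pool.Agent.MP_417c68_gt

open Matrix NormedSpace Pool.Agent.MP417P

variable {n : ℕ} {N : Fin n → ℕ}

section expLR

variable {𝔸 : Type} [NormedRing 𝔸] [NormedAlgebra ℝ 𝔸] [CompleteSpace 𝔸]

private theorem adx_exp_apply (X : 𝔸 →L[ℝ] 𝔸) (Z : 𝔸) :
    HasSum (fun n : ℕ => ((n.factorial : ℝ)⁻¹) • ((X ^ n) Z)) ((exp X) Z) := by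
  have h := NormedSpace.exp_series_hasSum_exp' (𝕂 := ℝ) X
  exact h.mapL (ContinuousLinearMap.apply ℝ 𝔸 Z)

private theorem adx_exp_L (A Z : 𝔸) : exp (ContinuousLinearMap.mul ℝ 𝔸 A) Z = exp A * Z := by
  have hp : ∀ n : ℕ, ((ContinuousLinearMap.mul ℝ 𝔸 A) ^ n) Z = A ^ n * Z := by
    intro n
    induction n with
    | zero => rw [pow_zero, pow_zero, one_mul]; rfl
    | succ n ih =>
      rw [pow_succ', pow_succ', mul_assoc, ← ih]
      rfl
  have h1 := adx_exp_apply (ContinuousLinearMap.mul ℝ 𝔸 A) Z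
  have h2 := (NormedSpace.exp_series_hasSum_exp' (𝕂 := ℝ) A).mul_right Z
  simp only [hp] at h1
  simp only [smul_mul_assoc] at h2
  exact h1.unique h2

private theorem adx_exp_R (A Z : 𝔸) :
    exp (-(ContinuousLinearMap.mul ℝ 𝔸).flip A) Z = Z * exp (-A) := by
  have hp : ∀ n : ℕ, ((-(ContinuousLinearMap.mul ℝ 𝔸).flip A) ^ n) Z = Z * (-A) ^ n := by
    intro n
    induction n with
    | zero => rw [pow_zero, pow_zero, mul_one]; rfl
    | succ n ih =>
      rw [pow_succ', pow_succ, ← mul_assoc, ← ih, mul_neg]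
      rfl
  have h1 := adx_exp_apply (-(ContinuousLinearMap.mul ℝ 𝔸).flip A) Z
  have h2 := (NormedSpace.exp_series_hasSum_exp' (𝕂 := ℝ) (-A)).mul_left Z
  simp only [hp] at h1
  simp only [mul_smul_comm] at h2
  exact h1.unique h2

private theorem adx_exp_LR (A Z : 𝔸) :
    exp (ContinuousLinearMap.mul ℝ 𝔸 A + -(ContinuousLinearMap.mul ℝ 𝔸).flip A) Z =
      exp A * Z * exp (-A) := by
  have hc : Commute (ContinuousLinearMap.mul ℝ 𝔸 A) (-(ContinuousLinearMap.mul ℝ 𝔸).flip A) := by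
    refine Commute.neg_right ?_
    refine ContinuousLinearMap.ext fun x => ?_
    show A * (x * A) = A * x * A
    rw [mul_assoc]
  let +nondep : NormedAlgebra ℚ (𝔸 →L[ℝ] 𝔸) := .restrictScalars ℚ ℝ (𝔸 →L[ℝ] 𝔸)
  rw [NormedSpace.exp_add_of_commute hc, mul_assoc, ← adx_exp_R A Z, ← adx_exp_L A]
  rfl

private theorem adx_nat [FiniteDimensional ℝ 𝔸] {E : Type} [NormedAddCommGroup E]
    [NormedSpace ℝ E] [FiniteDimensional ℝ E] {A : 𝔸} {D : E →L[ℝ] E} {f : E →ₗ[ℝ] 𝔸}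
    (h : ∀ z, f (D z) = A * f z - f z * A) (z : E) :
    f ((LTS.ex D).1 z) = exp A * f z * exp (-A) := by
  have h1 : ∀ z, f (D z) =
      (ContinuousLinearMap.mul ℝ 𝔸 A + -(ContinuousLinearMap.mul ℝ 𝔸).flip A) (f z) := by
    intro z
    rw [h z, sub_eq_add_neg]
    rfl
  rw [LTS.ex_nat h1 z, ← adx_exp_LR]
  rfl

end expLR

set_option backward.isDefEq.respectTransparency false in
private theorem adx_mat {E : Type} [NormedAddCommGroup E] [NormedSpace ℝ E]
    [FiniteDimensional ℝ E] {m : ℕ} {A : Matrix (Fin m) (Fin m) ℝ} {D : E →L[ℝ] E}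
    {f : E →ₗ[ℝ] Matrix (Fin m) (Fin m) ℝ} (h : ∀ z, f (D z) = A * f z - f z * A) (z : E) :
    f ((LTS.ex D).1 z) = exp A * f z * exp (-A) := by
  open scoped Norms.Operator in exact adx_nat h z


/-- `Ad (exp a)` preserves every subspace which is preserved by `ad a` -/
theorem cA_of_br {M : Submodule ℝ (Alg N)} {a : Alg N} (h : ∀ x ∈ M, br a x ∈ M) {x : Alg N}
    (hx : x ∈ M) : cA (eu a) x ∈ M := by
  obtain ⟨r, hr⟩ : ∃ r : ℕ, r = Module.finrank ℝ M := ⟨_, rfl⟩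
  have φ : M ≃ₗ[ℝ] (Fin r → ℝ) := by
    rw [hr]
    exact (Module.finBasis ℝ M).equivFun
  let T : M →ₗ[ℝ] M :=
    { toFun := fun y => ⟨br a y.1, h y.1 y.2⟩
      map_add' := fun y z => Subtype.ext (by
        show br a (y.1 + z.1) = br a y.1 + br a z.1
        unfold br
        noncomm_ring)
      map_smul' := fun c y => Subtype.ext (by
        show br a (c • y.1) = c • br a y.1
        unfold br
        rw [mul_smul_comm, smul_mul_assoc, smul_sub]) }
  let D : (Fin r → ℝ) →L[ℝ] (Fin r → ℝ) :=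
    LinearMap.toContinuousLinearMap ((φ : M →ₗ[ℝ] (Fin r → ℝ)) ∘ₗ T ∘ₗ
      (φ.symm : (Fin r → ℝ) →ₗ[ℝ] M))
  have hD : ∀ z, φ.symm (D z) = T (φ.symm z) := fun z => by
    show φ.symm (φ (T (φ.symm z))) = _
    rw [LinearEquiv.symm_apply_apply]
  have key : ∀ i, ∀ z, ((φ.symm ((LTS.ex D).1 z) : M) : Alg N) i =
      exp (a i) * ((φ.symm z : M) : Alg N) i * exp (-(a i)) := by
    intro i z
    let f : (Fin r → ℝ) →ₗ[ℝ] Matrix (Fin (N i)) (Fin (N i)) ℝ :=
      { toFun := fun z => ((φ.symm z : M) : Alg N) i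
        map_add' := fun z w => by rw [map_add]; rfl
        map_smul' := fun c z => by rw [map_smul]; rfl }
    refine adx_mat (f := f) (A := a i) (D := D) (fun z => ?_) z
    show ((φ.symm (D z) : M) : Alg N) i = _
    rw [hD]
    rfl
  have h2 : cA (eu a) x = ((φ.symm ((LTS.ex D).1 (φ ⟨x, hx⟩)) : M) : Alg N) := by
    funext i
    rw [key i (φ ⟨x, hx⟩), LinearEquiv.symm_apply_apply]
    rfl
  rw [h2]
  exact (φ.symm ((LTS.ex D).1 (φ ⟨x, hx⟩))).2

theorem cA_of_br' {M : Submodule ℝ (Alg N)} {a : Alg N} (h : ∀ x ∈ M, br a x ∈ M) (t : ℝ)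
    {x : Alg N} (hx : x ∈ M) : cA (eu (t • a)) x ∈ M :=
  cA_of_br (fun y hy => by
    have h1 : br (t • a) y = t • br a y := by
      unfold br
      rw [smul_mul_assoc, mul_smul_comm, smul_sub]
    rw [h1]
    exact M.smul_mem t (h y hy)) hx

end Pool.Agent.MP_417c68_gt
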