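import Pool.Agent.Lib.MP_417c68_gt_P.I.Fix

/-!
# MP_417c68_gt, project T, module Mn: Haar integrals over compact subgroups of `(Alg N)ˣ`

PROOFS: as in `Pool/Agent/Lib/MP_417c68_gt_P/B/Mean.lean` (same construction for `GL(E)`).
* `mn_continuous`: `continuous_parametric_integral_of_continuous` or `continuous_of_dominated`
  (the space `(Alg N)ˣ` is locally compact / first countable: closed embedding in a finite
  dimensional space;
  if local compactness is inconvenient: for a convergent sequence `x_j → x` the set `{x_j} ∪ {x}` is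
  compact,
  so `F` is bounded on it times `K`, dominated convergence; sequential continuity).
* `mn_pos`: Haar measure is positive on open sets.
-/

noncomputable section

namespace Pool.Agent.MP_417c68_gt

open MeasureTheory

variable {n : ℕ} {N : Fin n → ℕ}

open Classical in
/-- the integral of `f` over the compact group `K` -/
def mn (K : Subgroup (Alg N)ˣ) (f : (Alg N)ˣ → ℝ) : ℝ :=
  if _h : IsCompact (K : Set (Alg N)ˣ) then
    letI : MeasurableSpace K := borel K
    haveI : BorelSpace K := ⟨rfl⟩
    haveI : CompactSpace K := isCompact_iff_compactSpace.1 _h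
    ∫ k : K, f (k : (Alg N)ˣ) ∂(MeasureTheory.Measure.haar : Measure K)
  else 0

variable {K : Subgroup (Alg N)ˣ} (hK : IsCompact (K : Set (Alg N)ˣ))

private theorem mn_int [CompactSpace K] [MeasurableSpace K] [BorelSpace K] {f : (Alg N)ˣ → ℝ}
    (hf : Continuous f) : Integrable (fun k : K => f (k : (Alg N)ˣ)) (Measure.haar : Measure K) :=
  (hf.comp continuous_subtype_val).integrable_of_hasCompactSupport
    (HasCompactSupport.of_compactSpace _)

private theorem mn_firstCountable : FirstCountableTopology (Alg N)ˣ := by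
  have hfc : ∀ i, FirstCountableTopology (Matrix (Fin (N i)) (Fin (N i)) ℝ) := fun i =>
    inferInstanceAs (FirstCountableTopology (Fin (N i) → Fin (N i) → ℝ))
  have h1 : FirstCountableTopology (Alg N) := inferInstance
  have h2 : FirstCountableTopology (Alg N)ᵐᵒᵖ :=
    (MulOpposite.opHomeomorph (M := Alg N)).symm.isInducing.firstCountableTopology
  exact Units.isEmbedding_embedProduct.isInducing.firstCountableTopology

private theorem mn_locallyCompact : LocallyCompactSpace (Alg N)ˣ := by
  have hlc : ∀ i, LocallyCompactSpace (Matrix (Fin (N i)) (Fin (N i)) ℝ) := fun i =>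
    inferInstanceAs (LocallyCompactSpace (Fin (N i) → Fin (N i) → ℝ))
  have h1 : LocallyCompactSpace (Alg N) := inferInstance
  have h2 : LocallyCompactSpace (Alg N)ᵐᵒᵖ :=
    (MulOpposite.opHomeomorph (M := Alg N)).symm.isClosedEmbedding.locallyCompactSpace
  exact (Units.isClosedEmbedding_embedProduct (α := Alg N)).locallyCompactSpace

include hK

theorem mn_left (f : (Alg N)ˣ → ℝ) {u : (Alg N)ˣ} (hu : u ∈ K) :
    mn K (fun k => f (u * k)) = mn K f := by
  unfold mn
  rw [dif_pos hK, dif_pos hK]
  let _ : MeasurableSpace K := borel K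
  have _ : BorelSpace K := ⟨rfl⟩
  have _ : CompactSpace K := isCompact_iff_compactSpace.1 hK
  exact integral_mul_left_eq_self (μ := (Measure.haar : Measure K))
    (fun k : K => f (k : (Alg N)ˣ)) ⟨u, hu⟩

theorem mn_add {f g : (Alg N)ˣ → ℝ} (hf : Continuous f) (hg : Continuous g) :
    mn K (fun k => f k + g k) = mn K f + mn K g := by
  unfold mn
  rw [dif_pos hK, dif_pos hK, dif_pos hK]
  let _ : MeasurableSpace K := borel K
  have _ : BorelSpace K := ⟨rfl⟩
  have _ : CompactSpace K := isCompact_iff_compactSpace.1 hK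
  exact integral_add (mn_int hf) (mn_int hg)

theorem mn_smul (f : (Alg N)ˣ → ℝ) (c : ℝ) : mn K (fun k => c * f k) = c * mn K f := by
  unfold mn
  rw [dif_pos hK, dif_pos hK]
  let _ : MeasurableSpace K := borel K
  have _ : BorelSpace K := ⟨rfl⟩
  have _ : CompactSpace K := isCompact_iff_compactSpace.1 hK
  exact integral_const_mul c _

theorem mn_sum {ι : Type} (s : Finset ι) {f : ι → (Alg N)ˣ → ℝ} (hf : ∀ i, Continuous (f i)) :
    mn K (fun k => ∑ i ∈ s, f i k) = ∑ i ∈ s, mn K (f i) := by
  unfold mn
  rw [dif_pos hK]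
  simp only [dif_pos hK]
  let _ : MeasurableSpace K := borel K
  have _ : BorelSpace K := ⟨rfl⟩
  have _ : CompactSpace K := isCompact_iff_compactSpace.1 hK
  exact integral_finsetSum s fun i _ => mn_int (hf i)

omit hK in
theorem mn_congr {f g : (Alg N)ˣ → ℝ} (h : ∀ k ∈ K, f k = g k) : mn K f = mn K g := by
  unfold mn
  by_cases hK : IsCompact (K : Set (Alg N)ˣ)
  · rw [dif_pos hK, dif_pos hK]
    have h1 : (fun k : K => f (k : (Alg N)ˣ)) = fun k : K => g (k : (Alg N)ˣ) :=
      funext fun k => h k k.2
    simp only [h1]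
  · rw [dif_neg hK, dif_neg hK]

theorem mn_le {f g : (Alg N)ˣ → ℝ} (hf : Continuous f) (hg : Continuous g)
    (h : ∀ k ∈ K, f k ≤ g k) : mn K f ≤ mn K g := by
  unfold mn
  rw [dif_pos hK, dif_pos hK]
  let _ : MeasurableSpace K := borel K
  have _ : BorelSpace K := ⟨rfl⟩
  have _ : CompactSpace K := isCompact_iff_compactSpace.1 hK
  exact integral_mono (mn_int hf) (mn_int hg) fun k => h k k.2

theorem mn_pos {f : (Alg N)ˣ → ℝ} (hf : Continuous f) (h : ∀ k ∈ K, 0 ≤ f k) (h1 : 0 < f 1) :
    0 < mn K f := by
  unfold mn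
  rw [dif_pos hK]
  let _ : MeasurableSpace K := borel K
  have _ : BorelSpace K := ⟨rfl⟩
  have _ : CompactSpace K := isCompact_iff_compactSpace.1 hK
  exact (hf.comp continuous_subtype_val).integral_pos_of_hasCompactSupport_nonneg_nonzero
    (HasCompactSupport.of_compactSpace _) (fun k : K => h k k.2) (x := 1) h1.ne'

theorem mn_one_pos : 0 < mn K fun _ => 1 :=
  mn_pos hK continuous_const (fun _ _ => zero_le_one) zero_lt_one

theorem mn_continuous {M : Fin n → ℕ} {F : (Alg M)ˣ → (Alg N)ˣ → ℝ}
    (hF : Continuous fun p : (Alg M)ˣ × (Alg N)ˣ => F p.1 p.2) :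
    Continuous fun x => mn K (F x) := by
  unfold mn
  simp only [dif_pos hK]
  let _ : MeasurableSpace K := borel K
  have _ : BorelSpace K := ⟨rfl⟩
  have _ : CompactSpace K := isCompact_iff_compactSpace.1 hK
  have _ : FirstCountableTopology (Alg M)ˣ := mn_firstCountable
  have _ : LocallyCompactSpace (Alg M)ˣ := mn_locallyCompact
  have h1 : Continuous (Function.uncurry fun (x : (Alg M)ˣ) (k : K) => F x (k : (Alg N)ˣ)) :=
    hF.comp (continuous_fst.prodMk (continuous_subtype_val.comp continuous_snd))
  have h2 := continuous_parametric_integral_of_continuous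
    (μ := (Measure.haar : Measure K)) h1 isCompact_univ
  simpa only [Measure.restrict_univ] using h2

end Pool.Agent.MP_417c68_gt
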