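import Pool.Agent.Lib.MP_417c68_gt_T.Bd
import Pool.Agent.Lib.MP_417c68_gt_T.Mn

/-!
# MP_417c68_gt, project T, module Avg: the averages `P` and `P'`

Text: `/team-store/TEXT_417c68_T.md`, section 2.

PROOFS.  `kp_mul`, `mn_left`, `mn_sum`, `mn_smul`, continuity of the entries of `kp d (bd _ h.1)`.
`PL_kp`: `(l⁻¹ * u)  = (u⁻¹ * l)⁻¹`.  `dm_kp`: expand `kp d (bd (l⁻¹ * g * h))` entrywise
(`Matrix.mul_apply`).
-/

noncomputable section

namespace Pool.Agent.MP_417c68_gt

open Matrix NormedSpace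

variable {n : ℕ} {N : Fin n → ℕ} {A B : Subgroup (Alg N)ˣ}

/-- the integral of `h^{(d)}` over `B` -/
def PR (B : Subgroup (Alg N)ˣ) (d : ℕ) : Matrix (Fin d → Kx N) (Fin d → Kx N) ℝ :=
  fun a b => mn B fun h => kp d (bd N h.1) a b

/-- the integral of `(l⁻¹)^{(d)}` over `A` -/
def PL (A : Subgroup (Alg N)ˣ) (d : ℕ) : Matrix (Fin d → Kx N) (Fin d → Kx N) ℝ :=
  fun a b => mn A fun l => kp d (bd N (l⁻¹).1) a b

private theorem avg_mul (d : ℕ) (g h : (Alg N)ˣ) :
    kp d (bd N (g * h).1) = kp d (bd N g.1) * kp d (bd N h.1) := by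
  rw [Units.val_mul, map_mul, kp_mul]

private theorem avg_cont (d : ℕ) (a b : Fin d → Kx N) :
    Continuous fun g : (Alg N)ˣ => kp d (bd N g.1) a b :=
  ((continuous_kp d).comp (continuous_bd.comp Units.continuous_val)).matrix_elem a b

private theorem avg_left {K : Subgroup (Alg N)ˣ} (hK : IsCompact (K : Set (Alg N)ˣ)) {d : ℕ}
    (M : Matrix (Fin d → Kx N) (Fin d → Kx N) ℝ)
    {F : (Alg N)ˣ → Matrix (Fin d → Kx N) (Fin d → Kx N) ℝ}
    (hF : ∀ a b, Continuous fun g => F g a b) (a b : Fin d → Kx N) :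
    mn K (fun g => (M * F g) a b) = ∑ c, M a c * mn K (fun g => F g c b) := by
  simp only [Matrix.mul_apply]
  rw [mn_sum hK Finset.univ (f := fun c g => M a c * F g c b)
    (fun c => continuous_const.mul (hF c b))]
  exact Finset.sum_congr rfl fun c _ => mn_smul hK _ _

private theorem avg_right {K : Subgroup (Alg N)ˣ} (hK : IsCompact (K : Set (Alg N)ˣ)) {d : ℕ}
    (M : Matrix (Fin d → Kx N) (Fin d → Kx N) ℝ)
    {F : (Alg N)ˣ → Matrix (Fin d → Kx N) (Fin d → Kx N) ℝ}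
    (hF : ∀ a b, Continuous fun g => F g a b) (a b : Fin d → Kx N) :
    mn K (fun g => (F g * M) a b) = ∑ c, mn K (fun g => F g a c) * M c b := by
  simp only [Matrix.mul_apply]
  rw [mn_sum hK Finset.univ (f := fun c g => F g a c * M c b)
    (fun c => (hF a c).mul continuous_const)]
  refine Finset.sum_congr rfl fun c _ => ?_
  rw [mul_comm, ← mn_smul hK]
  exact mn_congr fun g _ => mul_comm _ _

theorem kp_PR (hB : IsCompact (B : Set (Alg N)ˣ)) (d : ℕ) {u : (Alg N)ˣ} (hu : u ∈ B) :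
    kp d (bd N u.1) * PR B d = PR B d := by
  funext a b
  have h1 := avg_left hB (kp d (bd N u.1)) (F := fun h => kp d (bd N h.1)) (avg_cont d) a b
  have h2 := mn_left hB (fun h => kp d (bd N h.1) a b) hu
  rw [Matrix.mul_apply]
  refine h1.symm.trans (Eq.trans ?_ h2)
  exact mn_congr fun h _ => by rw [avg_mul]

theorem PL_kp (hA : IsCompact (A : Set (Alg N)ˣ)) (d : ℕ) {u : (Alg N)ˣ} (hu : u ∈ A) :
    PL A d * kp d (bd N u.1) = PL A d := by
  funext a b
  have h1 := avg_right hA (kp d (bd N u.1)) (F := fun l => kp d (bd N (l⁻¹).1))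
    (fun a b => (avg_cont d a b).comp continuous_inv) a b
  have h2 := mn_left hA (fun l => kp d (bd N (l⁻¹).1) a b) (inv_mem hu)
  rw [Matrix.mul_apply]
  refine h1.symm.trans (Eq.trans ?_ h2)
  exact mn_congr fun h _ => by rw [_root_.mul_inv_rev, inv_inv, avg_mul]

theorem dm_kp (hA : IsCompact (A : Set (Alg N)ˣ)) (hB : IsCompact (B : Set (Alg N)ˣ)) (d : ℕ)
    (g : (Alg N)ˣ) (a b : Fin d → Kx N) :
    mn A (fun l => mn B fun h => kp d (bd N (l⁻¹ * g * h).1) a b) =
      (PL A d * kp d (bd N g.1) * PR B d) a b := by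
  have hc : ∀ a b, Continuous fun l : (Alg N)ˣ => kp d (bd N (l⁻¹).1) a b :=
    fun a b => (avg_cont d a b).comp continuous_inv
  have h1 : ∀ l : (Alg N)ˣ, mn B (fun h => kp d (bd N (l⁻¹ * g * h).1) a b) =
      (kp d (bd N (l⁻¹).1) * (kp d (bd N g.1) * PR B d)) a b := by
    intro l
    have h2 := avg_left hB (kp d (bd N (l⁻¹ * g).1)) (F := fun h => kp d (bd N h.1))
      (avg_cont d) a b
    have h3 : mn B (fun h => kp d (bd N (l⁻¹ * g * h).1) a b) =
        mn B (fun h => (kp d (bd N (l⁻¹ * g).1) * kp d (bd N h.1)) a b) :=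
      mn_congr fun h _ => by rw [avg_mul d (l⁻¹ * g) h]
    rw [h3, ← Matrix.mul_assoc, ← avg_mul, Matrix.mul_apply]
    exact h2
  have h4 := avg_right hA (kp d (bd N g.1) * PR B d) (F := fun l => kp d (bd N (l⁻¹).1)) hc a b
  have h5 : (fun l => mn B fun h => kp d (bd N (l⁻¹ * g * h).1) a b) =
      fun l => (kp d (bd N (l⁻¹).1) * (kp d (bd N g.1) * PR B d)) a b := funext h1
  rw [h5, Matrix.mul_assoc, Matrix.mul_apply]
  exact h4

end Pool.Agent.MP_417c68_gt
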