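import Pool.Agent.Lib.MP_417c68_gt_P.I.Fix

/-!
# MP_417c68_gt, project T, module Cp: complex matrices as real matrices of twice the size

Text: `/team-store/TEXT_417c68_T.md`, section 1.  `cp A B` is `A + i B`.

PROOFS.  Block computations with `Matrix.fromBlocks_multiply` etc., `Matrix.submatrix_mul_equiv`;
`eu_cp0`: `X ↦ cp X 0` is a continuous ring homomorphism (blockwise), `NormedSpace.map_exp`, or
`Matrix.exp_blockDiagonal`/`fromBlocks` lemmas; `CG_orth`: generators are orthogonal (`cp 0 v` is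
skew for
symmetric `v`), `Orth` is a closed condition (`isCompact_orth.isClosed`) stable under products and
inverses,
`Subgroup.topologicalClosure_minimal` applied to the subgroup of orthogonal elements; `CG_compact`:
closed subset of the compact set of orthogonal elements.
-/

noncomputable section

namespace Pool.Agent.MP_417c68_gt

open Matrix NormedSpace

variable {n : ℕ} {N : Fin n → ℕ}

/-- the doubled block sizes -/
def N2 (N : Fin n → ℕ) : Fin n → ℕ := fun i => N i + N i

/-- the complex matrix `A + i B` as a real matrix of twice the size -/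
def cp (A B : Alg N) : Alg (N2 N) := fun i =>
  (Matrix.fromBlocks (A i) (-(B i)) (B i) (A i)).submatrix finSumFinEquiv.symm finSumFinEquiv.symm

section block

variable {m : ℕ}

/-- one block of `cp` -/
private def cpm (A B : Matrix (Fin m) (Fin m) ℝ) : Matrix (Fin (m + m)) (Fin (m + m)) ℝ :=
  (Matrix.fromBlocks A (-B) B A).submatrix finSumFinEquiv.symm finSumFinEquiv.symm

private theorem cpm_ext {P Q : Matrix (Fin m ⊕ Fin m) (Fin m ⊕ Fin m) ℝ} (h : P = Q) :
    P.submatrix finSumFinEquiv.symm finSumFinEquiv.symm =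
      Q.submatrix finSumFinEquiv.symm finSumFinEquiv.symm := by
  rw [h]

private theorem cpm_back (M : Matrix (Fin m ⊕ Fin m) (Fin m ⊕ Fin m) ℝ) :
    (M.submatrix finSumFinEquiv.symm finSumFinEquiv.symm).submatrix finSumFinEquiv
      finSumFinEquiv = M := by
  ext a b
  simp only [Matrix.submatrix_apply, Equiv.symm_apply_apply]

private theorem cpm_back' (M : Matrix (Fin (m + m)) (Fin (m + m)) ℝ) :
    (M.submatrix finSumFinEquiv finSumFinEquiv).submatrix finSumFinEquiv.symm
      finSumFinEquiv.symm = M := by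
  ext a b
  simp only [Matrix.submatrix_apply, Equiv.apply_symm_apply]

private theorem cpm_mul (A B A' B' : Matrix (Fin m) (Fin m) ℝ) :
    cpm A B * cpm A' B' = cpm (A * A' - B * B') (A * B' + B * A') := by
  unfold cpm
  rw [Matrix.submatrix_mul_equiv, Matrix.fromBlocks_multiply]
  refine cpm_ext (Matrix.fromBlocks_inj.2 ⟨?_, ?_, ?_, ?_⟩)
  · rw [neg_mul, sub_eq_add_neg]
  · rw [mul_neg, neg_mul, neg_add]
  · rw [add_comm]
  · rw [mul_neg, neg_add_eq_sub]

private theorem cpm_one : cpm (1 : Matrix (Fin m) (Fin m) ℝ) 0 = 1 := by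
  unfold cpm
  rw [neg_zero, Matrix.fromBlocks_one, Matrix.submatrix_one_equiv]

private theorem cpm_add (A B A' B' : Matrix (Fin m) (Fin m) ℝ) :
    cpm A B + cpm A' B' = cpm (A + A') (B + B') := by
  unfold cpm
  rw [neg_add, ← Matrix.fromBlocks_add, Matrix.submatrix_add]
  rfl

private theorem cpm_neg (A B : Matrix (Fin m) (Fin m) ℝ) : -cpm A B = cpm (-A) (-B) := by
  unfold cpm
  rw [← Matrix.fromBlocks_neg, Matrix.submatrix_neg]
  rfl

private theorem cpm_smul (c : ℝ) (A B : Matrix (Fin m) (Fin m) ℝ) :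
    c • cpm A B = cpm (c • A) (c • B) := by
  unfold cpm
  rw [← smul_neg, ← Matrix.fromBlocks_smul, Matrix.submatrix_smul]
  rfl

private theorem cpm_inj {A B A' B' : Matrix (Fin m) (Fin m) ℝ} (h : cpm A B = cpm A' B') :
    A = A' ∧ B = B' := by
  have h2 := congrArg (fun M : Matrix (Fin (m + m)) (Fin (m + m)) ℝ =>
    M.submatrix finSumFinEquiv finSumFinEquiv) h
  have h3 := (cpm_back _).symm.trans (h2.trans (cpm_back _))
  exact ⟨(Matrix.fromBlocks_inj.1 h3).1, (Matrix.fromBlocks_inj.1 h3).2.2.1⟩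

private theorem cpm_transpose (A B : Matrix (Fin m) (Fin m) ℝ) :
    (cpm A B)ᵀ = cpm Aᵀ (-Bᵀ) := by
  unfold cpm
  rw [Matrix.transpose_submatrix, Matrix.fromBlocks_transpose, neg_neg, Matrix.transpose_neg]

private theorem cpm_comm {X : Matrix (Fin (m + m)) (Fin (m + m)) ℝ}
    (h : X * cpm 0 1 = cpm 0 1 * X) : ∃ A B : Matrix (Fin m) (Fin m) ℝ, X = cpm A B := by
  obtain ⟨Y, rfl⟩ : ∃ Y : Matrix (Fin m ⊕ Fin m) (Fin m ⊕ Fin m) ℝ,
      X = Y.submatrix finSumFinEquiv.symm finSumFinEquiv.symm :=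
    ⟨X.submatrix finSumFinEquiv finSumFinEquiv, (cpm_back' X).symm⟩
  unfold cpm at h
  rw [Matrix.submatrix_mul_equiv, Matrix.submatrix_mul_equiv] at h
  have h2 := congrArg (fun M : Matrix (Fin (m + m)) (Fin (m + m)) ℝ =>
    M.submatrix finSumFinEquiv finSumFinEquiv) h
  have h5 := (cpm_back _).symm.trans (h2.trans (cpm_back _))
  rw [← Matrix.fromBlocks_toBlocks Y, Matrix.fromBlocks_multiply,
    Matrix.fromBlocks_multiply] at h5
  obtain ⟨e1, e2, -, -⟩ := Matrix.fromBlocks_inj.1 h5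
  rw [mul_zero, mul_one, zero_mul, neg_mul, one_mul, zero_add, zero_add] at e1
  rw [mul_zero, zero_mul, mul_neg, mul_one, neg_mul, one_mul, add_zero, zero_add, neg_inj] at e2
  refine ⟨Y.toBlocks₁₁, Y.toBlocks₂₁, cpm_ext ?_⟩
  conv_lhs => rw [← Matrix.fromBlocks_toBlocks Y]
  rw [e1, e2]

private def cpHom (m : ℕ) :
    Matrix (Fin m) (Fin m) ℝ →+* Matrix (Fin (m + m)) (Fin (m + m)) ℝ where
  toFun X := cpm X 0
  map_one' := cpm_one
  map_mul' X Y := by
    rw [cpm_mul, mul_zero, mul_zero, zero_mul, sub_zero, add_zero]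
  map_zero' := by
    have h := cpm_smul (0 : ℝ) (0 : Matrix (Fin m) (Fin m) ℝ) 0
    rw [smul_zero, zero_smul] at h
    exact h.symm
  map_add' X Y := by
    rw [cpm_add, add_zero]

private theorem continuous_cpHom (m : ℕ) : Continuous (cpHom m) :=
  (Continuous.matrix_fromBlocks continuous_id continuous_const continuous_const
    continuous_id).matrix_submatrix _ _

private theorem cp_exp_block (X : Matrix (Fin m) (Fin m) ℝ) :
    cpHom m (exp X) = exp (cpHom m X) := by
  let : NormedRing (Matrix (Fin m) (Fin m) ℝ) := Matrix.linftyOpNormedRing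
  let : NormedAlgebra ℝ (Matrix (Fin m) (Fin m) ℝ) := Matrix.linftyOpNormedAlgebra
  let : NormedRing (Matrix (Fin (m + m)) (Fin (m + m)) ℝ) := Matrix.linftyOpNormedRing
  let : NormedAlgebra ℝ (Matrix (Fin (m + m)) (Fin (m + m)) ℝ) := Matrix.linftyOpNormedAlgebra
  exact map_exp_of_mem_ball (𝕂 := ℝ) (cpHom m) (continuous_cpHom m) X
    ((expSeries_radius_eq_top ℝ (Matrix (Fin m) (Fin m) ℝ)).symm ▸ edist_lt_top _ _)

end block

theorem cp_mul (A B A' B' : Alg N) :
    cp A B * cp A' B' = cp (A * A' - B * B') (A * B' + B * A') :=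
  funext fun i => cpm_mul (A i) (B i) (A' i) (B' i)

theorem cp_one : cp (1 : Alg N) 0 = 1 :=
  funext fun _ => cpm_one

theorem cp_add (A B A' B' : Alg N) : cp A B + cp A' B' = cp (A + A') (B + B') :=
  funext fun i => cpm_add (A i) (B i) (A' i) (B' i)

theorem cp_neg (A B : Alg N) : -cp A B = cp (-A) (-B) :=
  funext fun i => cpm_neg (A i) (B i)

theorem cp_sub (A B A' B' : Alg N) : cp A B - cp A' B' = cp (A - A') (B - B') := by
  rw [sub_eq_add_neg, cp_neg, cp_add, sub_eq_add_neg, sub_eq_add_neg]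

theorem cp_smul (c : ℝ) (A B : Alg N) : c • cp A B = cp (c • A) (c • B) :=
  funext fun i => cpm_smul c (A i) (B i)

theorem cp_inj {A B A' B' : Alg N} (h : cp A B = cp A' B') : A = A' ∧ B = B' :=
  ⟨funext fun i => (cpm_inj (congrFun h i)).1, funext fun i => (cpm_inj (congrFun h i)).2⟩

theorem cp_transpose (A B : Alg N) (i : Fin n) :
    (cp A B i)ᵀ = cp (fun i => (A i)ᵀ) (fun i => -(B i)ᵀ) i :=
  cpm_transpose (A i) (B i)

theorem continuous_cp : Continuous fun p : Alg N × Alg N => cp p.1 p.2 := by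
  refine continuous_pi fun i => ?_
  have h1 : Continuous fun p : Alg N × Alg N => p.1 i := (continuous_apply i).comp continuous_fst
  have h2 : Continuous fun p : Alg N × Alg N => p.2 i := (continuous_apply i).comp continuous_snd
  exact (Continuous.matrix_fromBlocks h1 h2.neg h2 h1).matrix_submatrix _ _

/-- the elements which commute with `i` -/
theorem cp_comm {X : Alg (N2 N)} (h : X * cp 0 1 = cp 0 1 * X) : ∃ A B : Alg N, X = cp A B := by
  have key : ∀ i, ∃ A B : Matrix (Fin (N i)) (Fin (N i)) ℝ, X i = cpm A B := fun i =>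
    cpm_comm (congrFun h i)
  choose A B hAB using key
  exact ⟨A, B, funext hAB⟩

/-- the complexification of an element of `∏ i, GL(N i, ℝ)` -/
def cpu (g : (Alg N)ˣ) : (Alg (N2 N))ˣ where
  val := cp g.1 0
  inv := cp (g⁻¹).1 0
  val_inv := by
    rw [cp_mul, mul_zero, mul_zero, zero_mul, sub_zero, add_zero, ← cp_one]
    exact congrArg (fun X => cp X 0) g.mul_inv
  inv_val := by
    rw [cp_mul, mul_zero, mul_zero, zero_mul, sub_zero, add_zero, ← cp_one]
    exact congrArg (fun X => cp X 0) g.inv_mul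

theorem cpu_val (g : (Alg N)ˣ) : (cpu g).1 = cp g.1 0 := rfl

theorem cpu_mul (g h : (Alg N)ˣ) : cpu (g * h) = cpu g * cpu h := by
  refine Units.ext ?_
  show cp (g.1 * h.1) 0 = cp g.1 0 * cp h.1 0
  rw [cp_mul, mul_zero, mul_zero, zero_mul, sub_zero, add_zero]

theorem eu_cp0 (X : Alg N) : eu (cp X 0) = cpu (eu X) :=
  Units.ext (funext fun i => (cp_exp_block (X i)).symm)

theorem orth_cpu {k : (Alg N)ˣ} (h : Orth k) : Orth (cpu k) := by
  intro i
  show (cpm (k.1 i) 0)ᵀ * cpm (k.1 i) 0 = 1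
  rw [cpm_transpose, cpm_mul, Matrix.transpose_zero, neg_zero, mul_zero, zero_mul, mul_zero,
    sub_zero, add_zero, h i, cpm_one]

theorem orth_eu {Y : Alg N} (h : ∀ i, (Y i)ᵀ = -(Y i)) : Orth (eu Y) := by
  intro i
  show (exp (Y i))ᵀ * exp (Y i) = 1
  rw [← Matrix.exp_transpose, h i,
    ← Matrix.exp_add_of_commute (-(Y i)) (Y i) (Commute.refl (Y i)).neg_left, neg_add_cancel,
    exp_zero]

/-- skew elements -/
theorem skew_cp {V : Submodule ℝ (Alg N)} (hV : ∀ v ∈ V, ∀ i, (v i)ᵀ = v i) {v : Alg N}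
    (hv : v ∈ V) (i : Fin n) : (cp 0 v i)ᵀ = -(cp 0 v i) := by
  show (cpm 0 (v i))ᵀ = -(cpm 0 (v i))
  rw [cpm_transpose, cpm_neg, hV v hv i, Matrix.transpose_zero, neg_zero]

/-- the compact group generated by `exp (i V)` -/
def CG (V : Submodule ℝ (Alg N)) : Subgroup (Alg (N2 N))ˣ :=
  (Subgroup.closure {u | ∃ v ∈ V, u = eu (cp 0 v)}).topologicalClosure

theorem CG_closed (V : Submodule ℝ (Alg N)) : IsClosed (CG V : Set (Alg (N2 N))ˣ) :=
  Subgroup.isClosed_topologicalClosure _

theorem eu_mem_CG {V : Submodule ℝ (Alg N)} {v : Alg N} (hv : v ∈ V) : eu (cp 0 v) ∈ CG V :=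
  Subgroup.le_topologicalClosure _ (Subgroup.subset_closure ⟨v, hv, rfl⟩)

/-- induction: a closed subgroup which contains the generators contains `CG V` -/
theorem CG_le {V : Submodule ℝ (Alg N)} {A : Subgroup (Alg (N2 N))ˣ}
    (hA : IsClosed (A : Set (Alg (N2 N))ˣ)) (h : ∀ v ∈ V, eu (cp 0 v) ∈ A) : CG V ≤ A :=
  Subgroup.topologicalClosure_minimal _ ((Subgroup.closure_le _).2 (by
    rintro _ ⟨v, hv, rfl⟩
    exact h v hv)) hA

theorem CG_mono {V W : Submodule ℝ (Alg N)} (h : V ≤ W) : CG V ≤ CG W :=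
  CG_le (CG_closed W) fun _ hv => eu_mem_CG (h hv)

theorem CG_orth {V : Submodule ℝ (Alg N)} (hV : ∀ v ∈ V, ∀ i, (v i)ᵀ = v i) :
    ∀ u ∈ CG V, Orth u := by
  have hO : Orth (1 : (Alg (N2 N))ˣ) := fun i => by
    show ((1 : Alg (N2 N)) i)ᵀ * (1 : Alg (N2 N)) i = 1
    rw [Pi.one_apply, transpose_one, one_mul]
  let O : Subgroup (Alg (N2 N))ˣ :=
    { carrier := {k | Orth k}
      mul_mem' := fun h h' => orth_mul h h'
      one_mem' := hO
      inv_mem' := fun h => orth_inv h }
  have h := CG_le (V := V) (A := O) (isCompact_orth (N := N2 N)).isClosed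
    fun v hv => orth_eu (skew_cp hV hv)
  exact fun u hu => h hu

theorem CG_compact {V : Submodule ℝ (Alg N)} (hV : ∀ v ∈ V, ∀ i, (v i)ᵀ = v i) :
    IsCompact (CG V : Set (Alg (N2 N))ˣ) :=
  (isCompact_orth (N := N2 N)).of_isClosed_subset (CG_closed V) fun u hu => CG_orth hV u hu

end Pool.Agent.MP_417c68_gt
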