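import Pool.Agent.Lib.MP_417c68_gt_T.Kp
import Pool.Agent.Lib.MP_417c68_gt_T.Cp

/-!
# MP_417c68_gt, project T, module Bd: block diagonal matrices and the map `gam`

Text: `/team-store/TEXT_417c68_T.md`, section 1.

`gam g` is the complex matrix `diag (g, g⁻ᵀ)` in the basis in which `cp A B` is real:
`gam g = cx (cp a 0) - I • cx (cp 0 b)`, `a = (g + g⁻ᵀ) / 2`, `b = (g - g⁻ᵀ) / 2`.

PROOFS.
* `cx_exp`: `Matrix.exp_blockDiagonal'`, `NormedSpace.map_exp` for the continuous ring homomorphism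
  `(algebraMap ℝ ℂ).mapMatrix`.
* `gam_mul`: `cx` is a ring homomorphism, `cp 0 b * cp 0 b' = cp (-(b * b')) 0`,
  `a a' + b b' = (g g' + (g g')⁻ᵀ) / 2`, `a b' + b a' = (g g' - (g g')⁻ᵀ) / 2`.
* `gam_orth`: `g⁻ᵀ = g`, so `a = g`, `b = 0`.
* `gam_eu`: `t ↦ gam (eu (t • X))` and `t ↦ exp ((-(t : ℂ) * I) • cx (cp 0 X))`: the power series of
  `exp (c • J X)` with `(J X)^2 = -X^2`: even terms `cosh`, odd terms `sinh`; or: for commuting
  `exp (w) = exp (u + v)`, use `Π_± = (1 ∓ I J) / 2` (`J = cx (cp 0 1)`): `-I J X Π_+ = ...`; or: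
  both sides are solutions of the same linear differential equation `f' = f * (-I • cx (cp 0 X))`,
  `f 0 = 1` (then `f t * exp (-t A)` has derivative `0`), which is probably the shortest.
* `gam_bound`: `gam` is continuous, a continuous function is bounded on compact sets.
-/

noncomputable section

namespace Pool.Agent.MP_417c68_gt

open Matrix NormedSpace

variable {n : ℕ} {N : Fin n → ℕ}

/-- the index set of the block diagonal matrices -/
abbrev Kx (N : Fin n → ℕ) : Type := Σ i, Fin (N i)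

/-- the block diagonal matrix -/
def bd (N : Fin n → ℕ) : Alg N →+* Matrix (Kx N) (Kx N) ℝ :=
  Matrix.blockDiagonal'RingHom (fun i => Fin (N i)) ℝ

/-- the block diagonal matrix, as a complex matrix -/
def cx (N : Fin n → ℕ) : Alg N →+* Matrix (Kx N) (Kx N) ℂ :=
  ((algebraMap ℝ ℂ).mapMatrix).comp (bd N)

theorem bd_apply (X : Alg N) (i : Fin n) (a b : Fin (N i)) : bd N X ⟨i, a⟩ ⟨i, b⟩ = X i a b :=
  Matrix.blockDiagonal'_apply_eq X i a b

theorem bd_apply_ne (X : Alg N) {i j : Fin n} (h : i ≠ j) (a : Fin (N i)) (b : Fin (N j)) :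
    bd N X ⟨i, a⟩ ⟨j, b⟩ = 0 :=
  Matrix.blockDiagonal'_apply_ne X a b h

theorem cx_apply (X : Alg N) (a b : Kx N) : cx N X a b = (bd N X a b : ℂ) := rfl

theorem kp_cx (d : ℕ) (X : Alg N) : kp d (cx N X) = (kp d (bd N X)).map (algebraMap ℝ ℂ) :=
  kp_map (algebraMap ℝ ℂ) d (bd N X)

theorem continuous_bd : Continuous (bd N) := by
  exact Continuous.matrix_blockDiagonal' continuous_id

theorem continuous_cx : Continuous (cx N) := by
  have h : Continuous fun X : Alg N => (bd N X).map (algebraMap ℝ ℂ) :=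
    Continuous.matrix_map continuous_bd Complex.continuous_ofReal
  exact h

theorem cx_smul (c : ℝ) (X : Alg N) : cx N (c • X) = (c : ℂ) • cx N X := by
  ext a b
  obtain ⟨i, a⟩ := a
  obtain ⟨j, b⟩ := b
  rw [Matrix.smul_apply, cx_apply, cx_apply]
  by_cases h : i = j
  · subst h
    rw [bd_apply, bd_apply]
    simp
  · rw [bd_apply_ne _ h, bd_apply_ne _ h]
    simp

private theorem map_expC {m : Type*} [Fintype m] [DecidableEq m]
    (f : Alg N →+* Matrix m m ℂ) (hf : Continuous f) (X : Alg N) :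
    f (exp X) = exp (f X) := by
  let : NormedRing (Matrix m m ℂ) := Matrix.linftyOpNormedRing
  let : NormedAlgebra ℝ (Matrix m m ℂ) := Matrix.linftyOpNormedAlgebra
  let : ∀ i, NormedRing (Matrix (Fin (N i)) (Fin (N i)) ℝ) := fun i =>
    Matrix.linftyOpNormedRing
  let : ∀ i, NormedAlgebra ℝ (Matrix (Fin (N i)) (Fin (N i)) ℝ) := fun i =>
    Matrix.linftyOpNormedAlgebra
  exact map_exp_of_mem_ball (𝕂 := ℝ) f hf X
    ((expSeries_radius_eq_top ℝ (Alg N)).symm ▸ edist_lt_top _ _)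

private theorem exp_alg (X : Alg N) (i : Fin n) : exp X i = exp (X i) := by
  let : ∀ i, NormedRing (Matrix (Fin (N i)) (Fin (N i)) ℝ) := fun i =>
    Matrix.linftyOpNormedRing
  let : ∀ i, NormedAlgebra ℝ (Matrix (Fin (N i)) (Fin (N i)) ℝ) := fun i =>
    Matrix.linftyOpNormedAlgebra
  exact map_exp_of_mem_ball (𝕂 := ℝ)
    (Pi.evalRingHom (fun i => Matrix (Fin (N i)) (Fin (N i)) ℝ) i) (continuous_apply i) X
    ((expSeries_radius_eq_top ℝ (Alg N)).symm ▸ edist_lt_top _ _)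

private theorem eu_eq_exp (X : Alg N) : (eu X).1 = exp X := by
  funext i
  exact (exp_alg X i).symm

theorem cx_eu (X : Alg N) : cx N (eu X).1 = exp (cx N X) := by
  rw [eu_eq_exp, map_expC (cx N) continuous_cx]

/-- the matrix `diag (g, g⁻ᵀ)` -/
def gam (g : (Alg N)ˣ) : Matrix (Kx (N2 N)) (Kx (N2 N)) ℂ :=
  cx (N2 N) (cp ((1 / 2 : ℝ) • (g.1 + fun i => ((g⁻¹).1 i)ᵀ)) 0) -
    Complex.I • cx (N2 N) (cp 0 ((1 / 2 : ℝ) • (g.1 - fun i => ((g⁻¹).1 i)ᵀ)))

private theorem cp_zero : cp (0 : Alg N) 0 = 0 := by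
  have h := cp_sub (0 : Alg N) 0 0 0
  rwa [sub_self, sub_self, eq_comm] at h

/-- the ring homomorphism `(A, B) ↦ Π A + (1 - Π) B` -/
private def phi (N : Fin n → ℕ) : Alg N × Alg N →+* Matrix (Kx (N2 N)) (Kx (N2 N)) ℂ where
  toFun p := cx (N2 N) (cp ((1 / 2 : ℝ) • (p.1 + p.2)) 0) -
    Complex.I • cx (N2 N) (cp 0 ((1 / 2 : ℝ) • (p.1 - p.2)))
  map_one' := by
    show cx (N2 N) (cp ((1 / 2 : ℝ) • ((1 : Alg N) + 1)) 0) -
      Complex.I • cx (N2 N) (cp 0 ((1 / 2 : ℝ) • ((1 : Alg N) - 1))) = 1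
    have h : (1 / 2 : ℝ) • ((1 : Alg N) + 1) = 1 := by module
    rw [h, sub_self, smul_zero, cp_zero, cp_one, map_zero, map_one, smul_zero, sub_zero]
  map_zero' := by
    show cx (N2 N) (cp ((1 / 2 : ℝ) • ((0 : Alg N) + 0)) 0) -
      Complex.I • cx (N2 N) (cp 0 ((1 / 2 : ℝ) • ((0 : Alg N) - 0))) = 0
    rw [add_zero, sub_zero, smul_zero, cp_zero, map_zero, smul_zero, sub_zero]
  map_add' p q := by
    have h1 : cp ((1 / 2 : ℝ) • ((p.1 + q.1) + (p.2 + q.2))) 0 =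
        cp ((1 / 2 : ℝ) • (p.1 + p.2)) 0 + cp ((1 / 2 : ℝ) • (q.1 + q.2)) 0 := by
      rw [cp_add, add_zero]
      congr 1
      module
    have h2 : cp 0 ((1 / 2 : ℝ) • ((p.1 + q.1) - (p.2 + q.2))) =
        cp 0 ((1 / 2 : ℝ) • (p.1 - p.2)) + cp 0 ((1 / 2 : ℝ) • (q.1 - q.2)) := by
      rw [cp_add, add_zero]
      congr 1
      module
    show cx (N2 N) (cp ((1 / 2 : ℝ) • ((p.1 + q.1) + (p.2 + q.2))) 0) -
      Complex.I • cx (N2 N) (cp 0 ((1 / 2 : ℝ) • ((p.1 + q.1) - (p.2 + q.2)))) = _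
    rw [h1, h2, map_add, map_add, smul_add Complex.I]
    abel
  map_mul' p q := by
    obtain ⟨a, ha⟩ : ∃ a, a = (1 / 2 : ℝ) • (p.1 + p.2) := ⟨_, rfl⟩
    obtain ⟨b, hb⟩ : ∃ b, b = (1 / 2 : ℝ) • (p.1 - p.2) := ⟨_, rfl⟩
    obtain ⟨a', ha'⟩ : ∃ a, a = (1 / 2 : ℝ) • (q.1 + q.2) := ⟨_, rfl⟩
    obtain ⟨b', hb'⟩ : ∃ b, b = (1 / 2 : ℝ) • (q.1 - q.2) := ⟨_, rfl⟩
    have e1 : (1 / 2 : ℝ) • (p.1 * q.1 + p.2 * q.2) = a * a' + b * b' := by
      rw [ha, hb, ha', hb']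
      simp only [smul_mul_assoc, mul_smul_comm, mul_add, add_mul, mul_sub, sub_mul]
      module
    have e2 : (1 / 2 : ℝ) • (p.1 * q.1 - p.2 * q.2) = a * b' + b * a' := by
      rw [ha, hb, ha', hb']
      simp only [smul_mul_assoc, mul_smul_comm, mul_add, add_mul, mul_sub, sub_mul]
      module
    have h1 : cp ((1 / 2 : ℝ) • (p.1 * q.1 + p.2 * q.2)) 0 =
        cp a 0 * cp a' 0 - cp 0 b * cp 0 b' := by
      rw [cp_mul, cp_mul, cp_sub, e1]
      congr 1 <;> simp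
    have h2 : cp 0 ((1 / 2 : ℝ) • (p.1 * q.1 - p.2 * q.2)) =
        cp a 0 * cp 0 b' + cp 0 b * cp a' 0 := by
      rw [cp_mul, cp_mul, cp_add, e2]
      congr 1 <;> simp
    show cx (N2 N) (cp ((1 / 2 : ℝ) • (p.1 * q.1 + p.2 * q.2)) 0) -
      Complex.I • cx (N2 N) (cp 0 ((1 / 2 : ℝ) • (p.1 * q.1 - p.2 * q.2))) =
      (cx (N2 N) (cp ((1 / 2 : ℝ) • (p.1 + p.2)) 0) -
        Complex.I • cx (N2 N) (cp 0 ((1 / 2 : ℝ) • (p.1 - p.2)))) *
      (cx (N2 N) (cp ((1 / 2 : ℝ) • (q.1 + q.2)) 0) -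
        Complex.I • cx (N2 N) (cp 0 ((1 / 2 : ℝ) • (q.1 - q.2))))
    rw [h1, h2, ← ha, ← hb, ← ha', ← hb', map_sub, map_add, map_mul, map_mul, map_mul, map_mul,
      sub_mul, mul_sub, mul_sub, smul_add, smul_mul_assoc, mul_smul_comm, smul_mul_assoc,
      mul_smul_comm, smul_smul, Complex.I_mul_I, neg_one_smul]
    abel

private theorem gam_eq (g : (Alg N)ˣ) : gam g = phi N (g.1, fun i => ((g⁻¹).1 i)ᵀ) := rfl

private theorem continuous_phi : Continuous (phi N) := by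
  have h : Continuous fun p : Alg N × Alg N => cx (N2 N) (cp ((1 / 2 : ℝ) • (p.1 + p.2)) 0) -
      Complex.I • cx (N2 N) (cp 0 ((1 / 2 : ℝ) • (p.1 - p.2))) := by
    have h1 : Continuous fun p : Alg N × Alg N => (1 / 2 : ℝ) • (p.1 + p.2) :=
      (continuous_const_smul (1 / 2 : ℝ)).comp (continuous_fst.add continuous_snd)
    have h2 : Continuous fun p : Alg N × Alg N => (1 / 2 : ℝ) • (p.1 - p.2) :=
      (continuous_const_smul (1 / 2 : ℝ)).comp (continuous_fst.sub continuous_snd)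
    have h3 : Continuous fun p : Alg N × Alg N => cx (N2 N) (cp ((1 / 2 : ℝ) • (p.1 + p.2)) 0) :=
      continuous_cx.comp (continuous_cp.comp (h1.prodMk continuous_const))
    have h4 : Continuous fun p : Alg N × Alg N => cx (N2 N) (cp 0 ((1 / 2 : ℝ) • (p.1 - p.2))) :=
      continuous_cx.comp (continuous_cp.comp (continuous_const.prodMk h2))
    have h5 : Continuous fun p : Alg N × Alg N =>
        Complex.I • cx (N2 N) (cp 0 ((1 / 2 : ℝ) • (p.1 - p.2))) :=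
      (continuous_const_smul Complex.I).comp h4
    exact h3.sub h5
  exact h

private theorem phi_exp (X Y : Alg N) : phi N (exp X, exp Y) = exp (phi N (X, Y)) := by
  let : NormedRing (Matrix (Kx (N2 N)) (Kx (N2 N)) ℂ) := Matrix.linftyOpNormedRing
  let : NormedAlgebra ℝ (Matrix (Kx (N2 N)) (Kx (N2 N)) ℂ) := Matrix.linftyOpNormedAlgebra
  let : ∀ i, NormedRing (Matrix (Fin (N i)) (Fin (N i)) ℝ) := fun i =>
    Matrix.linftyOpNormedRing
  let : ∀ i, NormedAlgebra ℝ (Matrix (Fin (N i)) (Fin (N i)) ℝ) := fun i =>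
    Matrix.linftyOpNormedAlgebra
  have h1 := map_exp_of_mem_ball (𝕂 := ℝ) (RingHom.fst (Alg N) (Alg N)) continuous_fst (X, Y)
    ((expSeries_radius_eq_top ℝ (Alg N × Alg N)).symm ▸ edist_lt_top _ _)
  have h2 := map_exp_of_mem_ball (𝕂 := ℝ) (RingHom.snd (Alg N) (Alg N)) continuous_snd (X, Y)
    ((expSeries_radius_eq_top ℝ (Alg N × Alg N)).symm ▸ edist_lt_top _ _)
  have h3 := map_exp_of_mem_ball (𝕂 := ℝ) (phi N) continuous_phi (X, Y)
    ((expSeries_radius_eq_top ℝ (Alg N × Alg N)).symm ▸ edist_lt_top _ _)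
  exact (congrArg (phi N) (Prod.ext h1.symm h2.symm)).trans h3

theorem gam_mul (g h : (Alg N)ˣ) : gam (g * h) = gam g * gam h := by
  rw [gam_eq, gam_eq, gam_eq, ← map_mul]
  congr 1
  refine Prod.ext rfl ?_
  funext i
  show (((g * h)⁻¹).1 i)ᵀ = ((g⁻¹).1 i)ᵀ * ((h⁻¹).1 i)ᵀ
  rw [_root_.mul_inv_rev, ← Matrix.transpose_mul]
  rfl

theorem gam_orth {k : (Alg N)ˣ} (ho : Orth k) : gam k = cx (N2 N) (cpu k).1 := by
  have h : (fun i => ((k⁻¹).1 i)ᵀ) = k.1 := by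
    funext i
    have h1 : (k.1 i)ᵀ * k.1 i = 1 := ho i
    have h2 : k.1 i * (k⁻¹).1 i = 1 := congrFun k.mul_inv i
    have h3 : (k⁻¹).1 i = (k.1 i)ᵀ := by
      calc (k⁻¹).1 i = ((k.1 i)ᵀ * k.1 i) * (k⁻¹).1 i := by rw [h1, one_mul]
        _ = (k.1 i)ᵀ := by rw [mul_assoc, h2, mul_one]
    show ((k⁻¹).1 i)ᵀ = k.1 i
    rw [h3, Matrix.transpose_transpose]
  unfold gam
  have h4 : (1 / 2 : ℝ) • (k.1 + k.1) = k.1 := by module
  rw [h, h4, sub_self, smul_zero, cp_zero, map_zero, smul_zero, sub_zero, cpu_val]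

theorem gam_eu {X : Alg N} (hX : ∀ i, (X i)ᵀ = X i) (t : ℝ) :
    gam (eu (t • X)) = exp ((((-t : ℝ) : ℂ) * Complex.I) • cx (N2 N) (cp 0 X)) := by
  have h1 : (eu (t • X)).1 = exp (t • X) := eu_eq_exp _
  have h2 : (fun i => (((eu (t • X))⁻¹).1 i)ᵀ) = exp (-(t • X)) := by
    rw [← eu_eq_exp]
    funext i
    show (exp (-(t • X) i))ᵀ = exp (-(t • X) i)
    rw [← Matrix.exp_transpose]
    congr 1
    show (-(t • X i))ᵀ = -(t • X i)
    rw [Matrix.transpose_neg, Matrix.transpose_smul, hX i]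
  rw [gam_eq, h1, h2, phi_exp]
  congr 1
  show cx (N2 N) (cp ((1 / 2 : ℝ) • (t • X + -(t • X))) 0) -
    Complex.I • cx (N2 N) (cp 0 ((1 / 2 : ℝ) • (t • X - -(t • X)))) = _
  have h3 : cp 0 ((1 / 2 : ℝ) • (t • X - -(t • X))) = t • cp 0 X := by
    rw [cp_smul, smul_zero]
    congr 1
    module
  rw [h3, add_neg_cancel, smul_zero, cp_zero, map_zero, zero_sub, cx_smul, smul_smul, ← neg_smul]
  congr 1
  push_cast
  ring

theorem continuous_gam : Continuous (gam : (Alg N)ˣ → _) := by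
  have h1 : Continuous fun g : (Alg N)ˣ => (g⁻¹).1 := Units.continuous_val.comp continuous_inv
  have h2 : Continuous fun g : (Alg N)ˣ => (fun i => ((g⁻¹).1 i)ᵀ : Alg N) :=
    continuous_pi fun i => ((continuous_apply i).comp h1).matrix_transpose
  have h3 : Continuous fun g : (Alg N)ˣ => phi N (g.1, fun i => ((g⁻¹).1 i)ᵀ) :=
    continuous_phi.comp (Units.continuous_val.prodMk h2)
  exact h3

/-- orthogonal matrices have entries bounded by one -/
theorem cx_orth_bound {u : (Alg N)ˣ} (hu : Orth u) (a b : Kx N) : ‖cx N u.1 a b‖ ≤ 1 := by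
  obtain ⟨i, a⟩ := a
  obtain ⟨j, b⟩ := b
  rw [cx_apply, Complex.norm_real]
  by_cases h : i = j
  · subst h
    rw [bd_apply]
    have h1 : ((u.1 i)ᵀ * u.1 i) b b = 1 := by
      rw [hu i, Matrix.one_apply_eq]
    rw [Matrix.mul_apply] at h1
    have h2 : (u.1 i)ᵀ b a * u.1 i a b ≤ ∑ c, (u.1 i)ᵀ b c * u.1 i c b :=
      Finset.single_le_sum (f := fun c => (u.1 i)ᵀ b c * u.1 i c b)
        (fun c _ => mul_self_nonneg (u.1 i c b)) (Finset.mem_univ a)
    rw [h1] at h2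
    rw [Real.norm_eq_abs]
    exact abs_le_one_iff_mul_self_le_one.2 h2
  · rw [bd_apply_ne _ h]
    simp

end Pool.Agent.MP_417c68_gt
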