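import Pool.Agent.Lib.MP_417c68_gt_T.Fin

/-!
# MP_417c68_gt, project T, module Conn: the identity component, Theorem T4 for all `G`
-/

noncomputable section

namespace Pool.Agent.MP_417c68_gt

open Matrix NormedSpace Filter Topology Pointwise

variable {n : ℕ} {N : Fin n → ℕ} {G H L : Subgroup (Alg N)ˣ}

/-- the identity component of `G` -/
def G0 (G : Subgroup (Alg N)ˣ) : Subgroup (Alg N)ˣ where
  carrier := connectedComponentIn (G : Set (Alg N)ˣ) 1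
  one_mem' := mem_connectedComponentIn G.one_mem
  mul_mem' := by
    intro a b ha hb
    have hle := connectedComponentIn_subset (G : Set (Alg N)ˣ) 1
    have h1 : IsPreconnected ((fun x => a * x) '' connectedComponentIn (G : Set (Alg N)ˣ) 1) :=
      isPreconnected_connectedComponentIn.image _ (by fun_prop)
    have h2 := IsPreconnected.union a ha
      (Set.mem_image_of_mem (fun x => a * x) (mem_connectedComponentIn G.one_mem) |> fun h => by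
        rwa [mul_one] at h) isPreconnected_connectedComponentIn h1
    refine h2.subset_connectedComponentIn (Or.inl (mem_connectedComponentIn G.one_mem))
      (Set.union_subset hle ?_) (Or.inr ⟨b, hb, rfl⟩)
    rintro _ ⟨x, hx, rfl⟩
    exact G.mul_mem (hle ha) (hle hx)
  inv_mem' := by
    intro a ha
    have hle := connectedComponentIn_subset (G : Set (Alg N)ˣ) 1
    have h1 : IsPreconnected ((fun x => x⁻¹) '' connectedComponentIn (G : Set (Alg N)ˣ) 1) :=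
      isPreconnected_connectedComponentIn.image _ (by fun_prop)
    refine h1.subset_connectedComponentIn ⟨1, mem_connectedComponentIn G.one_mem, inv_one⟩ ?_
      ⟨a, ha, rfl⟩
    rintro _ ⟨x, hx, rfl⟩
    exact G.inv_mem (hle hx)

theorem G0_le : G0 G ≤ G := connectedComponentIn_subset (G : Set (Alg N)ˣ) 1

theorem G0_preconnected : IsPreconnected (G0 G : Set (Alg N)ˣ) :=
  isPreconnected_connectedComponentIn

theorem mem_G0_of {S : Set (Alg N)ˣ} (hS : IsPreconnected S) (h1 : (1 : (Alg N)ˣ) ∈ S)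
    (hG : S ⊆ G) {g : (Alg N)ˣ} (hg : g ∈ S) : g ∈ G0 G :=
  hS.subset_connectedComponentIn h1 hG hg

theorem G0_closed (hG : IsClosed (G : Set (Alg N)ˣ)) : IsClosed (G0 G : Set (Alg N)ˣ) := by
  refine closure_subset_iff_isClosed.1 fun g hg => ?_
  exact mem_G0_of (G0_preconnected.closure) (subset_closure (G0 G).one_mem)
    (closure_minimal G0_le hG) hg

theorem pp_G0 (X : Alg N) : X ∈ pp (G0 G) ↔ X ∈ pp G := by
  refine ⟨fun h => pp_mono G0_le h, fun h => ⟨h.1, fun t => ?_⟩⟩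
  have hc : Continuous fun s : ℝ => eu (s • X) :=
    continuous_eu.comp (continuous_id.smul continuous_const)
  refine mem_G0_of (isPreconnected_range hc) ⟨0, ?_⟩ ?_ ⟨t, rfl⟩
  · show eu ((0 : ℝ) • X) = 1
    rw [zero_smul, eu_zero]
  · rintro _ ⟨s, rfl⟩
    exact h.2 s

theorem G0_selfAdj (hG : SelfAdj G) : SelfAdj (G0 G) := by
  refine ⟨G0_closed hG.closed, fun h hh => ?_⟩
  obtain ⟨X, hX, he⟩ := hG.polar h (G0_le hh)
  exact ⟨X, (pp_G0 X).2 hX, he⟩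

private theorem conn_fr {m : ℕ} {A : Matrix (Fin m) (Fin m) ℝ} (hA : Aᵀ = A) :
    fr (exp A) = (exp ((2 : ℝ) • A)).trace := by
  have e : (exp A)ᵀ = exp A := by rw [← Matrix.exp_transpose, hA]
  rw [fr, e, ← Matrix.exp_add_of_commute _ _ (Commute.refl _), two_smul]

private theorem conn_bound {X : Alg N} (hX : ∀ i, (X i)ᵀ = X i)
    {R : ℝ} (h : eu X ∈ KR N R) : nF X ≤ (n : ℝ) * (R / 2) := by
  have key : ∀ i, fr (X i) ≤ R / 2 := by
    intro i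
    obtain ⟨h1, h2⟩ := h i
    have h3 : fr ((eu X).1 i) = (exp ((2 : ℝ) • X i)).trace := conn_fr (hX i)
    have h4 : fr (((eu X)⁻¹).1 i) = (exp (-((2 : ℝ) • X i))).trace := by
      rw [← eu_neg]
      show fr (exp ((-X) i)) = _
      rw [Pi.neg_apply, conn_fr (by rw [Matrix.transpose_neg, hX i]), smul_neg]
    rw [h3] at h1
    rw [h4] at h2
    have h5 : ((2 : ℝ) • X i)ᵀ = (2 : ℝ) • X i := by
      rw [Matrix.transpose_smul, hX i]
    have h6 := sq_le_exp h5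
    have h7 : (((2 : ℝ) • X i) * ((2 : ℝ) • X i)).trace = 4 * (X i * X i).trace := by
      rw [Matrix.smul_mul, Matrix.mul_smul, smul_smul, Matrix.trace_smul, smul_eq_mul]
      norm_num
    rw [h7] at h6
    have h8 : fr (X i) = (X i * X i).trace := by rw [fr, hX i]
    rw [h8]
    linarith
  unfold nF
  refine (Finset.sum_le_sum fun i _ => key i).trans ?_
  rw [Finset.sum_const, Finset.card_univ, Fintype.card_fin, nsmul_eq_mul]

private theorem conn_P_closed (hG : IsClosed (G : Set (Alg N)ˣ)) :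
    IsClosed {g : (Alg N)ˣ | ∃ X ∈ pp G, g = eu X} := by
  have := firstCountable_units (N := N)
  have : SequentialSpace (Alg N)ˣ := FrechetUrysohnSpace.to_sequentialSpace
  refine IsSeqClosed.isClosed fun p g hp hlim => ?_
  choose X hX he using hp
  have hcpt := hlim.isCompact_insert_range
  obtain ⟨R, hR⟩ := exists_KR hcpt
  have hb : ∀ j, nF (X j) ≤ (n : ℝ) * (R / 2) := fun j => by
    refine conn_bound (hX j).1 ?_
    rw [← he j]
    exact hR (Set.mem_insert_of_mem _ ⟨j, rfl⟩)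
  obtain ⟨Y, φ, hφ, hY⟩ := exists_subseq hb
  have hYG : Y ∈ pp G := by
    have h1 : ∀ j, X (φ j) ∈ pS G := fun j => (mem_pS hG).2 (hX _)
    have h2 : IsClosed (pS G : Set (Alg N)) := Submodule.closed_of_finiteDimensional _
    exact (mem_pS hG).1 (h2.mem_of_tendsto hY (Eventually.of_forall h1))
  refine ⟨Y, hYG, ?_⟩
  have h3 : Tendsto (fun j => p (φ j)) atTop (𝓝 g) := hlim.comp hφ.tendsto_atTop
  have h4 : Tendsto (fun j => eu (X (φ j))) atTop (𝓝 (eu Y)) :=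
    (continuous_eu.tendsto Y).comp hY
  have h5 : (fun j => p (φ j)) = fun j => eu (X (φ j)) := funext fun j => he (φ j)
  rw [h5] at h3
  exact tendsto_nhds_unique h3 h4

private theorem conn_uniq {k k' : (Alg N)ˣ} (hk : Orth k) (hk' : Orth k') {X Y : Alg N}
    (hX : ∀ i, (X i)ᵀ = X i) (hY : ∀ i, (Y i)ᵀ = Y i) (h : k * eu X = k' * eu Y) : k = k' := by
  have key : ∀ {u : (Alg N)ˣ} {Z : Alg N}, Orth u → (∀ i, (Z i)ᵀ = Z i) → ∀ i,
      ((u * eu Z).1 i)ᵀ * (u * eu Z).1 i = exp ((2 : ℝ) • Z i) := by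
    intro u Z hu hZ i
    show (u.1 i * exp (Z i))ᵀ * (u.1 i * exp (Z i)) = exp ((2 : ℝ) • Z i)
    have e : (exp (Z i))ᵀ = exp (Z i) := by rw [← Matrix.exp_transpose, hZ i]
    rw [Matrix.transpose_mul, Matrix.mul_assoc, ← Matrix.mul_assoc (u.1 i)ᵀ, hu i,
      Matrix.one_mul, e, ← Matrix.exp_add_of_commute _ _ (Commute.refl _), two_smul]
  have h1 : X = Y := by
    funext i
    have h2 := key hk hX i
    rw [h, key hk' hY i] at h2
    have h3 := exp_inj_symm (by rw [Matrix.transpose_smul, hY i])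
      (by rw [Matrix.transpose_smul, hX i]) h2
    have h4 := congrArg (fun M => (1 / 2 : ℝ) • M) h3
    simp only [smul_smul] at h4
    norm_num at h4
    exact h4.symm
  rw [h1] at h
  exact mul_right_cancel h

theorem G0_kconn (hG : SelfAdj G) : Kconn (G0 G) := by
  have hG0 := G0_selfAdj hG
  have hK : IsCompact {k : (Alg N)ˣ | k ∈ G0 G ∧ Orth k} :=
    isCompact_orth.inter_left hG0.closed
  have hP := conn_P_closed hG0.closed
  rw [Kconn, isPreconnected_closed_iff]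
  intro t t' ht ht' hsub hn hn'
  have hT : ∀ s : Set (Alg N)ˣ, IsClosed s →
      IsClosed (({k : (Alg N)ˣ | k ∈ G0 G ∧ Orth k} ∩ s) * {g | ∃ X ∈ pp (G0 G), g = eu X}) :=
    fun s hs => hP.mul_left_of_isCompact (hK.inter_right hs)
  have hmem : ∀ s : Set (Alg N)ˣ, ∀ k ∈ ({k : (Alg N)ˣ | k ∈ G0 G ∧ Orth k} ∩ s),
      k ∈ (G0 G : Set (Alg N)ˣ) ∩ (({k : (Alg N)ˣ | k ∈ G0 G ∧ Orth k} ∩ s) *
        {g | ∃ X ∈ pp (G0 G), g = eu X}) := by
    intro s k hk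
    refine ⟨hk.1.1, Set.mem_mul.2 ⟨k, hk, 1, ⟨0, ?_, eu_zero.symm⟩, mul_one k⟩⟩
    exact (mem_pS hG0.closed).1 (Submodule.zero_mem _)
  have h1 := isPreconnected_closed_iff.1 (G0_preconnected (G := G)) _ _ (hT t ht) (hT t' ht')
    (fun g hg => by
      obtain ⟨X, hX, k, hk, ho, rfl⟩ := polar_right hG0 hg
      rcases hsub ⟨hk, ho⟩ with h | h
      · exact Or.inl (Set.mul_mem_mul ⟨⟨hk, ho⟩, h⟩ ⟨X, hX, rfl⟩)
      · exact Or.inr (Set.mul_mem_mul ⟨⟨hk, ho⟩, h⟩ ⟨X, hX, rfl⟩))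
    ⟨_, hmem t _ hn.some_mem⟩ ⟨_, hmem t' _ hn'.some_mem⟩
  obtain ⟨g, hg, h2, h3⟩ := h1
  obtain ⟨k, hk, _, ⟨X, hX, rfl⟩, e⟩ := Set.mem_mul.1 h2
  obtain ⟨k', hk', _, ⟨X', hX', rfl⟩, e'⟩ := Set.mem_mul.1 h3
  have h4 : k = k' := conn_uniq hk.1.2 hk'.1.2 hX.1 hX'.1 (e.trans e'.symm)
  exact ⟨k, hk.1, hk.2, by rw [h4]; exact hk'.2⟩

/-- `G = L' H'` with compact intersection, for one `L'` and all `H` complementary to `L` -/
theorem fct_aux (hG : SelfAdj G) (hK : Kconn G) (hH : SelfAdj H) (hL : SelfAdj L)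
    (hHG : H ≤ G) (hLG : L ≤ G) (hc : Cpl G H L) {L' : Subgroup (Alg N)ˣ} (hL' : SelfAdj L')
    (hLL' : L ≤ L') (hNL : NK G L ≤ L') (hppL : ∀ X, X ∈ pp L' ↔ X ∈ pp L) :
    ∃ H' : Subgroup (Alg N)ˣ, H' ≤ G ∧ SelfAdj H' ∧ (∀ X, X ∈ pp H' ↔ X ∈ pp H) ∧
      CocptIn H H' ∧ Fct G L' H' := by
  obtain ⟨H', hH'G, hH', hHH', hNH, hppH, hdH⟩ := gvx hG hH hHG
  have hS := sumN_of_cocompact hG hH hL hHG hLG ((ky hG hH hL hHG hLG).2 hc).2
  refine ⟨H', hH'G, hH', hppH, ⟨hHH', NK G H, NK_compact hG hH,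
    hdH⟩, fun g hg => ?_, ?_⟩
  · obtain ⟨l, hl, k, hk, ho, h, hh, rfl⟩ := lkh hG hH hL hHG hLG hc hg
    obtain ⟨l', hl', b, hb, rfl⟩ := nk_mul hG hK hH hL hHG hLG hS hk ho
    exact ⟨l * l', L'.mul_mem (hLL' hl) (hNL hl'), b * h, H'.mul_mem (hNH hb) (hHH' hh), by
      group⟩
  · have hI := selfAdj_inf hL' hH'
    refine isCompact_orth.of_isClosed_subset ?_ (fun g hg => ?_)
    · have h1 := hI.closed
      rwa [Subgroup.coe_inf] at h1
    · obtain ⟨X, hX, he⟩ := hI.polar g (Subgroup.mem_inf.2 hg)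
      have hX' := mem_pp_inf.1 hX
      have h1 := (hc 1 G.one_mem orth_one).1 X ((hppH X).1 hX'.2) X ((hppL X).1 hX'.1)
        (cA_one X).symm
      intro i
      rw [he i, h1, Pi.zero_apply, exp_zero]

/-- conjugation of the second factor -/
theorem fct_cj (hf : Fct G L H) {b : (Alg N)ˣ} (hb : b ∈ G) : Fct G L (cj b H) := by
  obtain ⟨h1, h2⟩ := hf
  obtain ⟨l₀, hl₀, h₀, hh₀, rfl⟩ := h1 b hb
  have hcj : cj (l₀ * h₀) H = cj l₀ H := by
    ext g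
    rw [mem_cj, mem_cj]
    have e : (l₀ * h₀)⁻¹ * g * (l₀ * h₀) = h₀⁻¹ * (l₀⁻¹ * g * l₀) * h₀ := by group
    rw [e]
    constructor
    · intro h
      have h3 := H.mul_mem (H.mul_mem hh₀ h) (H.inv_mem hh₀)
      have e2 : h₀ * (h₀⁻¹ * (l₀⁻¹ * g * l₀) * h₀) * h₀⁻¹ = l₀⁻¹ * g * l₀ := by group
      rwa [e2] at h3
    · intro h
      exact H.mul_mem (H.mul_mem (H.inv_mem hh₀) h) hh₀
  rw [hcj]
  refine ⟨fun g hg => ?_, ?_⟩
  · obtain ⟨l, hl, h, hh, e⟩ := h1 (g * (l₀ * h₀)) (G.mul_mem hg hb)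
    refine ⟨l * l₀⁻¹, L.mul_mem hl (L.inv_mem hl₀), l₀ * (h * h₀⁻¹) * l₀⁻¹, ?_, ?_⟩
    · rw [mem_cj]
      have e2 : l₀⁻¹ * (l₀ * (h * h₀⁻¹) * l₀⁻¹) * l₀ = h * h₀⁻¹ := by group
      rw [e2]
      exact H.mul_mem hh (H.inv_mem hh₀)
    · have e3 : g = g * (l₀ * h₀) * h₀⁻¹ * l₀⁻¹ := by group
      rw [e3, e]
      group
  · have e : (L : Set (Alg N)ˣ) ∩ (cj l₀ H : Set (Alg N)ˣ) =
        (fun g => l₀ * g * l₀⁻¹) '' ((L : Set (Alg N)ˣ) ∩ (H : Set (Alg N)ˣ)) := by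
      ext g
      constructor
      · rintro ⟨h3, h4⟩
        refine ⟨l₀⁻¹ * g * l₀, ⟨L.mul_mem (L.mul_mem (L.inv_mem hl₀) h3) hl₀, h4⟩, ?_⟩
        show l₀ * (l₀⁻¹ * g * l₀) * l₀⁻¹ = g
        group
      · rintro ⟨g, ⟨h3, h4⟩, rfl⟩
        refine ⟨L.mul_mem (L.mul_mem hl₀ h3) (L.inv_mem hl₀), ?_⟩
        show l₀⁻¹ * (l₀ * g * l₀⁻¹) * l₀ ∈ H
        have e2 : l₀⁻¹ * (l₀ * g * l₀⁻¹) * l₀ = g := by group
        rw [e2]
        exact h4
    rw [e]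
    exact h2.image (by fun_prop)

theorem cocptIn_cj {H' : Subgroup (Alg N)ˣ} (h : CocptIn H H') (b : (Alg N)ˣ) :
    CocptIn (cj b H) (cj b H') := by
  obtain ⟨h1, C, hC, h2⟩ := h
  refine ⟨fun g hg => h1 hg, (fun c => b * c * b⁻¹) '' C, hC.image (by fun_prop), fun g hg => ?_⟩
  obtain ⟨c, hc, x, hx, e⟩ := h2 _ (mem_cj.1 hg)
  refine ⟨b * c * b⁻¹, ⟨c, hc, rfl⟩, b * x * b⁻¹, ?_, ?_⟩
  · rw [mem_cj]
    have e2 : b⁻¹ * (b * x * b⁻¹) * b = x := by group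
    rwa [e2]
  · have e3 : g = b * (b⁻¹ * g * b) * b⁻¹ := by group
    rw [e3, e]
    group

theorem red_cj {H' : Subgroup (Alg N)ˣ} (h : Red G H') {b : (Alg N)ˣ} (hb : b ∈ G) :
    Red G (cj b H') := by
  obtain ⟨h1, a, ha, h2⟩ := h
  refine ⟨cj_le' h1 hb, a * b⁻¹, G.mul_mem ha (G.inv_mem hb), ?_⟩
  rwa [cj_cj, mul_assoc, inv_mul_cancel, mul_one]

/-- Theorem T4 for all `G`: `G/H` has a compact standard quotient (in the form `Std G H`) iff some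
`L'`, reductive in the identity component `G₀`, acts transitively with compact isotropy groups on
`G₀/H'` for compact enlargements `H'` of all the groups `G₀ ∩ g H g⁻¹`, `g ∈ G` -/
theorem std_iff_gen (hG : SelfAdj G) (hH : Red G H) :
    Std G H ↔ ∃ L' : Subgroup (Alg N)ˣ, Red (G0 G) L' ∧ ∀ g ∈ G, ∃ H' : Subgroup (Alg N)ˣ,
      Red (G0 G) H' ∧ CocptIn (G0 G ⊓ cj g H) H' ∧ Fct (G0 G) L' H' := by
  obtain ⟨hHG, a, ha, hSH⟩ := id hH
  have hG0 := G0_selfAdj hG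
  have hK0 := G0_kconn hG
  rw [std_iff hG hHG ha hSH]
  have hpj : ∀ k : (Alg N)ˣ, k ∈ G → Orth k → ∀ X,
      X ∈ pp (G0 G ⊓ cj k (cj a H)) ↔ cA k⁻¹ X ∈ pp (cj a H) := by
    intro k hk ho X
    rw [mem_pp_inf, mem_pp_cj ho]
    refine ⟨fun h => h.2, fun h => ⟨?_, h⟩⟩
    have h1 := pp_cA hk ho (pp_mono (cj_le' hHG ha) h)
    rw [cA_cA_inv] at h1
    exact (pp_G0 X).2 h1
  constructor
  · rintro ⟨L, hLG, hL, hc⟩
    have hL1 : SelfAdj (G0 G ⊓ L) := selfAdj_inf hG0 hL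
    have hpL : ∀ X, X ∈ pp (G0 G ⊓ L) ↔ X ∈ pp L := fun X => by
      rw [mem_pp_inf]
      exact ⟨fun h => h.2, fun h => ⟨(pp_G0 X).2 (pp_mono hLG h), h⟩⟩
    obtain ⟨L', hL'G, hL', hLL', hNL, hppL, -⟩ := gvx hG0 hL1 inf_le_left
    refine ⟨L', ⟨hL'G, 1, (G0 G).one_mem, by rwa [cj_one]⟩, fun g hg => ?_⟩
    obtain ⟨X, hX, k, hk, ho, e⟩ := polar_left hG (G.mul_mem hg (G.inv_mem ha))
    have hX0 : eu X ∈ G0 G := eu_mem ((pp_G0 X).2 hX)
    have hH1 : SelfAdj (G0 G ⊓ cj k (cj a H)) := selfAdj_inf hG0 (selfAdj_cj ho hSH)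
    have hc1 : Cpl (G0 G) (G0 G ⊓ cj k (cj a H)) (G0 G ⊓ L) := by
      intro k₁ hk₁ ho₁
      obtain ⟨h1, h2⟩ := hc (k⁻¹ * k₁) (G.mul_mem (G.inv_mem hk) (G0_le hk₁))
        (orth_mul (orth_inv ho) ho₁)
      refine ⟨fun x hx y hy hxy => ?_, fun z hz => ?_⟩
      · have h3 := h1 _ ((hpj k hk ho x).1 hx) y ((hpL y).1 hy) (by rw [hxy, cA_mul])
        rw [← cA_cA_inv k x, h3, cA_zero]
      · have hz' := pp_cA (G.inv_mem hk) (orth_inv ho) ((pp_G0 z).1 hz)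
        obtain ⟨x, hx, y, hy, hxy⟩ := h2 _ hz'
        refine ⟨cA k x, (hpj k hk ho _).2 (by rwa [cA_inv_cA]), y, (hpL y).2 hy, ?_⟩
        rw [← cA_cA_inv k z, hxy, cA_add, cA_mul, cA_cA_inv]
    obtain ⟨H', hH'G, hH', -, hi, hf⟩ := fct_aux hG0 hK0 hH1 hL1 inf_le_left inf_le_left hc1 hL'
      hLL' hNL hppL
    have hR' : Red (G0 G) H' := ⟨hH'G, 1, (G0 G).one_mem, by rwa [cj_one]⟩
    refine ⟨cj (eu X) H', red_cj hR' hX0, ?_, fct_cj hf hX0⟩
    have h3 := cocptIn_cj hi (eu X)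
    have h4 : cj (eu X) (G0 G ⊓ cj k (cj a H)) = G0 G ⊓ cj g H := by
      have eg : g = eu X * k * a := by rw [← e]; group
      ext u
      rw [mem_cj, Subgroup.mem_inf, Subgroup.mem_inf]
      refine and_congr ⟨fun h => ?_, fun h => ?_⟩ ?_
      · have h5 := (G0 G).mul_mem ((G0 G).mul_mem hX0 h) ((G0 G).inv_mem hX0)
        have e2 : eu X * ((eu X)⁻¹ * u * eu X) * (eu X)⁻¹ = u := by group
        rwa [e2] at h5
      · exact (G0 G).mul_mem ((G0 G).mul_mem ((G0 G).inv_mem hX0) h) hX0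
      · rw [eg, ← mem_cj, cj_cj, cj_cj, mul_assoc]
    rwa [h4] at h3
  · rintro ⟨L', hL', h⟩
    obtain ⟨hL'G, b, hb, hSL⟩ := id hL'
    refine ⟨cj b L', cj_le' (hL'G.trans G0_le) (G0_le hb), hSL, fun k hk ho => ?_⟩
    obtain ⟨H', hH', hi, hf⟩ := h (k⁻¹ * a) (G.mul_mem (G.inv_mem hk) ha)
    have hH1 : SelfAdj (G0 G ⊓ cj k⁻¹ (cj a H)) :=
      selfAdj_inf hG0 (selfAdj_cj (orth_inv ho) hSH)
    rw [← cj_cj] at hi
    obtain ⟨h1, h2⟩ := std_of_fct hG0 (H := G0 G ⊓ cj k⁻¹ (cj a H))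
      ⟨inf_le_left, 1, (G0 G).one_mem, by rwa [cj_one]⟩ hH' hL' hi hf
    have h3 : ProperAct (G0 G) (cj 1 (G0 G ⊓ cj k⁻¹ (cj a H))) (cj b L') :=
      (properAct_cj (G0 G).one_mem hb).2 h1
    have h4 : Cocompact (G0 G) (cj 1 (G0 G ⊓ cj k⁻¹ (cj a H))) (cj b L') :=
      (cocompact_cj (G0 G).one_mem hb).2 h2
    rw [cj_one] at h3 h4
    obtain ⟨h5, h6⟩ := (ky hG0 hH1 hSL inf_le_left (cj_le' hL'G hb)).1 ⟨h3, h4⟩ 1
      (G0 G).one_mem orth_one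
    have hpk := hpj k⁻¹ (G.inv_mem hk) (orth_inv ho)
    rw [inv_inv] at hpk
    refine ⟨fun x hx y hy hxy => ?_, fun z hz => ?_⟩
    · have h7 := h5 (cA k⁻¹ x) ((hpk _).2 (by rwa [cA_cA_inv])) y hy (by
        rw [hxy, cA_inv_cA, cA_one])
      rw [← cA_cA_inv k x, h7, cA_zero]
    · have hz' := pp_cA (G.inv_mem hk) (orth_inv ho) hz
      obtain ⟨x, hx, y, hy, hxy⟩ := h6 _ ((pp_G0 _).2 hz')
      rw [cA_one] at hxy
      exact ⟨cA k x, (hpk x).1 hx, y, hy, by rw [← cA_cA_inv k z, hxy, cA_add]⟩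

end Pool.Agent.MP_417c68_gt
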