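import Pool.Agent.Lib.MP_417c68_gt_T.Kp

/-!
# MP_417c68_gt, project T, module Ent: entire functions

PROOFS (text, (A1) and (A3)).  The entries of `z ↦ exp (z • X)` are entire, bounded by
`exp (‖z‖ ‖X‖)` in a normed algebra structure on `Matrix κ κ ℂ` (`open scoped
Matrix.Norms.Operator`,
`NormedSpace.norm_exp_le`, entries are bounded by the norm; `hasDerivAt_exp_smul_const`), so all
entries
`f` of `Q * kp d (M * exp (z • X)) * P` are entire with `‖f z‖ ≤ A exp (B ‖z‖)`.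
* `ent_const`: `PhragmenLindelof.quadrant_I`, `II`, `III`, `IV` (growth exponent `1 < 2`) give
  `‖f z‖ ≤ C` for all `z`; Liouville: `Differentiable.apply_eq_apply_of_bounded` (compare with `z =
    0`).
* `ent_right`, `ent_left`: both sides are entire in `z` and agree on the real axis: identity
  theorem
  (`AnalyticOnNhd.eq_of_frequently_eq` or `Complex.analyticOnNhd_univ_iff_differentiable` and
  `AnalyticOnNhd.eqOn_of_preconnected_of_frequently_eq`).
-/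

noncomputable section

namespace Pool.Agent.MP_417c68_gt

open Matrix NormedSpace

variable {κ : Type} [Fintype κ] [DecidableEq κ]

/-! ### entire functions of exponential type -/

section growth

open Filter Topology Asymptotics

private def Gr (f : ℂ → ℂ) : Prop :=
  Differentiable ℂ f ∧ ∃ A B : ℝ, 0 ≤ A ∧ 0 ≤ B ∧ ∀ z, ‖f z‖ ≤ A * Real.exp (B * ‖z‖)

private theorem gr_const (c : ℂ) : Gr fun _ => c :=
  ⟨differentiable_const c, ‖c‖, 0, norm_nonneg _, le_rfl, fun z => by simp⟩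

private theorem gr_add {f g : ℂ → ℂ} (hf : Gr f) (hg : Gr g) : Gr fun z => f z + g z := by
  obtain ⟨hf1, A, B, hA, hB, hf2⟩ := hf
  obtain ⟨hg1, A', B', hA', hB', hg2⟩ := hg
  refine ⟨hf1.add hg1, A + A', B + B', by positivity, by positivity, fun z => ?_⟩
  have h1 : Real.exp (B * ‖z‖) ≤ Real.exp ((B + B') * ‖z‖) :=
    Real.exp_le_exp.2 (mul_le_mul_of_nonneg_right (by linarith) (norm_nonneg _))
  have h2 : Real.exp (B' * ‖z‖) ≤ Real.exp ((B + B') * ‖z‖) :=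
    Real.exp_le_exp.2 (mul_le_mul_of_nonneg_right (by linarith) (norm_nonneg _))
  calc ‖f z + g z‖ ≤ ‖f z‖ + ‖g z‖ := norm_add_le _ _
    _ ≤ A * Real.exp (B * ‖z‖) + A' * Real.exp (B' * ‖z‖) := add_le_add (hf2 z) (hg2 z)
    _ ≤ A * Real.exp ((B + B') * ‖z‖) + A' * Real.exp ((B + B') * ‖z‖) :=
        add_le_add (mul_le_mul_of_nonneg_left h1 hA) (mul_le_mul_of_nonneg_left h2 hA')
    _ = (A + A') * Real.exp ((B + B') * ‖z‖) := by ring

private theorem gr_mul {f g : ℂ → ℂ} (hf : Gr f) (hg : Gr g) : Gr fun z => f z * g z := by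
  obtain ⟨hf1, A, B, hA, hB, hf2⟩ := hf
  obtain ⟨hg1, A', B', hA', hB', hg2⟩ := hg
  refine ⟨hf1.mul hg1, A * A', B + B', by positivity, by positivity, fun z => ?_⟩
  calc ‖f z * g z‖ = ‖f z‖ * ‖g z‖ := norm_mul _ _
    _ ≤ (A * Real.exp (B * ‖z‖)) * (A' * Real.exp (B' * ‖z‖)) :=
        mul_le_mul (hf2 z) (hg2 z) (norm_nonneg _) (by positivity)
    _ = A * A' * Real.exp ((B + B') * ‖z‖) := by
        rw [add_mul, Real.exp_add]
        ring

private theorem gr_sum {ι : Type} [DecidableEq ι] (s : Finset ι) {f : ι → ℂ → ℂ}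
    (hf : ∀ i, Gr (f i)) : Gr fun z => ∑ i ∈ s, f i z := by
  induction s using Finset.induction_on with
  | empty => simpa using gr_const 0
  | insert i s hi ih =>
    have : (fun z => ∑ j ∈ insert i s, f j z) = fun z => f i z + ∑ j ∈ s, f j z := by
      funext z
      rw [Finset.sum_insert hi]
    rw [this]
    exact gr_add (hf i) ih

private theorem gr_prod {ι : Type} [DecidableEq ι] (s : Finset ι) {f : ι → ℂ → ℂ}
    (hf : ∀ i, Gr (f i)) : Gr fun z => ∏ i ∈ s, f i z := by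
  induction s using Finset.induction_on with
  | empty => simpa using gr_const 1
  | insert i s hi ih =>
    have : (fun z => ∏ j ∈ insert i s, f j z) = fun z => f i z * ∏ j ∈ s, f j z := by
      funext z
      rw [Finset.prod_insert hi]
    rw [this]
    exact gr_mul (hf i) ih

/-- Phragmen-Lindeloef and Liouville -/
private theorem gr_bdd {f : ℂ → ℂ} (hf : Gr f) {C : ℝ} (h1 : ∀ s : ℝ, ‖f s‖ ≤ C)
    (h2 : ∀ s : ℝ, ‖f (s * Complex.I)‖ ≤ C) (z : ℂ) : f z = f 0 := by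
  obtain ⟨hf1, A, B, hA, hB, hf2⟩ := hf
  have hO : ∀ l : Filter ℂ, ∃ c < (2 : ℝ), ∃ B, f =O[l] fun z => Real.exp (B * ‖z‖ ^ c) := by
    intro l
    refine ⟨1, by norm_num, B, IsBigO.of_bound A (Eventually.of_forall fun z => ?_)⟩
    rw [Real.rpow_one, Real.norm_eq_abs, abs_of_pos (Real.exp_pos _)]
    exact hf2 z
  have hb : ∀ z, ‖f z‖ ≤ C := by
    intro z
    rcases le_total 0 z.re with h3 | h3 <;> rcases le_total 0 z.im with h4 | h4
    · exact PhragmenLindelof.quadrant_I hf1.diffContOnCl (hO _) (fun x _ => h1 x)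
        (fun x _ => h2 x) h3 h4
    · exact PhragmenLindelof.quadrant_IV hf1.diffContOnCl (hO _) (fun x _ => h1 x)
        (fun x _ => h2 x) h3 h4
    · exact PhragmenLindelof.quadrant_II hf1.diffContOnCl (hO _) (fun x _ => h1 x)
        (fun x _ => h2 x) h3 h4
    · exact PhragmenLindelof.quadrant_III hf1.diffContOnCl (hO _) (fun x _ => h1 x)
        (fun x _ => h2 x) h3 h4
  refine hf1.apply_eq_apply_of_bounded ?_ z 0
  rw [isBounded_iff_forall_norm_le]
  exact ⟨C, by rintro _ ⟨w, rfl⟩; exact hb w⟩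

/-- identity theorem -/
private theorem gr_id {f : ℂ → ℂ} (hf : Gr f) {c : ℂ} (h : ∀ s : ℝ, f s = c) (z : ℂ) :
    f z = c := by
  have h1 : AnalyticOnNhd ℂ f Set.univ :=
    Complex.analyticOnNhd_univ_iff_differentiable.2 hf.1
  have h2 : AnalyticOnNhd ℂ (fun _ : ℂ => c) Set.univ := analyticOnNhd_const
  have h3 : Tendsto (fun n : ℕ => (((1 : ℝ) / ((n : ℝ) + 1) : ℝ) : ℂ)) atTop (𝓝[≠] 0) := by
    refine tendsto_nhdsWithin_of_tendsto_nhds_of_eventually_within _ ?_ ?_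
    · have h4 : Tendsto (fun n : ℕ => (((1 : ℝ) / ((n : ℝ) + 1) : ℝ) : ℂ)) atTop
          (𝓝 ((0 : ℝ) : ℂ)) :=
        (Complex.continuous_ofReal.tendsto 0).comp tendsto_one_div_add_atTop_nhds_zero_nat
      rwa [Complex.ofReal_zero] at h4
    · refine Eventually.of_forall fun n => ?_
      rw [Set.mem_compl_singleton_iff, Complex.ofReal_ne_zero]
      positivity
  have h5 : ∃ᶠ w in 𝓝[≠] (0 : ℂ), f w = c :=
    h3.frequently (Frequently.of_forall fun n => h _)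
  exact congrFun (h1.eq_of_frequently_eq h2 h5) z

private theorem ent_norm_exp_le {𝔸 : Type*} [NormedRing 𝔸] [NormedAlgebra ℂ 𝔸] [CompleteSpace 𝔸]
    [NormOneClass 𝔸] (x : 𝔸) : ‖exp x‖ ≤ Real.exp ‖x‖ := by
  have h : Summable (fun n : ℕ => ‖((n.factorial : ℂ)⁻¹) • x ^ n‖) :=
    norm_expSeries_summable' (𝕂 := ℂ) x
  have h2 : Summable (fun n : ℕ => ((n.factorial : ℝ)⁻¹) • ‖x‖ ^ n) :=
    expSeries_summable' (𝕂 := ℝ) (‖x‖ : ℝ)
  rw [exp_eq_tsum ℂ, Real.exp_eq_exp_ℝ, exp_eq_tsum ℝ]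
  refine (norm_tsum_le_tsum_norm h).trans (Summable.tsum_le_tsum (fun n => ?_) h h2)
  rw [norm_smul, smul_eq_mul]
  refine mul_le_mul ?_ (norm_pow_le x n) (norm_nonneg _) (by positivity)
  rw [norm_inv, Complex.norm_natCast]

private theorem gr_exp_aux {𝔸 : Type*} [NormedRing 𝔸] [NormedAlgebra ℂ 𝔸]
    [FiniteDimensional ℂ 𝔸] [CompleteSpace 𝔸] [NormOneClass 𝔸] (X : 𝔸) (ψ : 𝔸 →ₗ[ℂ] ℂ) :
    Gr fun z : ℂ => ψ (exp (z • X)) := by
  let φ : 𝔸 →L[ℂ] ℂ := LinearMap.toContinuousLinearMap ψ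
  have hφ : ∀ Y, φ Y = ψ Y := fun Y => rfl
  refine ⟨?_, ‖φ‖, ‖X‖, norm_nonneg _, norm_nonneg _, fun z => ?_⟩
  · intro z
    have h1 : HasDerivAt (fun u : ℂ => exp (u • X)) (exp (z • X) * X) z :=
      hasDerivAt_exp_smul_const X z
    exact (φ.hasFDerivAt.comp_hasDerivAt z h1).differentiableAt
  · have h1 : ‖exp (z • X)‖ ≤ Real.exp (‖X‖ * ‖z‖) := by
      refine (ent_norm_exp_le _).trans (Real.exp_le_exp.2 ?_)
      rw [norm_smul, mul_comm]
    calc ‖ψ (exp (z • X))‖ = ‖φ (exp (z • X))‖ := rfl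
      _ ≤ ‖φ‖ * ‖exp (z • X)‖ := φ.le_opNorm _
      _ ≤ ‖φ‖ * Real.exp (‖X‖ * ‖z‖) := mul_le_mul_of_nonneg_left h1 (norm_nonneg _)

end growth

private theorem gr_exp (X : Matrix κ κ ℂ) (i j : κ) : Gr fun z : ℂ => exp (z • X) i j := by
  let _ : NormedRing (Matrix κ κ ℂ) := Matrix.linftyOpNormedRing
  let _ : NormedAlgebra ℂ (Matrix κ κ ℂ) := Matrix.linftyOpNormedAlgebra
  have _ : Nonempty κ := ⟨i⟩
  have _ : NormOneClass (Matrix κ κ ℂ) := Matrix.linfty_opNormOneClass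
  exact gr_exp_aux (𝔸 := Matrix κ κ ℂ) X (Matrix.entryLinearMap ℂ ℂ i j)

private theorem gr_kp (d : ℕ) (X M : Matrix κ κ ℂ) (a b : Fin d → κ) :
    Gr fun z : ℂ => kp d (M * exp (z • X)) a b := by
  classical
  unfold kp
  refine gr_prod _ fun r => ?_
  simp only [Matrix.mul_apply]
  exact gr_sum _ fun k => gr_mul (gr_const _) (gr_exp X _ _)

private theorem gr_main {d : ℕ} (X M : Matrix κ κ ℂ) (Q P : Matrix (Fin d → κ) (Fin d → κ) ℂ)
    (a b : Fin d → κ) : Gr fun z : ℂ => (Q * kp d (M * exp (z • X)) * P) a b := by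
  classical
  simp only [Matrix.mul_apply (M := Q * kp d _), Matrix.mul_apply (M := Q)]
  exact gr_sum _ fun k => gr_mul (gr_sum _ fun l => gr_mul (gr_const _) (gr_kp d X M _ _))
    (gr_const _)

theorem ent_const {d : ℕ} {X M : Matrix κ κ ℂ} {Q P : Matrix (Fin d → κ) (Fin d → κ) ℂ} {C : ℝ}
    (h1 : ∀ (s : ℝ) a b, ‖(Q * kp d (M * exp ((s : ℂ) • X)) * P) a b‖ ≤ C)
    (h2 : ∀ (s : ℝ) a b, ‖(Q * kp d (M * exp (((s : ℂ) * Complex.I) • X)) * P) a b‖ ≤ C)
    (z : ℂ) : Q * kp d (M * exp (z • X)) * P = Q * kp d M * P := by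
  ext a b
  refine (gr_bdd (gr_main X M Q P a b) (C := C) (fun s => h1 s a b)
    (fun s => h2 s a b) z).trans ?_
  show (Q * kp d (M * exp ((0 : ℂ) • X)) * P) a b = _
  rw [zero_smul, exp_zero, mul_one]

theorem ent_right {d : ℕ} {X : Matrix κ κ ℂ} {P : Matrix (Fin d → κ) (Fin d → κ) ℂ}
    (h : ∀ s : ℝ, kp d (exp ((s : ℂ) • X)) * P = P) (z : ℂ) : kp d (exp (z • X)) * P = P := by
  ext a b
  have h3 : ((1 : Matrix (Fin d → κ) (Fin d → κ) ℂ) *
      kp d ((1 : Matrix κ κ ℂ) * exp (z • X)) * P) a b = P a b :=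
    gr_id (gr_main X 1 1 P a b) (c := P a b) (fun s => by
      rw [one_mul, one_mul, h s]) z
  rwa [one_mul, one_mul] at h3

theorem ent_left {d : ℕ} {X : Matrix κ κ ℂ} {Q : Matrix (Fin d → κ) (Fin d → κ) ℂ}
    (h : ∀ s : ℝ, Q * kp d (exp ((s : ℂ) • X)) = Q) (z : ℂ) : Q * kp d (exp (z • X)) = Q := by
  ext a b
  have h3 : (Q * kp d ((1 : Matrix κ κ ℂ) * exp (z • X)) *
      (1 : Matrix (Fin d → κ) (Fin d → κ) ℂ)) a b = Q a b :=
    gr_id (gr_main X 1 Q 1 a b) (c := Q a b) (fun s => by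
      rw [one_mul, mul_one, h s]) z
  rwa [one_mul, mul_one] at h3

end Pool.Agent.MP_417c68_gt
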