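import Pool.Agent.Lib.MP_417c68_gt_T.GrpT

/-!
# MP_417c68_gt, project T, module Ext: the extended groups and `G = L K H`

PROOFS.
* `gvx`: `gv'` in `MP_417c68_gt_P/I/Gv.lean` (to be added there by the owner of this row: the same
  group
  `gvA`, with the additional information that it contains every orthogonal `k ∈ G` with `cA k`,
  `cA k⁻¹`
  preserving `V`, and that its elements are `k * eu X`, `X ∈ V`), for `V = pS H` (`trp_pS`).  `H ≤
  A`:
  `h = k * eu X` (`polar_right`), `k ∈ H` orthogonal preserves `pp H` (`pp_cA`).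
* `lkh`: the proof of `cocompact_of_sum` in `MP_417c68_gt_D/Cocpt2.lean` shows exactly this (the
  compact set is
  the set of orthogonal elements of `G`): change that file so that `cocompact_of_sum` is deduced
  from a
  new theorem `lkh_of_sum` (same hypotheses, conclusion
  `∀ g ∈ G, ∃ l ∈ L, ∃ k ∈ G, Orth k ∧ ∃ h ∈ H, g = l * k * h`).  Do not change the statement of
  `cocompact_of_sum`.
-/

noncomputable section

namespace Pool.Agent.MP_417c68_gt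

open Matrix NormedSpace

variable {n : ℕ} {N : Fin n → ℕ} {G H L : Subgroup (Alg N)ˣ}

theorem gvx (hG : SelfAdj G) (hH : SelfAdj H) (hHG : H ≤ G) :
    ∃ A : Subgroup (Alg N)ˣ, A ≤ G ∧ SelfAdj A ∧ H ≤ A ∧ NK G H ≤ A ∧
      (∀ X, X ∈ pp A ↔ X ∈ pp H) ∧ ∀ g ∈ A, ∃ k ∈ NK G H, ∃ h ∈ H, g = k * h := by
  have hmp : ∀ X, X ∈ pS H ↔ X ∈ pp H := fun X => mem_pS hH.closed
  obtain ⟨A, hAG, hA, hpp, hin, hdec⟩ := gv' hG (V := pS H)
    (fun X hX => pp_mono hHG ((hmp X).1 hX)) (trp_pS hH)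
  have hNA : NK G H ≤ A := fun k hk => hin k hk.1 hk.2.1
    (fun X hX => (hmp _).2 (hk.2.2.1 X ((hmp X).1 hX)))
    (fun X hX => (hmp _).2 (hk.2.2.2 X ((hmp X).1 hX)))
  refine ⟨A, hAG, hA, fun h hh => ?_, hNA, fun X => (hpp X).trans (hmp X), fun g hg => ?_⟩
  · obtain ⟨Z, hZ, k, hk, hok, e⟩ := polar_right hH hh
    rw [e]
    refine A.mul_mem (hNA ⟨hHG hk, hok, fun x hx => pp_cA hk hok hx, fun x hx =>
      pp_cA (H.inv_mem hk) (orth_inv hok) hx⟩) (eu_mem ((hpp Z).2 ((hmp Z).2 hZ)))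
  · obtain ⟨k, hk, ho, h1, h2, X, hX, rfl⟩ := hdec g hg
    exact ⟨k, ⟨hk, ho, fun x hx => (hmp _).1 (h1 x ((hmp x).2 hx)), fun x hx =>
      (hmp _).1 (h2 x ((hmp x).2 hx))⟩, eu X, eu_mem ((hmp X).1 hX), rfl⟩

theorem lkh (hG : SelfAdj G) (hH : SelfAdj H) (hL : SelfAdj L) (hHG : H ≤ G) (hLG : L ≤ G)
    (hc : Cpl G H L) {g : (Alg N)ˣ} (hg : g ∈ G) :
    ∃ l ∈ L, ∃ k ∈ G, Orth k ∧ ∃ h ∈ H, g = l * k * h := by
  obtain ⟨l, hl, k, ⟨hk, ho⟩, h, hh, e⟩ := lkh_of_sum hG hH hL hHG hLG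
    (proper_of_disj hG hH hL hHG hLG fun k hk ho => (hc k hk ho).1)
    (fun k hk ho => (hc k hk ho).2) g hg
  exact ⟨l, hl, k, hk, ho, h, hh, e⟩

end Pool.Agent.MP_417c68_gt
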