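import Pool.Agent.Lib.MP_417c68_gt_T.Ext

/-!
# MP_417c68_gt, project T, module Fin: Theorems T3 and T4

Text: `/team-store/TEXT_417c68_T.md`, section 6.
-/

noncomputable section

namespace Pool.Agent.MP_417c68_gt

open Matrix NormedSpace

variable {n : ℕ} {N : Fin n → ℕ} {G H L : Subgroup (Alg N)ˣ}

/-- `𝔭(G) = 𝔭(H) ⊕ 𝔭(L)` -/
def DirSum (G H L : Subgroup (Alg N)ˣ) : Prop :=
  (∀ x ∈ pp H, x ∈ pp L → x = 0) ∧ ∀ z ∈ pp G, ∃ x ∈ pp H, ∃ y ∈ pp L, z = x + y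

theorem cpl_of_nk (hDS : DirSum G H L)
    (h : ∀ k ∈ G, Orth k → ∃ l ∈ NK G L, ∃ b ∈ NK G H, k = l * b) : Cpl G H L := by
  intro k hk ho
  obtain ⟨l, hl, b, hb, e⟩ := h k⁻¹ (G.inv_mem hk) (orth_inv ho)
  have e' : k = b⁻¹ * l⁻¹ := by rw [← _root_.mul_inv_rev, ← e, inv_inv]
  refine ⟨fun x hx y hy hxy => ?_, fun z hz => ?_⟩
  · have h1 : cA b x = cA l⁻¹ y := by rw [hxy, e', cA_mul, cA_cA_inv]
    have h2 : cA b x ∈ pp H := hb.2.2.1 x hx
    have h3 : cA b x ∈ pp L := by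
      rw [h1]
      exact hl.2.2.2 y hy
    have h4 := hDS.1 _ h2 h3
    rw [← cA_inv_cA b x, h4, cA_zero]
  · obtain ⟨x, hx, y, hy, hxy⟩ := hDS.2 (cA b z) (pp_cA hb.1 hb.2.1 hz)
    refine ⟨cA b⁻¹ x, hb.2.2.2 x hx, cA l y, hl.2.2.1 y hy, ?_⟩
    rw [e', cA_mul, cA_inv_cA, ← cA_add, ← hxy, cA_inv_cA]

/-- Theorem T3 -/
theorem alg_crit (hG : SelfAdj G) (hK : Kconn G) (hH : SelfAdj H) (hL : SelfAdj L) (hHG : H ≤ G)
    (hLG : L ≤ G) : ProperAct G H L ∧ Cocompact G H L ↔ DirSum G H L ∧ SumN G H L := by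
  constructor
  · rintro ⟨hP, hC⟩
    have hc := (ky hG hH hL hHG hLG).1 ⟨hP, hC⟩
    have h1 := hc 1 G.one_mem orth_one
    refine ⟨⟨fun x hx hx' => h1.1 x hx x hx' (cA_one x).symm, fun z hz => ?_⟩,
      sumN_of_cocompact hG hH hL hHG hLG hC⟩
    obtain ⟨x, hx, y, hy, e⟩ := h1.2 z hz
    exact ⟨x, hx, y, hy, by rw [e, cA_one]⟩
  · rintro ⟨hD, hS⟩
    exact (ky hG hH hL hHG hLG).2 (cpl_of_nk hD fun k hk ho =>
      nk_mul hG hK hH hL hHG hLG hS hk ho)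

/-- `H` is cocompact in `H'` -/
def CocptIn (H H' : Subgroup (Alg N)ˣ) : Prop :=
  H ≤ H' ∧ ∃ C : Set (Alg N)ˣ, IsCompact C ∧ ∀ g ∈ H', ∃ c ∈ C, ∃ h ∈ H, g = c * h

/-- `G = L H` with compact intersection: `L` acts transitively on `G/H` with compact isotropy
groups -/
def Fct (G L H : Subgroup (Alg N)ˣ) : Prop :=
  (∀ g ∈ G, ∃ l ∈ L, ∃ h ∈ H, g = l * h) ∧ IsCompact ((L : Set (Alg N)ˣ) ∩ (H : Set (Alg N)ˣ))

/-- a symmetric element with bounded one-parameter group is zero -/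
private theorem fin_bdd {x : Alg N} (hx : ∀ i, (x i)ᵀ = x i) {C : Set (Alg N)ˣ}
    (hC : IsCompact C) (h : ∀ t : ℝ, eu (t • x) ∈ C) : x = 0 := by
  obtain ⟨R, hR⟩ := exists_KR hC
  have hb : ∀ t : ℝ, t ^ 2 * ip x x ≤ (n : ℝ) * (2 * R) := by
    intro t
    have key : ∀ i, t ^ 2 * (x i * x i).trace ≤ 2 * R := by
      intro i
      obtain ⟨h1, h2⟩ := hR (h t)  i
      have e1 : fr ((eu (t • x)).1 i) = (exp ((2 : ℝ) • (t • x i))).trace := by
        show fr (exp (t • x i)) = _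
        have e : (exp (t • x i))ᵀ = exp (t • x i) := by
          rw [← Matrix.exp_transpose, Matrix.transpose_smul, hx i]
        rw [fr, e, ← Matrix.exp_add_of_commute _ _ (Commute.refl _), two_smul]
      have e2 : fr (((eu (t • x))⁻¹).1 i) = (exp (-((2 : ℝ) • (t • x i)))).trace := by
        rw [← eu_neg]
        show fr (exp (-(t • x i))) = _
        have e : (exp (-(t • x i)))ᵀ = exp (-(t • x i)) := by
          rw [← Matrix.exp_transpose, Matrix.transpose_neg, Matrix.transpose_smul, hx i]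
        rw [fr, e, ← Matrix.exp_add_of_commute _ _ (Commute.refl _), two_smul, neg_add]
      rw [e1] at h1
      rw [e2] at h2
      have h5 : ((2 : ℝ) • (t • x i))ᵀ = (2 : ℝ) • (t • x i) := by
        rw [Matrix.transpose_smul, Matrix.transpose_smul, hx i]
      have h6 := sq_le_exp h5
      have h7 : (((2 : ℝ) • (t • x i)) * ((2 : ℝ) • (t • x i))).trace =
          4 * (t ^ 2 * (x i * x i).trace) := by
        rw [smul_smul, Matrix.smul_mul, Matrix.mul_smul, smul_smul, Matrix.trace_smul,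
          smul_eq_mul]
        ring
      rw [h7] at h6
      have h8 : 0 ≤ (x i * x i).trace := by
        have := fr_nonneg (x i)
        rwa [fr, hx i] at this
      nlinarith [mul_nonneg (sq_nonneg t) h8]
    unfold ip
    rw [Finset.mul_sum]
    refine (Finset.sum_le_sum fun i _ => key i).trans ?_
    rw [Finset.sum_const, Finset.card_univ, Fintype.card_fin, nsmul_eq_mul]
  have h0 : ip x x = 0 := by
    by_contra hne
    have hpos : 0 < ip x x := lt_of_le_of_ne (ip_nonneg hx) (Ne.symm hne)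
    obtain ⟨k, hk⟩ := exists_nat_gt ((n : ℝ) * (2 * R) / ip x x)
    have h1 := hb (k + 1)
    rw [div_lt_iff₀ hpos] at hk
    nlinarith [mul_nonneg (Nat.cast_nonneg (α := ℝ) k) hpos.le]
  exact ip_self_zero hx h0

theorem fct_of_cpl (hG : SelfAdj G) (hK : Kconn G) (hH : SelfAdj H) (hL : SelfAdj L)
    (hHG : H ≤ G) (hLG : L ≤ G) (hc : Cpl G H L) :
    ∃ H' L' : Subgroup (Alg N)ˣ, H' ≤ G ∧ L' ≤ G ∧ SelfAdj H' ∧ SelfAdj L' ∧
      (∀ X, X ∈ pp H' ↔ X ∈ pp H) ∧ (∀ X, X ∈ pp L' ↔ X ∈ pp L) ∧ L ≤ L' ∧ CocptIn H H' ∧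
      Fct G L' H' := by
  obtain ⟨H', hH'G, hH', hHH', hNH, hppH, hdH⟩ := gvx hG hH hHG
  obtain ⟨L', hL'G, hL', hLL', hNL, hppL, -⟩ := gvx hG hL hLG
  have hS := sumN_of_cocompact hG hH hL hHG hLG ((ky hG hH hL hHG hLG).2 hc).2
  refine ⟨H', L', hH'G, hL'G, hH', hL', hppH, hppL, hLL', ⟨hHH', NK G H, NK_compact hG hH,
    hdH⟩, fun g hg => ?_, ?_⟩
  · obtain ⟨l, hl, k, hk, ho, h, hh, rfl⟩ := lkh hG hH hL hHG hLG hc hg
    obtain ⟨l', hl', b, hb, rfl⟩ := nk_mul hG hK hH hL hHG hLG hS hk ho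
    exact ⟨l * l', L'.mul_mem (hLL' hl) (hNL hl'), b * h, H'.mul_mem (hNH hb) (hHH' hh), by
      group⟩
  · have hI := selfAdj_inf hL' hH'
    refine isCompact_orth.of_isClosed_subset ?_ (fun g hg => ?_)
    · have h1 := hI.closed
      rwa [Subgroup.coe_inf] at h1
    · obtain ⟨X, hX, he⟩ := hI.polar g (Subgroup.mem_inf.2 hg)
      have hX' := mem_pp_inf.1 hX
      have h1 := (hc 1 G.one_mem orth_one).1 X ((hppH X).1 hX'.2) X ((hppL X).1 hX'.1)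
        (cA_one X).symm
      intro i
      rw [he i, h1, Pi.zero_apply, exp_zero]

private theorem fin_eu_cA (k : (Alg N)ˣ) (t : ℝ) (x : Alg N) :
    eu (t • cA k x) = k * eu (t • x) * k⁻¹ := by
  rw [← cA_smul, eu_cA]

theorem std_of_fct (hG : SelfAdj G) (hH : Red G H) {H' L' : Subgroup (Alg N)ˣ}
    (hH' : Red G H') (hL' : Red G L') (hi : CocptIn H H') (hf : Fct G L' H') :
    ProperAct G H L' ∧ Cocompact G H L' := by
  obtain ⟨hH'G, a, ha, hSH⟩ := hH'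
  obtain ⟨hL'G, b, hb, hSL⟩ := hL'
  obtain ⟨hHH', C, hC, hCH⟩ := hi
  obtain ⟨hdec, hcpt⟩ := hf
  refine ⟨?_, (G : Set (Alg N)ˣ) ∩ C, hC.inter_left hG.closed, Set.inter_subset_left,
    fun g hg => ?_⟩
  · have hP : ProperAct G (cj a H') (cj b L') := by
      refine proper_of_disj hG hSH hSL (cj_le' hH'G ha) (cj_le' hL'G hb) ?_
      intro k hk ho x hx w hw hxw
      obtain ⟨l, hl, h, hh, e⟩ := hdec (b⁻¹ * k⁻¹ * a)
        (G.mul_mem (G.mul_mem (G.inv_mem hb) (G.inv_mem hk)) ha)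
      have ek : k = a * h⁻¹ * l⁻¹ * b⁻¹ := by
        have e1 : k⁻¹ = b * (l * h) * a⁻¹ := by rw [← e]; group
        have e2 : k = (b * (l * h) * a⁻¹)⁻¹ := by rw [← e1, inv_inv]
        rw [e2]
        group
      have hu : cA (h * a⁻¹) x = cA (l⁻¹ * b⁻¹) w := by
        rw [hxw, ← cA_mul]
        congr 1
        rw [ek]
        group
      refine fin_bdd hx.1 (C := (fun g => (h * a⁻¹)⁻¹ * g * (h * a⁻¹)) ''
        ((L' : Set (Alg N)ˣ) ∩ (H' : Set (Alg N)ˣ))) (hcpt.image (by fun_prop)) fun t => ?_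
      refine ⟨eu (t • cA (h * a⁻¹) x), ⟨?_, ?_⟩, ?_⟩
      · rw [hu, fin_eu_cA]
        have h1 : b⁻¹ * eu (t • w) * b ∈ L' := hw.2 t
        have h2 := L'.mul_mem (L'.mul_mem (L'.inv_mem hl) h1) hl
        have h3 : l⁻¹ * b⁻¹ * eu (t • w) * (l⁻¹ * b⁻¹)⁻¹ = l⁻¹ * (b⁻¹ * eu (t • w) * b) * l := by
          group
        rw [h3]
        exact h2
      · rw [fin_eu_cA]
        have h1 : a⁻¹ * eu (t • x) * a ∈ H' := hx.2 t
        have h2 := H'.mul_mem (H'.mul_mem hh h1) (H'.inv_mem hh)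
        have h3 : h * a⁻¹ * eu (t • x) * (h * a⁻¹)⁻¹ = h * (a⁻¹ * eu (t • x) * a) * h⁻¹ := by
          group
        rw [h3]
        exact h2
      · rw [fin_eu_cA]
        group
    have hP' := (properAct_cj ha hb).1 hP
    intro S hS hSG
    obtain ⟨K, hK, h1⟩ := hP' S hS hSG
    exact ⟨K, hK, fun l hl h hh => h1 l hl h (hHH' hh)⟩
  · obtain ⟨l, hl, h, hh, rfl⟩ := hdec g hg
    obtain ⟨c, hc, h', hh', rfl⟩ := hCH h hh
    refine ⟨l, hl, c, ⟨?_, hc⟩, h', hh', by group⟩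
    have h1 := G.mul_mem (hH'G hh) (G.inv_mem (hH'G (hHH' hh')))
    have h2 : c * h' * h'⁻¹ = c := by group
    rwa [h2] at h1

/-- Theorem T4 -/
theorem std_iff_fct (hG : SelfAdj G) (hK : Kconn G) (hH : Red G H) :
    Std G H ↔ ∃ H' L' : Subgroup (Alg N)ˣ, Red G H' ∧ Red G L' ∧ CocptIn H H' ∧
      Fct G L' H' := by
  constructor
  · intro hS
    obtain ⟨hHG, a, ha, hSH⟩ := id hH
    obtain ⟨L, hLG, hL, hc⟩ := (std_iff hG hHG ha hSH).1 hS
    obtain ⟨H', L', hH'G, hL'G, hH', hL', -, -, -, ⟨hi1, C, hC, hi2⟩, hf1, hf2⟩ :=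
      fct_of_cpl hG hK hSH hL (cj_le' hHG ha) hLG hc
    have hred : ∀ A : Subgroup (Alg N)ˣ, A ≤ G → SelfAdj A → Red G (cj a⁻¹ A) := fun A hA hSA =>
      ⟨cj_le' hA (G.inv_mem ha), a, ha, by rwa [cj_cj, mul_inv_cancel, cj_one]⟩
    have hmem : ∀ (A : Subgroup (Alg N)ˣ) (g : (Alg N)ˣ), g ∈ cj a⁻¹ A ↔ a * g * a⁻¹ ∈ A :=
      fun A g => by rw [mem_cj, inv_inv]
    refine ⟨cj a⁻¹ H', cj a⁻¹ L', hred H' hH'G hH', hred L' hL'G hL', ⟨fun h hh => ?_,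
      (fun g => a⁻¹ * g * a) '' C, hC.image (by fun_prop), fun g hg => ?_⟩, fun g hg => ?_, ?_⟩
    · rw [hmem]
      refine hi1 ?_
      rw [mem_cj]
      have : a⁻¹ * (a * h * a⁻¹) * a = h := by group
      rwa [this]
    · rw [hmem] at hg
      obtain ⟨c, hc, h, hh, e⟩ := hi2 _ hg
      refine ⟨a⁻¹ * c * a, ⟨c, hc, rfl⟩, a⁻¹ * h * a, hh, ?_⟩
      have : g = a⁻¹ * (a * g * a⁻¹) * a := by group
      rw [this, e]
      group
    · obtain ⟨l, hl, h, hh, e⟩ := hf1 (a * g * a⁻¹) (G.mul_mem (G.mul_mem ha hg) (G.inv_mem ha))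
      refine ⟨a⁻¹ * l * a, ?_, a⁻¹ * h * a, ?_, ?_⟩
      · rw [hmem]
        have : a * (a⁻¹ * l * a) * a⁻¹ = l := by group
        rwa [this]
      · rw [hmem]
        have : a * (a⁻¹ * h * a) * a⁻¹ = h := by group
        rwa [this]
      · have : g = a⁻¹ * (a * g * a⁻¹) * a := by group
        rw [this, e]
        group
    · have h1 : (cj a⁻¹ L' : Set (Alg N)ˣ) ∩ (cj a⁻¹ H' : Set (Alg N)ˣ) =
          (fun g => a⁻¹ * g * a) '' ((L' : Set (Alg N)ˣ) ∩ (H' : Set (Alg N)ˣ)) := by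
        ext g
        constructor
        · rintro ⟨h1, h2⟩
          refine ⟨a * g * a⁻¹, ⟨(hmem _ _).1 h1, (hmem _ _).1 h2⟩, ?_⟩
          show a⁻¹ * (a * g * a⁻¹) * a = g
          group
        · rintro ⟨g, ⟨h1, h2⟩, rfl⟩
          have h3 : a * (a⁻¹ * g * a) * a⁻¹ = g := by group
          exact ⟨(hmem _ _).2 (by rwa [h3]), (hmem _ _).2 (by rwa [h3])⟩
      rw [h1]
      exact hf2.image (by fun_prop)
  · rintro ⟨H', L', hH', hL', hi, hf⟩
    obtain ⟨h1, h2⟩ := std_of_fct hG hH hH' hL' hi hf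
    exact ⟨L', hL', h1, h2⟩

end Pool.Agent.MP_417c68_gt
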