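import Pool.Agent.Lib.MP_417c68_gt_P.I.Fix

/-!
# MP_417c68_gt, project T, module Nrm: the Frobenius norm on `Alg N`
-/

noncomputable section

namespace Pool.Agent.MP_417c68_gt

open Matrix NormedSpace

theorem nF_fr {d : ℕ} (A : Matrix (Fin d) (Fin d) ℝ) : fr A = ∑ j, ∑ k, A k j ^ 2 := by
  unfold fr
  rw [Matrix.trace]
  refine Finset.sum_congr rfl fun j _ => ?_
  rw [Matrix.diag_apply, Matrix.mul_apply]
  refine Finset.sum_congr rfl fun k _ => ?_
  rw [Matrix.transpose_apply]
  ring

private theorem nrm_entry {d : ℕ} (A : Matrix (Fin d) (Fin d) ℝ) (j k : Fin d) :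
    A j k ^ 2 ≤ fr A := by
  rw [nF_fr]
  have h1 : A j k ^ 2 ≤ ∑ k', A k' k ^ 2 :=
    Finset.single_le_sum (f := fun k' => A k' k ^ 2) (fun _ _ => sq_nonneg _) (Finset.mem_univ j)
  exact h1.trans (Finset.single_le_sum (f := fun j' => ∑ k', A k' j' ^ 2)
    (fun _ _ => Finset.sum_nonneg fun _ _ => sq_nonneg _) (Finset.mem_univ k))

theorem continuous_fr {d : ℕ} : Continuous (fr : Matrix (Fin d) (Fin d) ℝ → ℝ) := by
  have h : (fr : Matrix (Fin d) (Fin d) ℝ → ℝ) = fun A => ∑ j, ∑ k, A k j ^ 2 :=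
    funext nF_fr
  rw [h]
  fun_prop

theorem isCompact_fr_le {n : ℕ} (N : Fin n → ℕ) (R : ℝ) : IsCompact {a : Alg N | ∀ i, fr (a i) ≤ R} := by
  have hbox : ∀ i, IsCompact {A : Matrix (Fin (N i)) (Fin (N i)) ℝ |
      ∀ j k, A j k ∈ Set.Icc (-Real.sqrt R) (Real.sqrt R)} := by
    intro i
    have h1 : IsCompact (Set.pi Set.univ fun _ : Fin (N i) =>
        Set.pi Set.univ fun _ : Fin (N i) => Set.Icc (-Real.sqrt R) (Real.sqrt R)) :=
      isCompact_univ_pi fun _ => isCompact_univ_pi fun _ => isCompact_Icc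
    have h2 : {A : Matrix (Fin (N i)) (Fin (N i)) ℝ |
        ∀ j k, A j k ∈ Set.Icc (-Real.sqrt R) (Real.sqrt R)} =
        (Set.pi Set.univ fun _ : Fin (N i) =>
        Set.pi Set.univ fun _ : Fin (N i) => Set.Icc (-Real.sqrt R) (Real.sqrt R)) := by
      apply Set.ext
      intro A
      constructor
      · intro h j _ k _
        exact h j k
      · intro h j k
        exact h j (Set.mem_univ _) k (Set.mem_univ _)
    rw [h2]
    exact h1
  refine (isCompact_univ_pi hbox).of_isClosed_subset ?_ ?_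
  · have : {a : Alg N | ∀ i, fr (a i) ≤ R} = ⋂ i, {a : Alg N | fr (a i) ≤ R} := by
      ext a
      rw [Set.mem_iInter]
      rfl
    rw [this]
    exact isClosed_iInter fun i =>
      isClosed_le (continuous_fr.comp (continuous_apply i)) continuous_const
  · intro a ha i _ j k
    have h1 : a i j k ^ 2 ≤ R := (nrm_entry (a i) j k).trans (ha i)
    have h2 := Real.abs_le_sqrt h1
    rw [abs_le] at h2
    exact h2

variable {n : ℕ} {N : Fin n → ℕ}

/-- the squared norm -/
def nF (X : Alg N) : ℝ := ∑ i, fr (X i)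

theorem nF_cont : Continuous (nF : Alg N → ℝ) := by
  unfold nF
  exact continuous_finsetSum _ fun i _ => continuous_fr.comp (continuous_apply i)

theorem nF_nonneg (X : Alg N) : 0 ≤ nF X :=
  Finset.sum_nonneg fun _ _ => fr_nonneg _

theorem nF_le (X : Alg N) (i : Fin n) : fr (X i) ≤ nF X :=
  Finset.single_le_sum (f := fun i => fr (X i)) (fun _ _ => fr_nonneg _) (Finset.mem_univ i)

theorem nF_zero : nF (0 : Alg N) = 0 := by
  unfold nF fr
  simp

theorem nF_eq_zero {X : Alg N} (h : nF X = 0) : X = 0 := by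
  funext i
  exact fr_eq_zero (le_antisymm ((nF_le X i).trans h.le) (fr_nonneg _))

theorem nF_smul (a : ℝ) (X : Alg N) : nF (a • X) = a ^ 2 * nF X := by
  unfold nF
  rw [Finset.mul_sum]
  refine Finset.sum_congr rfl fun i _ => ?_
  show fr (a • X i) = _
  unfold fr
  rw [Matrix.transpose_smul, Matrix.smul_mul, Matrix.mul_smul, smul_smul, Matrix.trace_smul,
    smul_eq_mul]
  ring

/-- invariance under multiplication with orthogonal elements -/
theorem nF_mul_right {u : (Alg N)ˣ} (hu : Orth u) (X : Alg N) : nF (X * u.1) = nF X := by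
  unfold nF
  refine Finset.sum_congr rfl fun i _ => ?_
  show fr (X i * u.1 i) = fr (X i)
  exact fr_orth_right (orth_right hu i)

theorem nF_mul_left {u : (Alg N)ˣ} (hu : Orth u) (X : Alg N) : nF (u.1 * X) = nF X := by
  unfold nF
  refine Finset.sum_congr rfl fun i _ => ?_
  show fr (u.1 i * X i) = fr (X i)
  exact fr_orth_left (hu i)

/-- the norm of the difference of two orthogonal elements -/
theorem nF_orth_sub {a b : (Alg N)ˣ} (ha : Orth a) (hb : Orth b) :
    nF (a.1 - b.1) = ∑ i, (2 * (N i : ℝ) - 2 * ((a.1 i)ᵀ * b.1 i).trace) := by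
  unfold nF
  refine Finset.sum_congr rfl fun i _ => ?_
  show fr (a.1 i - b.1 i) = _
  unfold fr
  have h1 : (a.1 i - b.1 i)ᵀ * (a.1 i - b.1 i) =
      (1 + 1) - ((a.1 i)ᵀ * b.1 i)ᵀ - (a.1 i)ᵀ * b.1 i := by
    rw [Matrix.transpose_sub, sub_mul, mul_sub, mul_sub, ha i, hb i, Matrix.transpose_mul,
      Matrix.transpose_transpose]
    noncomm_ring
  rw [h1, Matrix.trace_sub, Matrix.trace_sub, Matrix.trace_add, Matrix.trace_one,
    Matrix.trace_transpose, Fintype.card_fin]
  ring

theorem firstCountable_mat (i : Fin n) :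
    FirstCountableTopology (Matrix (Fin (N i)) (Fin (N i)) ℝ) :=
  inferInstanceAs (FirstCountableTopology (Fin (N i) → Fin (N i) → ℝ))

theorem firstCountable_units : FirstCountableTopology (Alg N)ˣ := by
  have hfc := fun i => firstCountable_mat (N := N) i
  have h1 : FirstCountableTopology (Alg N) := inferInstance
  have h2 : FirstCountableTopology (Alg N)ᵐᵒᵖ :=
    (MulOpposite.opHomeomorph (M := Alg N)).symm.isInducing.firstCountableTopology
  exact Units.isEmbedding_embedProduct.isInducing.firstCountableTopology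

open Filter Topology in
/-- bounded sequences in `Alg N` have convergent subsequences -/
theorem exists_subseq {x : ℕ → Alg N} {R : ℝ} (h : ∀ j, nF (x j) ≤ R) :
    ∃ X : Alg N, ∃ φ : ℕ → ℕ, StrictMono φ ∧ Tendsto (fun j => x (φ j)) atTop (𝓝 X) := by
  have hfc := fun i => firstCountable_mat (N := N) i
  obtain ⟨X, -, φ, hφ, hlim⟩ := (isCompact_fr_le N R).tendsto_subseq (x := x)
    fun j i => (nF_le _ i).trans (h j)
  exact ⟨X, φ, hφ, hlim⟩

open Filter Topology in
set_option backward.isDefEq.respectTransparency false in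
private theorem nrm_slope {d : ℕ} (X : Matrix (Fin d) (Fin d) ℝ) :
    Tendsto (fun s : ℝ => s⁻¹ • (exp (s • X) - 1)) (𝓝[≠] 0) (𝓝 X) := by
  open scoped Norms.Operator in
  have hX : HasDerivAt (fun s : ℝ => exp (s • X)) X 0 := by
    have := hasDerivAt_exp_smul_const (𝕂 := ℝ) X 0
    simpa using this
  have h1 := hasDerivAt_iff_tendsto_slope_zero.1 hX
  refine h1.congr fun s => ?_
  rw [zero_add, zero_smul, exp_zero]

open Filter Topology in
/-- the derivative of the exponential at `0` -/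
theorem eu_slope (X : Alg N) :
    Tendsto (fun s : ℝ => s⁻¹ • ((eu (s • X)).1 - 1)) (𝓝[≠] 0) (𝓝 X) := by
  refine tendsto_pi_nhds.2 fun i => ?_
  exact nrm_slope (X i)

open Filter Topology in
theorem eu_slope_seq (X : Alg N) {r : ℕ → ℝ} (hr : ∀ j, 0 < r j) (h0 : Tendsto r atTop (𝓝 0)) :
    Tendsto (fun j => (r j)⁻¹ • ((eu (r j • X)).1 - 1)) atTop (𝓝 X) :=
  (eu_slope X).comp (tendsto_nhdsWithin_iff.2 ⟨h0, Eventually.of_forall fun j => (hr j).ne'⟩)

end Pool.Agent.MP_417c68_gt
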