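import Pool.Agent.Lib.MP_417c68_gt_T.LieT
import Pool.Agent.Lib.MP_417c68_gt_T.Nrm
import Pool.Agent.Lib.MP_417c68_gt_T.Ad

/-!
# MP_417c68_gt, project T, module GrpT: Theorem T2

Text: `/team-store/TEXT_417c68_T.md`, section 5.
-/

noncomputable section

namespace Pool.Agent.MP_417c68_gt

open Matrix NormedSpace Pointwise

variable {n : ℕ} {N : Fin n → ℕ} {G H L : Subgroup (Alg N)ˣ}

/-- the normalizer of `𝔭(H)` in the maximal compact subgroup of `G` -/
def NK (G H : Subgroup (Alg N)ˣ) : Subgroup (Alg N)ˣ where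
  carrier := {k | k ∈ G ∧ Orth k ∧ (∀ x ∈ pp H, cA k x ∈ pp H) ∧ ∀ x ∈ pp H, cA k⁻¹ x ∈ pp H}
  one_mem' := ⟨G.one_mem, orth_one, fun x hx => by rwa [cA_one], fun x hx => by
    rwa [inv_one, cA_one]⟩
  mul_mem' := fun {a b} ha hb => ⟨G.mul_mem ha.1 hb.1, orth_mul ha.2.1 hb.2.1, fun x hx => by
    rw [cA_mul]
    exact ha.2.2.1 _ (hb.2.2.1 x hx), fun x hx => by
    rw [_root_.mul_inv_rev, cA_mul]
    exact hb.2.2.2 _ (ha.2.2.2 x hx)⟩
  inv_mem' := fun {a} ha => ⟨G.inv_mem ha.1, orth_inv ha.2.1, ha.2.2.2, fun x hx => by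
    rw [inv_inv]
    exact ha.2.2.1 x hx⟩

theorem mem_NK {k : (Alg N)ˣ} : k ∈ NK G H ↔
    k ∈ G ∧ Orth k ∧ (∀ x ∈ pp H, cA k x ∈ pp H) ∧ ∀ x ∈ pp H, cA k⁻¹ x ∈ pp H := Iff.rfl

theorem NK_compact (hG : SelfAdj G) (hH : SelfAdj H) : IsCompact (NK G H : Set (Alg N)ˣ) := by
  have h1 : IsCompact ((G : Set (Alg N)ˣ) ∩ {k : (Alg N)ˣ | Orth k}) :=
    isCompact_orth.inter_left hG.closed
  have hc : ∀ x : Alg N, Continuous fun k : (Alg N)ˣ => cA k x := fun x =>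
    continuous_cA.comp (continuous_id.prodMk continuous_const)
  have hp := isClosed_pp hH
  have h2 : (NK G H : Set (Alg N)ˣ) = ((G : Set (Alg N)ˣ) ∩ {k : (Alg N)ˣ | Orth k}) ∩
      ((⋂ x ∈ pp H, {k | cA k x ∈ pp H}) ∩ ⋂ x ∈ pp H, {k | cA k⁻¹ x ∈ pp H}) := by
    ext k
    simp only [Set.mem_inter_iff, Set.mem_iInter, Set.mem_setOf_eq, SetLike.mem_coe, mem_NK]
    exact ⟨fun h => ⟨⟨h.1, h.2.1⟩, h.2.2.1, h.2.2.2⟩, fun h => ⟨h.1.1, h.1.2, h.2.1, h.2.2⟩⟩
  rw [h2]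
  refine h1.inter_right (IsClosed.inter ?_ ?_)
  · exact isClosed_biInter fun x _ => hp.preimage (hc x)
  · exact isClosed_biInter fun x _ => hp.preimage ((hc x).comp continuous_inv)

open Filter Topology in
set_option backward.isDefEq.respectTransparency false in
private theorem grp_deriv {d : ℕ} (A X : Matrix (Fin d) (Fin d) ℝ) :
    HasDerivAt (fun s : ℝ => (A * exp (s • X)).trace) ((A * X).trace) 0 := by
  open scoped Norms.Operator in
  have hX : HasDerivAt (fun s : ℝ => exp (s • X)) X 0 := by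
    have := hasDerivAt_exp_smul_const (𝕂 := ℝ) X 0
    simpa using this
  have h1 : HasDerivAt (fun s : ℝ => A * exp (s • X)) (A * X) 0 := hX.const_mul A
  exact der_trace h1

/-- elements of the Lie algebra which normalize `𝔭(H)` -/
private theorem grp_exp (hH : SelfAdj H) {a : Alg N} (hl : a ∈ lie G)
    (hs : ∀ i, (a i)ᵀ = -(a i)) (hn : ∀ x ∈ pp H, br a x ∈ pp H) (t : ℝ) :
    eu (t • a) ∈ NK G H := by
  have hn' : ∀ x ∈ pS H, br a x ∈ pS H := fun x hx =>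
    (mem_pS hH.closed).2 (hn x ((mem_pS hH.closed).1 hx))
  refine ⟨hl t, orth_eu fun i => ?_, fun x hx => ?_, fun x hx => ?_⟩
  · show (t • a i)ᵀ = -(t • a i)
    rw [Matrix.transpose_smul, hs i, smul_neg]
  · exact (mem_pS hH.closed).1 (cA_of_br' hn' t ((mem_pS hH.closed).2 hx))
  · have h1 := (mem_pS hH.closed).1 (cA_of_br' hn' (-t) ((mem_pS hH.closed).2 hx))
    rwa [neg_smul, eu_neg] at h1

private theorem grp_br_cA (k : (Alg N)ˣ) (X Y : Alg N) :
    br (cA k X) (cA k Y) = cA k (br X Y) := by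
  unfold br cA
  have h : (k⁻¹).1 * k.1 = 1 := k.inv_mul
  have e1 : k.1 * X * (k⁻¹).1 * (k.1 * Y * (k⁻¹).1) = k.1 * (X * Y) * (k⁻¹).1 := by
    calc k.1 * X * (k⁻¹).1 * (k.1 * Y * (k⁻¹).1) =
        k.1 * X * ((k⁻¹).1 * k.1) * Y * (k⁻¹).1 := by simp only [mul_assoc]
      _ = _ := by rw [h, mul_one]; simp only [mul_assoc]
  have e2 : k.1 * Y * (k⁻¹).1 * (k.1 * X * (k⁻¹).1) = k.1 * (Y * X) * (k⁻¹).1 := by
    calc k.1 * Y * (k⁻¹).1 * (k.1 * X * (k⁻¹).1) =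
        k.1 * Y * ((k⁻¹).1 * k.1) * X * (k⁻¹).1 := by simp only [mul_assoc]
      _ = _ := by rw [h, mul_one]; simp only [mul_assoc]
  rw [e1, e2, ← sub_mul, ← mul_sub]

private theorem grp_kV_cA (hG : SelfAdj G) {k : (Alg N)ˣ} (hk : k ∈ G) (ho : Orth k) {X : Alg N}
    (hX : X ∈ kV (pS G)) : cA k X ∈ kV (pS G) := by
  have h1 : kV (pS G) ≤ (kV (pS G)).comap (cL k) := by
    refine Submodule.span_le.2 ?_
    rintro _ ⟨x, hx, y, hy, rfl⟩
    show cA k (br x y) ∈ kV (pS G)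
    rw [← grp_br_cA]
    have hp : ∀ z ∈ pS G, cA k z ∈ pS G := fun z hz =>
      (mem_pS hG.closed).2 (pp_cA hk ho ((mem_pS hG.closed).1 hz))
    exact Submodule.subset_span ⟨_, hp x hx, _, hp y hy, rfl⟩
  exact h1 hX

private theorem grp_kV_lie (hG : SelfAdj G) {X : Alg N} (hX : X ∈ kV (pS G)) : X ∈ lie G := by
  refine Submodule.span_induction (p := fun X _ => X ∈ lie G) ?_ ?_ ?_ ?_ hX
  · rintro _ ⟨x, hx, y, hy, rfl⟩
    exact lie_br hG.closed ((mem_pS hG.closed).1 hx).2 ((mem_pS hG.closed).1 hy).2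
  · intro t
    rw [smul_zero, eu_zero]
    exact G.one_mem
  · intro x y _ _ hx hy
    exact lie_add hG.closed hx hy
  · intro c x _ hx
    exact lie_smul c hx

open Filter Topology in
/-- near the set `NK G L * NK G H` -/
theorem nk_near (hG : SelfAdj G) (hH : SelfAdj H) (hL : SelfAdj L) (hHG : H ≤ G)
    (hLG : L ≤ G) (h : SumN G H L) :
    ∃ ε : ℝ, 0 < ε ∧ ∀ k ∈ G, Orth k → ∀ l ∈ NK G L, ∀ b ∈ NK G H,
      nF (k.1 - (l * b).1) < ε → ∃ l ∈ NK G L, ∃ b ∈ NK G H, k = l * b := by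
  by_contra hcon
  push Not at hcon
  obtain ⟨S, hS⟩ : ∃ S : Set (Alg N)ˣ, S = {k | ∃ l ∈ NK G L, ∃ b ∈ NK G H, k = l * b} :=
    ⟨_, rfl⟩
  have hmem : ∀ k, k ∈ S ↔ ∃ l ∈ NK G L, ∃ b ∈ NK G H, k = l * b := fun k => by rw [hS]; rfl
  have hScpt : IsCompact S := by
    have h1 := (NK_compact hG hL).mul (NK_compact hG hH)
    have h2 : S = (NK G L : Set (Alg N)ˣ) * (NK G H : Set (Alg N)ˣ) := by
      ext k
      rw [hmem, Set.mem_mul]
      constructor
      · rintro ⟨l, hl, b, hb, rfl⟩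
        exact ⟨l, hl, b, hb, rfl⟩
      · rintro ⟨l, hl, b, hb, rfl⟩
        exact ⟨l, hl, b, hb, rfl⟩
    rw [h2]
    exact h1
  have hSG : ∀ s ∈ S, s ∈ G ∧ Orth s := by
    intro s hs
    obtain ⟨l, hl, b, hb, rfl⟩ := (hmem s).1 hs
    exact ⟨G.mul_mem hl.1 hb.1, orth_mul hl.2.1 hb.2.1⟩
  have hmin : ∀ k : (Alg N)ˣ, ∃ s ∈ S, ∀ s' ∈ S, nF (k.1 - s.1) ≤ nF (k.1 - s'.1) := by
    intro k
    have h1 : Continuous fun s : (Alg N)ˣ => nF (k.1 - s.1) :=
      nF_cont.comp (continuous_const.sub Units.continuous_val)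
    obtain ⟨s, hs, h2⟩ := hScpt.exists_isMinOn
      ⟨1, (hmem 1).2 ⟨1, (NK G L).one_mem, 1, (NK G H).one_mem, (mul_one 1).symm⟩⟩
      h1.continuousOn
    exact ⟨s, hs, fun s' hs' => h2 hs'⟩
  have hseq : ∀ j : ℕ, ∃ k s : (Alg N)ˣ, k ∈ G ∧ Orth k ∧ k ∉ S ∧ s ∈ S ∧
      nF (k.1 - s.1) < 1 / ((j : ℝ) + 1) ∧ ∀ s' ∈ S, nF (k.1 - s.1) ≤ nF (k.1 - s'.1) := by
    intro j
    obtain ⟨k, hk, ho, l, hl, b, hb, h1, h2⟩ := hcon (1 / ((j : ℝ) + 1)) (by positivity)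
    obtain ⟨s, hs, h3⟩ := hmin k
    refine ⟨k, s, hk, ho, fun h4 => ?_, hs, ?_, h3⟩
    · obtain ⟨l', hl', b', hb', e⟩ := (hmem k).1 h4
      exact h2 l' hl' b' hb' e
    · exact lt_of_le_of_lt (h3 _ ((hmem _).2 ⟨l, hl, b, hb, rfl⟩)) h1
  choose k s hkG hkO hkS hsS hlt hmn using hseq
  obtain ⟨a, ha⟩ : ∃ a : ℕ → (Alg N)ˣ, a = fun j => k j * (s j)⁻¹ := ⟨_, rfl⟩
  have haG : ∀ j, a j ∈ G := fun j => by
    rw [ha]
    exact G.mul_mem (hkG j) (G.inv_mem (hSG _ (hsS j)).1)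
  have haO : ∀ j, Orth (a j) := fun j => by
    rw [ha]
    exact orth_mul (hkO j) (orth_inv (hSG _ (hsS j)).2)
  have hak : ∀ j, a j * s j = k j := fun j => by
    rw [ha]
    exact inv_mul_cancel_right _ _
  have hnorm : ∀ (j : ℕ) (u : (Alg N)ˣ), nF ((k j).1 - (u * s j).1) = nF ((a j).1 - u.1) := by
    intro j u
    rw [← nF_mul_right (hSG _ (hsS j)).2 ((a j).1 - u.1), sub_mul]
    congr 1
    rw [← hak j]
    rfl
  have hn1 : ∀ j, nF ((a j).1 - 1) = nF ((k j).1 - (s j).1) := by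
    intro j
    have h1 := hnorm j 1
    rw [one_mul] at h1
    exact h1.symm
  obtain ⟨r, hr⟩ : ∃ r : ℕ → ℝ, r = fun j => Real.sqrt (nF ((a j).1 - 1)) := ⟨_, rfl⟩
  have hpos : ∀ j, 0 < nF ((a j).1 - 1) := by
    intro j
    refine lt_of_le_of_ne (nF_nonneg _) fun h0 => hkS j ?_
    have h1 := nF_eq_zero h0.symm
    have h2 : a j = 1 := Units.ext (sub_eq_zero.1 h1)
    rw [← hak j, h2, one_mul]
    exact hsS j
  have hrp : ∀ j, 0 < r j := fun j => by
    rw [hr]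
    exact Real.sqrt_pos.2 (hpos j)
  have hr2 : ∀ j, r j ^ 2 = nF ((a j).1 - 1) := fun j => by
    rw [hr]
    exact Real.sq_sqrt (hpos j).le
  have hr0 : Tendsto r atTop (𝓝 0) := by
    have h1 : Tendsto (fun j : ℕ => Real.sqrt (1 / ((j : ℝ) + 1))) atTop (𝓝 0) := by
      have h2 := (Real.continuous_sqrt.tendsto 0).comp
        (tendsto_one_div_add_atTop_nhds_zero_nat (𝕜 := ℝ))
      rwa [Real.sqrt_zero] at h2
    refine squeeze_zero (fun j => (hrp j).le) (fun j => ?_) h1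
    rw [hr]
    refine Real.sqrt_le_sqrt ?_
    rw [hn1]
    exact (hlt j).le
  obtain ⟨x, hx⟩ : ∃ x : ℕ → Alg N, x = fun j => (r j)⁻¹ • ((a j).1 - 1) := ⟨_, rfl⟩
  have hx1 : ∀ j, nF (x j) = 1 := fun j => by
    rw [hx]
    show nF ((r j)⁻¹ • ((a j).1 - 1)) = 1
    rw [nF_smul, ← hr2, ← mul_pow, inv_mul_cancel₀ (hrp j).ne', one_pow]
  obtain ⟨X, φ, hφ, hlim⟩ := exists_subseq (x := x) (R := 1) fun j => (hx1 j).le
  have hxr : Tendsto (fun j => (r (φ j))⁻¹ • ((a (φ j)).1 - 1)) atTop (𝓝 X) := by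
    refine hlim.congr fun j => ?_
    rw [hx]
  have hr0' : Tendsto (fun j => r (φ j)) atTop (𝓝 0) := hr0.comp hφ.tendsto_atTop
  have hX1 : nF X = 1 := by
    have h1 := (nF_cont.tendsto X).comp hlim
    refine tendsto_nhds_unique h1 ?_
    refine tendsto_const_nhds.congr fun j => ?_
    exact (hx1 (φ j)).symm
  have hskew : ∀ i, (X i)ᵀ = -(X i) := by
    intro i
    have h1 : Tendsto (fun j => (r (φ j))⁻¹ • ((a (φ j)).1 i - 1)) atTop (𝓝 (X i)) :=
      tendsto_pi_nhds.1 hxr i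
    have h2 : Tendsto (fun j => (a (φ j)).1 i - 1) atTop (𝓝 0) := by
      have h3 := hr0'.smul h1
      rw [zero_smul] at h3
      refine h3.congr fun j => ?_
      rw [smul_smul, mul_inv_cancel₀ (hrp _).ne', one_smul]
    have h3 : Continuous (fun A : Matrix (Fin (N i)) (Fin (N i)) ℝ => Aᵀ) :=
      continuous_id.matrix_transpose
    have h4 := (h3.tendsto _).comp h1
    have h5 := (h4.add h1).add (h4.mul h2)
    rw [mul_zero, add_zero] at h5
    have h6 : (X i)ᵀ + X i = 0 := by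
      refine tendsto_nhds_unique h5 ?_
      refine tendsto_const_nhds.congr fun j => ?_
      rw [Function.comp_apply, Matrix.transpose_smul, smul_mul_assoc, ← smul_add, ← smul_add]
      have h7 : ((a (φ j)).1 i - 1)ᵀ + ((a (φ j)).1 i - 1) +
          ((a (φ j)).1 i - 1)ᵀ * ((a (φ j)).1 i - 1) = 0 := by
        rw [Matrix.transpose_sub, Matrix.transpose_one, sub_mul, mul_sub, haO (φ j) i]
        noncomm_ring
      rw [h7, smul_zero]
    exact eq_neg_of_add_eq_zero_left h6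
  have hXlie : X ∈ lie G :=
    lie_of_tendsto hG.closed (fun j => haG (φ j)) (fun j => hrp (φ j)) hr0' hxr
  -- first order condition
  have hfoc : ∀ (j : ℕ) (Y : Alg N), (∀ t : ℝ, eu (t • Y) * s j ∈ S) →
      (∀ i, (Y i)ᵀ = -(Y i)) → ip ((a j).1) Y = 0 := by
    intro j Y hY hYs
    have hYo : ∀ t : ℝ, Orth (eu (t • Y)) := fun t => orth_eu fun i => by
      show (t • Y i)ᵀ = -(t • Y i)
      rw [Matrix.transpose_smul, hYs i, smul_neg]
    have hd : HasDerivAt (fun t : ℝ => ∑ i, (((a j).1 i)ᵀ * exp (t • Y i)).trace)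
        (∑ i, (((a j).1 i)ᵀ * Y i).trace) 0 :=
      HasDerivAt.fun_sum fun i _ => grp_deriv ((a j).1 i)ᵀ (Y i)
    have hmax : IsLocalMax (fun t : ℝ => ∑ i, (((a j).1 i)ᵀ * exp (t • Y i)).trace) 0 := by
      refine Filter.Eventually.of_forall fun t => ?_
      have h1 := hmn j _ (hY t)
      have h2 := hnorm j 1
      rw [one_mul] at h2
      rw [hnorm, h2, nF_orth_sub (haO j) (hYo t), nF_orth_sub (haO j) orth_one] at h1
      simp only [Finset.sum_sub_distrib, ← Finset.mul_sum] at h1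
      show ∑ i, (((a j).1 i)ᵀ * exp (t • Y i)).trace ≤
        ∑ i, (((a j).1 i)ᵀ * exp ((0 : ℝ) • Y i)).trace
      have h3 : ∑ i, (((a j).1 i)ᵀ * exp ((0 : ℝ) • Y i)).trace =
          ∑ i, (((a j).1 i)ᵀ * (1 : (Alg N)ˣ).1 i).trace := by
        refine Finset.sum_congr rfl fun i _ => ?_
        rw [zero_smul, exp_zero]
        rfl
      have h4 : ∑ i, (((a j).1 i)ᵀ * (eu (t • Y)).1 i).trace =
          ∑ i, (((a j).1 i)ᵀ * exp (t • Y i)).trace := rfl
      rw [h4] at h1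
      rw [h3]
      linarith
    have h0 := hmax.hasDerivAt_eq_zero hd
    unfold ip
    rw [← neg_eq_zero, ← h0, ← Finset.sum_neg_distrib]
    refine Finset.sum_congr rfl fun i _ => ?_
    rw [← Matrix.trace_transpose (((a j).1 i)ᵀ * Y i), Matrix.transpose_mul,
      Matrix.transpose_transpose, hYs i, neg_mul, Matrix.trace_neg, Matrix.trace_mul_comm]
  -- the decomposition of `X`
  have hbr : ∀ y ∈ pS G, br X y ∈ pS G := by
    intro y hy
    have hy' := (mem_pS hG.closed).1 hy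
    refine (mem_pS hG.closed).2 ⟨fun i => ?_, lie_br hG.closed hXlie hy'.2⟩
    show (X i * y i - y i * X i)ᵀ = X i * y i - y i * X i
    rw [Matrix.transpose_sub, Matrix.transpose_mul, Matrix.transpose_mul, hskew i, hy'.1 i]
    noncomm_ring
  obtain ⟨X', hX', hXX'⟩ := proj_k (trp_pS hG) hskew hbr
  have hX's := kV_skew (trp_pS hG) hX'
  have hcl : X - X' ∈ lie G := by
    have h1 := lie_add hG.closed hXlie (lie_smul (-1) (grp_kV_lie hG hX'))
    rwa [neg_one_smul, ← sub_eq_add_neg] at h1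
  have hcs : ∀ i, ((X - X') i)ᵀ = -((X - X') i) := fun i => by
    show (X i - X' i)ᵀ = -(X i - X' i)
    rw [Matrix.transpose_sub, hskew i, hX's i]
    abel
  have hc0 : ∀ y ∈ pS G, br (X - X') y = 0 := by
    intro y hy
    have h1 : br (X - X') y = br X y - br X' y := by
      unfold br
      noncomm_ring
    rw [h1, hXX' y hy, sub_self]
  have hzero : ∀ j, ip ((a j).1) X = 0 := by
    intro j
    obtain ⟨l, hl, b, hb, e⟩ := (hmem _).1 (hsS j)
    obtain ⟨p, hp, q, hq, e1, hpn, hqn⟩ := h _ (grp_kV_cA hG (G.inv_mem hl.1)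
      (orth_inv hl.2.1) hX')
    have hps := kV_skew (trp_pS hG) (grp_kV_cA hG hl.1 hl.2.1 hp)
    have hqs := kV_skew (trp_pS hG) (grp_kV_cA hG hl.1 hl.2.1 hq)
    have hdec : X = (X - X') + (cA l p + cA l q) := by
      rw [← cA_add, ← e1, cA_cA_inv]
      abel
    have i1 : ip ((a j).1) (X - X') = 0 := by
      refine hfoc j _ (fun t => ?_) hcs
      rw [e, ← mul_assoc, hmem]
      refine ⟨eu (t • (X - X')) * l, (NK G L).mul_mem ?_ hl, b, hb, rfl⟩
      refine grp_exp hL hcl hcs (fun y hy => ?_) t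
      rw [hc0 y ((mem_pS hG.closed).2 (pp_mono hLG hy))]
      exact pp_zero
    have i2 : ip ((a j).1) (cA l p) = 0 := by
      refine hfoc j _ (fun t => ?_) hps
      rw [e, ← mul_assoc, hmem]
      refine ⟨eu (t • cA l p) * l, (NK G L).mul_mem ?_ hl, b, hb, rfl⟩
      refine grp_exp hL (grp_kV_lie hG (grp_kV_cA hG hl.1 hl.2.1 hp)) hps (fun y hy => ?_) t
      have h1 : br (cA l p) y = cA l (br p (cA l⁻¹ y)) := by
        rw [← grp_br_cA, cA_cA_inv]
      rw [h1]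
      exact hl.2.2.1 _ (hpn _ (hl.2.2.2 y hy))
    have i3 : ip ((a j).1) (cA l q) = 0 := by
      refine hfoc j _ (fun t => ?_) hqs
      rw [e, hmem]
      refine ⟨l, hl, eu (t • q) * b, (NK G H).mul_mem ?_ hb, ?_⟩
      · exact grp_exp hH (grp_kV_lie hG hq) (kV_skew (trp_pS hG) hq) hqn t
      · rw [← cA_smul, eu_cA]
        group
    have h4 : ip ((a j).1) X = ip ((a j).1) (X - X') + (ip ((a j).1) (cA l p) +
        ip ((a j).1) (cA l q)) := by
      conv_lhs => rw [hdec]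
      rw [ip_comm, ip_add_left, ip_add_left, ip_comm _ (a j).1, ip_comm _ (a j).1,
        ip_comm _ (a j).1]
    rw [h4, i1, i2, i3, add_zero, add_zero]
  have htr0 : ip (1 : Alg N) X = 0 := by
    unfold ip
    refine Finset.sum_eq_zero fun i _ => ?_
    show ((1 : Matrix (Fin (N i)) (Fin (N i)) ℝ) * X i).trace = 0
    rw [one_mul]
    have h1 := Matrix.trace_transpose (X i)
    rw [hskew i, Matrix.trace_neg] at h1
    linarith
  have hxX : ∀ j, ip (x j) X = 0 := by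
    intro j
    rw [hx]
    show ip ((r j)⁻¹ • ((a j).1 - 1)) X = 0
    rw [ip_smul_left, ip_sub_left, hzero, htr0, sub_zero, mul_zero]
  have hXX : ip X X = 0 := by
    have h1 : Continuous fun Y : Alg N => ip Y X :=
      continuous_ip.comp (continuous_id.prodMk continuous_const)
    have h2 := (h1.tendsto X).comp hlim
    refine tendsto_nhds_unique h2 ?_
    exact tendsto_const_nhds.congr fun j => (hxX (φ j)).symm
  have h9 : nF X = -ip X X := by
    unfold nF ip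
    rw [← Finset.sum_neg_distrib]
    refine Finset.sum_congr rfl fun i _ => ?_
    unfold fr
    rw [hskew i, neg_mul, Matrix.trace_neg]
  rw [hX1, hXX] at h9
  norm_num at h9

/-- Theorem T2 -/
theorem nk_mul (hG : SelfAdj G) (hK : Kconn G) (hH : SelfAdj H) (hL : SelfAdj L) (hHG : H ≤ G)
    (hLG : L ≤ G) (h : SumN G H L) {k : (Alg N)ˣ} (hk : k ∈ G) (ho : Orth k) :
    ∃ l ∈ NK G L, ∃ b ∈ NK G H, k = l * b := by
  obtain ⟨ε, hε, hnear⟩ := nk_near hG hH hL hHG hLG h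
  have hK1 : PreconnectedSpace {k : (Alg N)ˣ | k ∈ G ∧ Orth k} :=
    isPreconnected_iff_preconnectedSpace.1 hK
  have hScpt : IsCompact ((NK G L : Set (Alg N)ˣ) * (NK G H : Set (Alg N)ˣ)) :=
    (NK_compact hG hL).mul (NK_compact hG hH)
  obtain ⟨S, hS⟩ : ∃ S : Set {k : (Alg N)ˣ | k ∈ G ∧ Orth k},
      S = {x | x.1 ∈ (NK G L : Set (Alg N)ˣ) * (NK G H : Set (Alg N)ˣ)} := ⟨_, rfl⟩
  have hmem : ∀ x, x ∈ S ↔ x.1 ∈ (NK G L : Set (Alg N)ˣ) * (NK G H : Set (Alg N)ˣ) :=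
    fun x => by rw [hS]; rfl
  have hclosed : IsClosed S := by
    rw [hS]
    exact hScpt.isClosed.preimage continuous_subtype_val
  have hopen : IsOpen S := by
    rw [isOpen_iff_forall_mem_open]
    intro x hx
    obtain ⟨l, hl, b, hb, e⟩ := Set.mem_mul.1 ((hmem x).1 hx)
    have hcont : Continuous fun y : {k : (Alg N)ˣ | k ∈ G ∧ Orth k} =>
        nF (y.1.1 - (l * b).1) :=
      nF_cont.comp ((Units.continuous_val.comp continuous_subtype_val).sub continuous_const)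
    refine ⟨{y | nF (y.1.1 - (l * b).1) < ε}, fun y hy => ?_,
      isOpen_lt hcont continuous_const, ?_⟩
    · obtain ⟨l', hl', b', hb', e'⟩ := hnear y.1 y.2.1 y.2.2 l hl b hb hy
      rw [hmem]
      exact Set.mem_mul.2 ⟨l', hl', b', hb', e'.symm⟩
    · show nF (x.1.1 - (l * b).1) < ε
      rw [e, sub_self, nF_zero]
      exact hε
  have huniv := IsClopen.eq_univ ⟨hclosed, hopen⟩
    (⟨⟨1, G.one_mem, orth_one⟩, (hmem _).2 (Set.mem_mul.2 ⟨1, (NK G L).one_mem, 1,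
      (NK G H).one_mem, one_mul 1⟩)⟩ : S.Nonempty)
  have h1 : (⟨k, hk, ho⟩ : {k : (Alg N)ˣ | k ∈ G ∧ Orth k}) ∈ S := by
    rw [huniv]
    exact Set.mem_univ _
  obtain ⟨l, hl, b, hb, e⟩ := Set.mem_mul.1 ((hmem _).1 h1)
  exact ⟨l, hl, b, hb, e.symm⟩

end Pool.Agent.MP_417c68_gt
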