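import Pool.Agent.Lib.MP_417c68_gt_T.Avg
import Pool.Agent.Lib.MP_417c68_gt_T.Ent

/-!
# MP_417c68_gt, project T, module Inv: biinvariant coefficients are constant

Text: `/team-store/TEXT_417c68_T.md`, section 2, (A1)-(A4).

PROOF.  `A = CG (pS L)`, `B = CG (pS H)`, `Q = (PL A d).map ofReal`, `P = (PR B d).map ofReal`,
`J x = cx (N2 N) (cp 0 x)`.
* For `v ∈ pS H`, real `s`: `eu (cp 0 (s • v)) ∈ B`, so `kp d (exp (s • J v)) * P = P` (`kp_PR`,
  `cx_eu`,
  `cx_smul`, `cp_smul`, `kp_cx`); `ent_right` with `z = -t * I` and `gam_eu`: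
  `kp d (gam (eu (t • v))) * P = P`.  The same on the left with `w ∈ pS L`.
* `Qf g := Q * kp d (gam g) * P` for `g ∈ G` is bounded: `Cocompact`: `g = l c h`, `l = eu w * k`
  (`polar_left`), `h = k' * eu v` (`polar_right`), `Qf g = Qf (k * c * k')`, and
  `{k} * C * {k'}` (orthogonal elements of `L`, `C`, orthogonal elements of `H`) is compact,
  `continuous_gam`,
  `continuous_kp`.
* For `g ∈ G`, `x ∈ pp G`: `ent_const` with `M = gam g`, `X = J x`: for real `s`: `exp (s • J x) =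
  cx (eu (cp 0 (s • x))).1` is orthogonal, entries bounded by `1`, so the product is bounded; for
  `z = s * I`:
  `gam g * exp ((s * I) • J x) = gam (g * eu (-s • x))`, `g * eu (-s • x) ∈ G`.  (Take the maximum
  of the two
  bounds.)  So `Qf (g * eu x) = Qf g`.
* Induction over `Subgroup.closure`, continuity for the topological closure (the closure is
  contained in `G`,
  which is closed).  For orthogonal `k`: `gam_orth`, then go back to real matrices (`ofReal` is
  injective).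
-/

noncomputable section

namespace Pool.Agent.MP_417c68_gt

open Matrix NormedSpace

variable {n : ℕ} {N : Fin n → ℕ} {G H L : Subgroup (Alg N)ˣ}

/-- the closed group generated by `exp 𝔭(G)` -/
def GP (G : Subgroup (Alg N)ˣ) : Subgroup (Alg N)ˣ :=
  (Subgroup.closure {u | ∃ x ∈ pp G, u = eu x}).topologicalClosure

theorem GP_le (hG : SelfAdj G) : GP G ≤ G :=
  Subgroup.topologicalClosure_minimal _ ((Subgroup.closure_le _).2 (by
    rintro _ ⟨x, hx, rfl⟩
    exact eu_mem hx)) hG.closed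

/-- the coefficient matrix -/
private def ivq (A B : Subgroup (Alg (N2 N))ˣ) (d : ℕ) (g : (Alg N)ˣ) :
    Matrix (Fin d → Kx (N2 N)) (Fin d → Kx (N2 N)) ℂ :=
  (PL A d).map (algebraMap ℝ ℂ) * kp d (gam g) * (PR B d).map (algebraMap ℝ ℂ)

private theorem pS_symm (hH : SelfAdj H) : ∀ v ∈ pS H, ∀ i, (v i)ᵀ = v i := fun _ hv =>
  ((mem_pS hH.closed).1 hv).1

private theorem inv_exp (x : Alg N) (s : ℝ) :
    exp ((s : ℂ) • cx (N2 N) (cp 0 x)) = cx (N2 N) (eu (cp 0 (s • x))).1 := by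
  rw [cx_eu, ← cx_smul, cp_smul, smul_zero]

private theorem inv_right (hH : SelfAdj H) (d : ℕ) {v : Alg N} (hv : v ∈ pS H) (t : ℝ) :
    kp d (gam (eu (t • v))) * (PR (CG (pS H)) d).map (algebraMap ℝ ℂ) =
      (PR (CG (pS H)) d).map (algebraMap ℝ ℂ) := by
  rw [gam_eu (pS_symm hH v hv) t]
  refine ent_right (fun s => ?_) _
  rw [inv_exp, kp_cx, ← Matrix.map_mul,
    kp_PR (CG_compact (pS_symm hH)) d (eu_mem_CG ((pS H).smul_mem s hv))]

private theorem inv_left (hL : SelfAdj L) (d : ℕ) {v : Alg N} (hv : v ∈ pS L) (t : ℝ) :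
    (PL (CG (pS L)) d).map (algebraMap ℝ ℂ) * kp d (gam (eu (t • v))) =
      (PL (CG (pS L)) d).map (algebraMap ℝ ℂ) := by
  rw [gam_eu (pS_symm hL v hv) t]
  refine ent_left (fun s => ?_) _
  rw [inv_exp, kp_cx, ← Matrix.map_mul,
    PL_kp (CG_compact (pS_symm hL)) d (eu_mem_CG ((pS L).smul_mem s hv))]

/-- a continuous family of matrices is bounded on a compact set -/
private theorem inv_bdd {T : Type*} [TopologicalSpace T] {ι : Type*} [Fintype ι] {K : Set T}
    (hK : IsCompact K) {f : T → Matrix ι ι ℂ} (hf : Continuous f) :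
    ∃ C : ℝ, ∀ x ∈ K, ∀ a b, ‖f x a b‖ ≤ C := by
  have h1 : Continuous fun x => ∑ a, ∑ b, ‖f x a b‖ :=
    continuous_finsetSum _ fun a _ => continuous_finsetSum _ fun b _ =>
      (hf.matrix_elem a b).norm
  obtain ⟨C, hC⟩ := hK.exists_bound_of_continuousOn h1.continuousOn
  refine ⟨C, fun x hx a b => ?_⟩
  have h2 := (le_abs_self _).trans (hC x hx)
  have h3 : ‖f x a b‖ ≤ ∑ b, ‖f x a b‖ :=
    Finset.single_le_sum (f := fun b => ‖f x a b‖) (fun _ _ => norm_nonneg _) (Finset.mem_univ b)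
  have h4 : ∑ b, ‖f x a b‖ ≤ ∑ a, ∑ b, ‖f x a b‖ :=
    Finset.single_le_sum (f := fun a => ∑ b, ‖f x a b‖)
      (fun _ _ => Finset.sum_nonneg fun _ _ => norm_nonneg _) (Finset.mem_univ a)
  exact h3.trans (h4.trans h2)

private theorem ivq_cont (A B : Subgroup (Alg (N2 N))ˣ) (d : ℕ) : Continuous (ivq A B d) := by
  unfold ivq
  exact (continuous_const.matrix_mul ((continuous_kp d).comp continuous_gam)).matrix_mul
    continuous_const

private theorem ivq_bdd (hH : SelfAdj H) (hL : SelfAdj L) (hC : Cocompact G H L) (d : ℕ) :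
    ∃ C : ℝ, ∀ g ∈ G, ∀ a b, ‖ivq (CG (pS L)) (CG (pS H)) d g a b‖ ≤ C := by
  obtain ⟨C, hC1, -, hC3⟩ := hC
  obtain ⟨R, hR⟩ := inv_bdd ((isCompact_orth.mul hC1).mul isCompact_orth)
    (ivq_cont (CG (pS L)) (CG (pS H)) d)
  refine ⟨R, fun g hg a b => ?_⟩
  obtain ⟨l, hl, c, hc, h', hh, rfl⟩ := hC3 g hg
  obtain ⟨w, hw, k, -, hko, rfl⟩ := polar_left hL hl
  obtain ⟨v, hv, k', -, hko', rfl⟩ := polar_right hH hh
  have h1 : ivq (CG (pS L)) (CG (pS H)) d (eu w * k * c * (k' * eu v)) =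
      ivq (CG (pS L)) (CG (pS H)) d (k * c * k') := by
    have e1 := inv_left hL d ((mem_pS hL.closed).2 hw) 1
    have e2 := inv_right hH d ((mem_pS hH.closed).2 hv) 1
    rw [one_smul] at e1 e2
    have e3 : eu w * k * c * (k' * eu v) = eu w * (k * c * k') * eu v := by group
    rw [e3]
    unfold ivq
    rw [gam_mul, gam_mul, kp_mul, kp_mul]
    calc (PL (CG (pS L)) d).map (algebraMap ℝ ℂ) *
          (kp d (gam (eu w)) * kp d (gam (k * c * k')) * kp d (gam (eu v))) *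
          (PR (CG (pS H)) d).map (algebraMap ℝ ℂ) =
          ((PL (CG (pS L)) d).map (algebraMap ℝ ℂ) * kp d (gam (eu w))) *
          kp d (gam (k * c * k')) *
          (kp d (gam (eu v)) * (PR (CG (pS H)) d).map (algebraMap ℝ ℂ)) := by
          simp only [Matrix.mul_assoc]
      _ = _ := by rw [e1, e2]
  rw [h1]
  exact hR _ (Set.mul_mem_mul (Set.mul_mem_mul hko hc) hko') a b

private theorem ivq_eu (hG : SelfAdj G) (hH : SelfAdj H) (hL : SelfAdj L)
    (hC : Cocompact G H L) (d : ℕ) {g : (Alg N)ˣ} (hg : g ∈ G) {x : Alg N} (hx : x ∈ pp G) :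
    ivq (CG (pS L)) (CG (pS H)) d (g * eu x) = ivq (CG (pS L)) (CG (pS H)) d g := by
  obtain ⟨C1, hC1⟩ := ivq_bdd hH hL hC d
  have hc : Continuous fun u : (Alg (N2 N))ˣ => (PL (CG (pS L)) d).map (algebraMap ℝ ℂ) *
      kp d (gam g * cx (N2 N) u.1) * (PR (CG (pS H)) d).map (algebraMap ℝ ℂ) :=
    (continuous_const.matrix_mul ((continuous_kp d).comp (continuous_const.matrix_mul
      (continuous_cx.comp Units.continuous_val)))).matrix_mul continuous_const
  obtain ⟨C2, hC2⟩ := inv_bdd isCompact_orth hc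
  have hxs : ∀ i, (x i)ᵀ = x i := hx.1
  have key := ent_const (d := d) (X := cx (N2 N) (cp 0 x)) (M := gam g)
    (Q := (PL (CG (pS L)) d).map (algebraMap ℝ ℂ)) (P := (PR (CG (pS H)) d).map (algebraMap ℝ ℂ))
    (C := max C1 C2) (fun s a b => by
      rw [inv_exp]
      refine (hC2 (eu (cp 0 (s • x))) ?_ a b).trans (le_max_right _ _)
      refine orth_eu fun i => ?_
      exact skew_cp (V := pS G) (pS_symm hG) ((pS G).smul_mem s ((mem_pS hG.closed).2 hx)) i)
    (fun s a b => by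
      have e1 := gam_eu hxs (-s)
      rw [neg_neg] at e1
      rw [← e1, ← gam_mul]
      refine (hC1 (g * eu (-s • x)) (G.mul_mem hg (hx.2 _)) a b).trans (le_max_left _ _))
    ((((-1 : ℝ) : ℝ) : ℂ) * Complex.I)
  rw [← gam_eu hxs 1, ← gam_mul, one_smul] at key
  exact key

set_option linter.unusedVariables false in
theorem inv_kp (hG : SelfAdj G) (hH : SelfAdj H) (hL : SelfAdj L) (hHG : H ≤ G) (hLG : L ≤ G)
    (hC : Cocompact G H L) {k : (Alg N)ˣ} (hk : k ∈ GP G) (ho : Orth k) (d : ℕ) :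
    PL (CG (pS L)) d * kp d (bd (N2 N) (cpu k).1) * PR (CG (pS H)) d =
      PL (CG (pS L)) d * PR (CG (pS H)) d := by
  let R : Subgroup (Alg N)ˣ :=
    { carrier := {u | u ∈ G ∧ ∀ g ∈ G, ivq (CG (pS L)) (CG (pS H)) d (g * u) =
        ivq (CG (pS L)) (CG (pS H)) d g}
      one_mem' := ⟨G.one_mem, fun g _ => by rw [mul_one]⟩
      mul_mem' := fun {a b} ha hb => ⟨G.mul_mem ha.1 hb.1, fun g hg => by
        rw [← mul_assoc, hb.2 _ (G.mul_mem hg ha.1), ha.2 g hg]⟩
      inv_mem' := fun {a} ha => ⟨G.inv_mem ha.1, fun g hg => by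
        rw [← ha.2 (g * a⁻¹) (G.mul_mem hg (G.inv_mem ha.1)), inv_mul_cancel_right]⟩ }
  have hRc : IsClosed (R : Set (Alg N)ˣ) := by
    have e : (R : Set (Alg N)ˣ) = (G : Set (Alg N)ˣ) ∩ ⋂ g ∈ G,
        {u | ivq (CG (pS L)) (CG (pS H)) d (g * u) = ivq (CG (pS L)) (CG (pS H)) d g} := by
      ext u
      simp only [Set.mem_inter_iff, Set.mem_iInter]
      exact Iff.rfl
    rw [e]
    refine hG.closed.inter (isClosed_iInter fun g => isClosed_iInter fun _ =>
      isClosed_eq ?_ continuous_const)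
    exact (ivq_cont _ _ d).comp (continuous_const.mul continuous_id)
  have hRG : GP G ≤ R := by
    refine Subgroup.topologicalClosure_minimal _ ((Subgroup.closure_le _).2 ?_) hRc
    rintro _ ⟨x, hx, rfl⟩
    exact ⟨eu_mem hx, fun g hg => ivq_eu hG hH hL hC d hg hx⟩
  have h1 := (hRG hk).2 1 G.one_mem
  rw [one_mul] at h1
  have h2 : gam (1 : (Alg N)ˣ) = 1 := by
    have h3 : Orth (1 : (Alg N)ˣ) := fun i => by
      show (1 : Matrix (Fin (N i)) (Fin (N i)) ℝ)ᵀ * 1 = 1
      rw [Matrix.transpose_one, Matrix.one_mul]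
    rw [gam_orth h3, cpu_val]
    show cx (N2 N) (cp (1 : Alg N) 0) = 1
    rw [cp_one, map_one]
  unfold ivq at h1
  rw [h2, gam_orth ho, kp_cx, kp_one, Matrix.mul_one, ← Matrix.map_mul, ← Matrix.map_mul,
    ← Matrix.map_mul] at h1
  exact Matrix.map_injective Complex.ofReal_injective h1

end Pool.Agent.MP_417c68_gt
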