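import Mathlib

/-!
# MP_417c68_gt, project T, module Kp: Kronecker powers

Text: `/team-store/TEXT_417c68_T.md`, section 1.

PROOFS.  `kp_mul`: `Finset.prod_univ_sum` (product of sums over `Fin d → κ`; `Fintype.piFinset`).
`kp_one`: `∏ r, (1 : Matrix) (a r) (b r) = if a = b then 1 else 0`.
-/

noncomputable section

namespace Pool.Agent.MP_417c68_gt

open Matrix

variable {κ : Type} [Fintype κ] [DecidableEq κ] {R : Type} [CommRing R]

/-- the `d`-th Kronecker power of a matrix -/
def kp (d : ℕ) (A : Matrix κ κ R) : Matrix (Fin d → κ) (Fin d → κ) R :=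
  fun a b => ∏ r, A (a r) (b r)

theorem kp_mul (d : ℕ) (A B : Matrix κ κ R) : kp d (A * B) = kp d A * kp d B := by
  funext a b
  change ∏ r, (A * B) (a r) (b r) = ∑ c, kp d A a c * kp d B c b
  simp only [Matrix.mul_apply, kp]
  rw [Finset.prod_univ_sum, Fintype.piFinset_univ]
  exact Finset.sum_congr rfl fun c _ => Finset.prod_mul_distrib

theorem kp_one (d : ℕ) : kp d (1 : Matrix κ κ R) = 1 := by
  funext a b
  change ∏ r, (1 : Matrix κ κ R) (a r) (b r) = (1 : Matrix (Fin d → κ) (Fin d → κ) R) a b
  simp only [Matrix.one_apply]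
  rw [Finset.prod_ite_zero]
  simp [funext_iff]

theorem kp_map {S : Type} [CommRing S] (f : R →+* S) (d : ℕ) (A : Matrix κ κ R) :
    kp d (A.map f) = (kp d A).map f := by
  funext a b
  change ∏ r, f (A (a r) (b r)) = f (∏ r, A (a r) (b r))
  rw [map_prod]

theorem continuous_kp [TopologicalSpace R] [IsTopologicalRing R] (d : ℕ) :
    Continuous (kp d : Matrix κ κ R → _) := by
  refine continuous_matrix fun a b => ?_
  exact continuous_finsetProd _ fun r _ => continuous_id.matrix_elem _ _

end Pool.Agent.MP_417c68_gt
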