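import Pool.Agent.Lib.MP_417c68_gt_T.Cp

/-!
# MP_417c68_gt, project T, module Re: real parts

Text: `/team-store/TEXT_417c68_T.md`, section 4.

PROOF.
* All `u ∈ CG V` commute with `cp 0 1` and satisfy `Orth u` and preserve
  `M = {cp A B | A ∈ kV V, B ∈ V}` (a subspace of `Alg (N2 N)`, closed since finite dimensional)
  under
  `cA u` and `cA u⁻¹`: these are closed conditions, true for the generators: `ad (cp 0 v)` maps `M`
  to `M`
  (`[cp 0 v, cp A B] = cp (-(br v B)) (br v A)`, `br v A = -br A v ∈ V` by `kV_br`), so does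
  `Ad (exp (cp 0 v))` (power series / differential equation; compare `LTS.ex_mem_sub` in
  `MP_417c68_gt_P/B/Cpt.lean`, or `conj_deriv` in `MP_417c68_gt/Lie.lean`; the operator
  `X ↦ cA (eu (t • Y)) X` on the finite dimensional space `Alg (N2 N)` is `exp (t • ad Y)`; one can
  also
  argue with the quotient: for `f` linear vanishing on `M`, all derivatives of
  `t ↦ f (cA (eu (t • Y)) X)` at `0` vanish).
* `α ∈ lie (CG V)`: differentiate at `t = 0`: `α` commutes with `cp 0 1` (`cp_comm`), is skew,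
  `br α Y ∈ M` for `Y ∈ M`.  With `α = cp a b`, `Y = cp 0 v`:
  `br (cp a b) (cp 0 v) = cp (-(br b v)) (br a v)`, so `br a v ∈ V` (`cp_inj`).
-/

noncomputable section

namespace Pool.Agent.MP_417c68_gt

open Matrix NormedSpace

open Filter Topology

section general

variable {𝔸 : Type*} [NormedRing 𝔸] [NormedAlgebra ℝ 𝔸] [CompleteSpace 𝔸]

omit [CompleteSpace 𝔸] in
private theorem re_pow_it {F : 𝔸 →L[ℝ] 𝔸} (x : 𝔸) (k : ℕ) : (F ^ k) x = (fun z => F z)^[k] x := by
  induction k with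
  | zero => rfl
  | succ k ih =>
    rw [pow_succ', Function.iterate_succ_apply', ← ih]
    rfl

private theorem re_opSum (F : 𝔸 →L[ℝ] 𝔸) (x : 𝔸) :
    HasSum (fun k : ℕ => ((k.factorial : ℝ)⁻¹) • (fun z => F z)^[k] x) (exp F x) := by
  have h1 := (exp_series_hasSum_exp' (𝕂 := ℝ) F).mapL (ContinuousLinearMap.apply ℝ 𝔸 x)
  have h2 : (fun k : ℕ => (ContinuousLinearMap.apply ℝ 𝔸 x) (((k.factorial : ℝ)⁻¹) • F ^ k)) =
      fun k : ℕ => ((k.factorial : ℝ)⁻¹) • (fun z => F z)^[k] x := by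
    funext k
    rw [← re_pow_it]
    rfl
  rw [h2] at h1
  exact h1

private theorem re_mulL (y x : 𝔸) : exp (ContinuousLinearMap.mul ℝ 𝔸 y) x = exp y * x := by
  have h1 := re_opSum (ContinuousLinearMap.mul ℝ 𝔸 y) x
  have h2 := (exp_series_hasSum_exp' (𝕂 := ℝ) y).mul_right x
  have h3 : (fun k : ℕ => ((k.factorial : ℝ)⁻¹) •
      (fun z => ContinuousLinearMap.mul ℝ 𝔸 y z)^[k] x) =
      fun k : ℕ => ((k.factorial : ℝ)⁻¹) • y ^ k * x := by
    funext k
    rw [smul_mul_assoc]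
    congr 1
    induction k with
    | zero => rw [pow_zero, one_mul]; rfl
    | succ k ih =>
      rw [Function.iterate_succ_apply', ih, pow_succ', mul_assoc]
      rfl
  rw [h3] at h1
  exact h1.unique h2

private theorem re_mulR (y x : 𝔸) :
    exp (-(ContinuousLinearMap.mul ℝ 𝔸).flip y) x = x * exp (-y) := by
  have h1 := re_opSum (-(ContinuousLinearMap.mul ℝ 𝔸).flip y) x
  have h2 := (exp_series_hasSum_exp' (𝕂 := ℝ) (-y)).mul_left x
  have h3 : (fun k : ℕ => ((k.factorial : ℝ)⁻¹) •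
      (fun z => (-(ContinuousLinearMap.mul ℝ 𝔸).flip y) z)^[k] x) =
      fun k : ℕ => x * (((k.factorial : ℝ)⁻¹) • (-y) ^ k) := by
    funext k
    rw [mul_smul_comm]
    congr 1
    induction k with
    | zero => rw [pow_zero, mul_one]; rfl
    | succ k ih =>
      rw [Function.iterate_succ_apply', ih, pow_succ, ← mul_assoc]
      show -(x * (-y) ^ k * y) = _
      rw [mul_neg]
  rw [h3] at h1
  exact h1.unique h2

omit [CompleteSpace 𝔸] in
private theorem re_comm (y : 𝔸) : Commute (ContinuousLinearMap.mul ℝ 𝔸 y)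
    (-(ContinuousLinearMap.mul ℝ 𝔸).flip y) := by
  refine ContinuousLinearMap.ext fun z => ?_
  show y * -(z * y) = -(y * z * y)
  rw [mul_neg, mul_assoc]

private theorem re_gen (y x : 𝔸) :
    HasSum (fun k : ℕ => ((k.factorial : ℝ)⁻¹) • (fun z => y * z - z * y)^[k] x)
      (exp y * x * exp (-y)) := by
  let _ : NormedAlgebra ℚ (𝔸 →L[ℝ] 𝔸) := NormedAlgebra.restrictScalars ℚ ℝ (𝔸 →L[ℝ] 𝔸)
  have h1 := re_opSum (ContinuousLinearMap.mul ℝ 𝔸 y + -(ContinuousLinearMap.mul ℝ 𝔸).flip y) x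
  rw [exp_add_of_commute (re_comm y)] at h1
  have h2 : (exp (ContinuousLinearMap.mul ℝ 𝔸 y) * exp (-(ContinuousLinearMap.mul ℝ 𝔸).flip y)) x =
      exp y * x * exp (-y) := by
    show exp (ContinuousLinearMap.mul ℝ 𝔸 y) (exp (-(ContinuousLinearMap.mul ℝ 𝔸).flip y) x) = _
    rw [re_mulR, re_mulL, mul_assoc]
  rw [h2] at h1
  have h3 : (fun z => (ContinuousLinearMap.mul ℝ 𝔸 y + -(ContinuousLinearMap.mul ℝ 𝔸).flip y) z) =
      fun z => y * z - z * y := by
    funext z
    show y * z + -(z * y) = _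
    rw [sub_eq_add_neg]
  rw [h3] at h1
  exact h1

end general

set_option backward.isDefEq.respectTransparency false in
private theorem re_mat {m : ℕ} (Y X : Matrix (Fin m) (Fin m) ℝ) :
    HasSum (fun k : ℕ => ((k.factorial : ℝ)⁻¹) • (fun z => Y * z - z * Y)^[k] X)
      (exp Y * X * exp (-Y)) := by
  open scoped Norms.Operator in
  exact re_gen Y X

variable {n : ℕ} {N : Fin n → ℕ}

private theorem re_it (Y X : Alg N) (k : ℕ) (i : Fin n) :
    ((fun z => br Y z)^[k] X) i = (fun z => Y i * z - z * Y i)^[k] (X i) := by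
  induction k with
  | zero => rfl
  | succ k ih =>
    rw [Function.iterate_succ_apply', Function.iterate_succ_apply', ← ih]
    rfl

private theorem re_alg (Y X : Alg N) :
    HasSum (fun k : ℕ => ((k.factorial : ℝ)⁻¹) • (fun z => br Y z)^[k] X) (cA (eu Y) X) := by
  rw [Pi.hasSum]
  intro i
  have h := re_mat (Y i) (X i)
  have h2 : (fun k : ℕ => ((k.factorial : ℝ)⁻¹) • (fun z => Y i * z - z * Y i)^[k] (X i)) =
      fun k : ℕ => (((k.factorial : ℝ)⁻¹) • (fun z => br Y z)^[k] X) i := by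
    funext k
    rw [← re_it]
    rfl
  rw [h2] at h
  exact h

/-- a subspace which is stable under `br Y` is stable under conjugation by `exp Y` -/
private theorem re_stab {W : Submodule ℝ (Alg N)} {Y : Alg N} (h : ∀ X ∈ W, br Y X ∈ W)
    {X : Alg N} (hX : X ∈ W) : cA (eu Y) X ∈ W := by
  have hp : ∀ k : ℕ, (fun z => br Y z)^[k] X ∈ W := by
    intro k
    induction k with
    | zero => exact hX
    | succ k ih =>
      rw [Function.iterate_succ_apply']
      exact h _ ih
  have hcl : IsClosed (W : Set (Alg N)) := W.closed_of_finiteDimensional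
  refine hcl.mem_of_tendsto (re_alg Y X) (Eventually.of_forall fun s => ?_)
  exact W.sum_mem fun k _ => W.smul_mem _ (hp k)

private theorem re_fix {Y X : Alg N} (h : br Y X = 0) : cA (eu Y) X = X := by
  have h1 := re_alg Y X
  have h2 : HasSum (fun k : ℕ => ((k.factorial : ℝ)⁻¹) • (fun z => br Y z)^[k] X)
      (((Nat.factorial 0 : ℕ) : ℝ)⁻¹ • (fun z => br Y z)^[0] X) := by
    refine hasSum_single 0 fun k hk => ?_
    obtain ⟨l, rfl⟩ := Nat.exists_eq_succ_of_ne_zero hk
    have h3 : ∀ l : ℕ, (fun z => br Y z)^[l + 1] X = 0 := by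
      intro l
      induction l with
      | zero => exact h
      | succ l ih =>
        rw [Function.iterate_succ_apply', ih]
        show Y * 0 - 0 * Y = 0
        rw [mul_zero, zero_mul, sub_zero]
    rw [h3 l, smul_zero]
  rw [h1.unique h2, Nat.factorial_zero, Nat.cast_one, inv_one, one_smul]
  rfl

set_option backward.isDefEq.respectTransparency false in
private theorem re_conj_deriv {m : ℕ} (X Y : Matrix (Fin m) (Fin m) ℝ) :
    Tendsto (fun s : ℝ => s⁻¹ • (exp (s • X) * Y * exp (-(s • X)) - Y)) (𝓝[≠] 0)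
      (𝓝 (X * Y - Y * X)) := by
  open scoped Norms.Operator in
  have hX : HasDerivAt (fun s : ℝ => exp (s • X)) X 0 := by
    have := hasDerivAt_exp_smul_const (𝕂 := ℝ) X 0
    simpa using this
  have hX2 : HasDerivAt (fun s : ℝ => exp (s • (-X))) (-X) 0 := by
    have := hasDerivAt_exp_smul_const (𝕂 := ℝ) (-X) 0
    simpa using this
  have hF : HasDerivAt (fun s : ℝ => exp (s • X) * Y * exp (s • (-X))) (X * Y - Y * X) 0 := by
    refine ((hX.mul_const Y).mul hX2).congr_deriv ?_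
    simp [sub_eq_add_neg]
  rw [hasDerivAt_iff_tendsto_slope_zero] at hF
  refine hF.congr fun s => ?_
  simp

private theorem re_tendsto (X Y : Alg N) :
    Tendsto (fun s : ℝ => s⁻¹ • (cA (eu (s • X)) Y - Y)) (𝓝[≠] 0) (𝓝 (br X Y)) := by
  rw [tendsto_pi_nhds]
  intro j
  exact re_conj_deriv (X j) (Y j)

private theorem re_br_mem {W : Submodule ℝ (Alg N)} {X Y : Alg N} (hY : Y ∈ W)
    (h : ∀ t : ℝ, cA (eu (t • X)) Y ∈ W) : br X Y ∈ W := by
  have hcl : IsClosed (W : Set (Alg N)) := W.closed_of_finiteDimensional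
  exact hcl.mem_of_tendsto (re_tendsto X Y) (Eventually.of_forall fun s =>
    W.smul_mem _ (W.sub_mem (h s) hY))

set_option backward.isDefEq.respectTransparency false in
private theorem re_exp_deriv {m : ℕ} (X : Matrix (Fin m) (Fin m) ℝ) :
    Tendsto (fun s : ℝ => s⁻¹ • (exp (s • X) - 1)) (𝓝[≠] 0) (𝓝 X) := by
  open scoped Norms.Operator in
  have hX : HasDerivAt (fun s : ℝ => exp (s • X)) X 0 := by
    have := hasDerivAt_exp_smul_const (𝕂 := ℝ) X 0
    simpa using this
  rw [hasDerivAt_iff_tendsto_slope_zero] at hX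
  refine hX.congr fun s => ?_
  simp

private theorem re_skew {X : Alg N} (h : ∀ t : ℝ, Orth (eu (t • X))) (i : Fin n) :
    (X i)ᵀ = -(X i) := by
  have h1 : ∀ t : ℝ, exp (t • (X i)ᵀ) = exp (t • -(X i)) := by
    intro t
    have h2 : (exp (t • X i))ᵀ * exp (t • X i) = 1 := h t i
    have h3 : exp (t • X i) * exp (-(t • X i)) = 1 := (congrFun (eu (t • X)).val_inv i)
    rw [← Matrix.transpose_smul, Matrix.exp_transpose, smul_neg]
    calc (exp (t • X i))ᵀ = (exp (t • X i))ᵀ * (exp (t • X i) * exp (-(t • X i))) := by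
          rw [h3, Matrix.mul_one]
      _ = exp (-(t • X i)) := by rw [← Matrix.mul_assoc, h2, Matrix.one_mul]
  have h4 := re_exp_deriv (X i)ᵀ
  have h5 := re_exp_deriv (-(X i))
  simp only [h1] at h4
  exact tendsto_nhds_unique h4 h5

/-! ### the group `CG V` -/

variable {V : Submodule ℝ (Alg N)}

/-- the Lie algebra `[V, V] + i V` -/
private def reM (V : Submodule ℝ (Alg N)) : Submodule ℝ (Alg (N2 N)) where
  carrier := {Y | ∃ A ∈ kV V, ∃ B ∈ V, Y = cp A B}
  add_mem' := by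
    rintro _ _ ⟨A, hA, B, hB, rfl⟩ ⟨A', hA', B', hB', rfl⟩
    exact ⟨A + A', (kV V).add_mem hA hA', B + B', V.add_mem hB hB', cp_add _ _ _ _⟩
  zero_mem' := by
    refine ⟨0, (kV V).zero_mem, 0, V.zero_mem, ?_⟩
    have h := cp_smul (0 : ℝ) (0 : Alg N) 0
    rw [zero_smul, zero_smul] at h
    exact h
  smul_mem' := by
    rintro c _ ⟨A, hA, B, hB, rfl⟩
    exact ⟨c • A, (kV V).smul_mem c hA, c • B, V.smul_mem c hB, cp_smul _ _ _⟩

private theorem re_brM (hV : Trp V) {v : Alg N} (hv : v ∈ V) {Y : Alg (N2 N)} (hY : Y ∈ reM V) :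
    br (cp 0 v) Y ∈ reM V := by
  obtain ⟨A, hA, B, hB, rfl⟩ := hY
  refine ⟨br B v, Submodule.subset_span ⟨B, hB, v, hv, rfl⟩, -(br A v),
    V.neg_mem (kV_br hV hA hv), ?_⟩
  unfold br
  rw [cp_mul, cp_mul, cp_sub]
  congr 1
  · simp only [zero_mul, mul_zero, zero_sub, sub_neg_eq_add]
    abel
  · simp only [zero_mul, mul_zero, zero_add, add_zero, neg_sub]

/-- the closed subgroup of the elements which commute with `i` and preserve `[V, V] + i V` -/
private def reA (V : Submodule ℝ (Alg N)) : Subgroup (Alg (N2 N))ˣ where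
  carrier := {u | cA u (cp 0 1) = cp 0 1 ∧ (∀ X ∈ reM V, cA u X ∈ reM V) ∧
    ∀ X ∈ reM V, cA u⁻¹ X ∈ reM V}
  one_mem' := by
    have h : ∀ X : Alg (N2 N), cA 1 X = X := fun X => by
      unfold cA
      rw [inv_one]
      simp
    refine ⟨h _, fun X hX => by rwa [h], fun X hX => by rwa [inv_one, h]⟩
  mul_mem' := by
    rintro u u' ⟨h1, h2, h3⟩ ⟨h1', h2', h3'⟩
    have h : ∀ (u u' : (Alg (N2 N))ˣ) (X : Alg (N2 N)), cA (u * u') X = cA u (cA u' X) := by
      intro u u' X
      unfold cA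
      rw [_root_.mul_inv_rev, Units.val_mul, Units.val_mul]
      simp only [mul_assoc]
    refine ⟨by rw [h, h1', h1], fun X hX => ?_, fun X hX => ?_⟩
    · rw [h]
      exact h2 _ (h2' _ hX)
    · rw [_root_.mul_inv_rev, h]
      exact h3' _ (h3 _ hX)
  inv_mem' := by
    rintro u ⟨h1, h2, h3⟩
    refine ⟨?_, h3, by rwa [inv_inv]⟩
    nth_rw 1 [← h1]
    unfold cA
    rw [inv_inv]
    have e : (u⁻¹).1 * (u.1 * cp 0 1 * (u⁻¹).1) * u.1 = (u⁻¹).1 * u.1 * cp 0 1 *
        ((u⁻¹).1 * u.1) := by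
      simp only [mul_assoc]
    rw [e, Units.inv_mul, one_mul, mul_one]

private theorem re_cA_cont (X : Alg N) : Continuous fun u : (Alg N)ˣ => cA u X :=
  (Units.continuous_val.mul continuous_const).mul
    (Units.continuous_val.comp continuous_inv)

private theorem reA_closed (V : Submodule ℝ (Alg N)) :
    IsClosed (reA V : Set (Alg (N2 N))ˣ) := by
  have hcl : IsClosed (reM V : Set (Alg (N2 N))) := (reM V).closed_of_finiteDimensional
  have h1 : (reA V : Set (Alg (N2 N))ˣ) = {u | cA u (cp 0 1) = cp 0 1} ∩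
      ((⋂ X ∈ reM V, {u | cA u X ∈ reM V}) ∩ ⋂ X ∈ reM V, {u | cA u⁻¹ X ∈ reM V}) := by
    ext u
    simp only [Set.mem_inter_iff, Set.mem_iInter, Set.mem_ofPred_eq]
    rfl
  rw [h1]
  refine (isClosed_eq (re_cA_cont _) continuous_const).inter (IsClosed.inter ?_ ?_)
  · exact isClosed_biInter fun X _ => hcl.preimage (re_cA_cont X)
  · exact isClosed_biInter fun X _ => hcl.preimage ((re_cA_cont X).comp continuous_inv)

private theorem re_CG_le (hV : Trp V) : CG V ≤ reA V := by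
  refine CG_le (reA_closed V) fun v hv => ⟨?_, fun X hX => ?_, fun X hX => ?_⟩
  · refine re_fix ?_
    unfold br
    rw [cp_mul, cp_mul, cp_sub]
    have h := cp_smul (0 : ℝ) (0 : Alg N) 0
    rw [zero_smul, zero_smul] at h
    rw [h]
    congr 1
    · simp
    · simp
  · exact re_stab (fun X hX => re_brM hV hv hX) hX
  · rw [← eu_neg]
    have e : -cp 0 v = cp 0 (-v) := by
      rw [cp_neg, neg_zero]
    rw [e]
    exact re_stab (fun X hX => re_brM hV (V.neg_mem hv) hX) hX

theorem re_part {V : Submodule ℝ (Alg N)} (hV : Trp V) {α : Alg (N2 N)} (hα : α ∈ lie (CG V)) :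
    ∃ a b : Alg N, α = cp a b ∧ (∀ i, (a i)ᵀ = -(a i)) ∧ ∀ v ∈ V, br a v ∈ V := by
  have h1 : ∀ t : ℝ, eu (t • α) ∈ reA V := fun t => re_CG_le hV (hα t)
  have h2 : br α (cp 0 1) = 0 := by
    have h3 := re_tendsto α (cp 0 1)
    have h4 : (fun s : ℝ => s⁻¹ • (cA (eu (s • α)) (cp 0 1) - cp 0 1)) = fun _ => 0 := by
      funext s
      rw [(h1 s).1, sub_self, smul_zero]
    rw [h4] at h3
    exact tendsto_nhds_unique h3 tendsto_const_nhds
  obtain ⟨a, b, hab⟩ := cp_comm (sub_eq_zero.1 h2)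
  refine ⟨a, b, hab, fun i => ?_, fun v hv => ?_⟩
  · have h3 : ∀ i, (α i)ᵀ = -(α i) := re_skew fun t => CG_orth hV.sym _ (hα t)
    have h4 : cp (fun i => (a i)ᵀ) (fun i => -(b i)ᵀ) = cp (-a) (-b) := by
      funext i
      rw [← cp_transpose, ← cp_neg, ← hab, h3 i]
      rfl
    exact congrFun (cp_inj h4).1 i
  · have h3 : cp 0 v ∈ reM V := ⟨0, (kV V).zero_mem, v, hv, rfl⟩
    obtain ⟨A, hA, B, hB, h4⟩ := re_br_mem h3 fun t => (h1 t).2.1 _ h3
    rw [hab] at h4
    unfold br at h4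
    rw [cp_mul, cp_mul, cp_sub] at h4
    have h5 := (cp_inj h4).2
    have h6 : br a v = B := by
      rw [← h5]
      unfold br
      simp
    rw [h6]
    exact hB

end Pool.Agent.MP_417c68_gt
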