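import Pool.Agent.Lib.MP_417c68_gt_T.Avg

/-!
# MP_417c68_gt, project T, module Sw: Stone-Weierstrass and separation

Text: `/team-store/TEXT_417c68_T.md`, section 2, (A4)-(A5).

PROOF.  `I g F := mn A (fun l => mn B fun h => F (l⁻¹ * g * h).1)` for `F : Alg N → ℝ` continuous.
* `I k F = I 1 F` for `F X = kp d (bd N X) a b` by hypothesis, hence for all `F` in the subalgebra
  `Algebra.adjoin ℝ` of the coordinate functions `X ↦ bd N X a b` (or `X ↦ X i a b`): it is the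
  span of the
  products of coordinates (`Algebra.adjoin_eq_span`, `Submonoid.closure`): every product of
  coordinates is an
  entry of some `kp d (bd N X)` (induction on the length), `I` is linear.
* Stone-Weierstrass on the compact space `{X : Alg N | ∀ i, (X i)ᵀ * X i = 1}`
  (`ContinuousMap.subalgebra_topologicalClosure_eq_top_of_separatesPoints`), all arguments
  `(l⁻¹ * k * h).1`, `(l⁻¹ * h).1` lie in it; so `I k F = I 1 F` for all continuous `F`
  (`mn_le` gives the estimate; `mn_continuous` for the inner integral).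
* If `k` is not in `A B`: `D X = ∑ i, fr (X i - k.1 i)` is continuous and positive on the compact
  set `A B`,
  so `D ≥ δ > 0` there; `F = max 0 (δ - D)`: `I 1 F = 0`, `I k F > 0` (`mn_pos` twice; the inner
  integral is
  continuous, nonnegative, and positive at `l = 1`).
-/

noncomputable section

namespace Pool.Agent.MP_417c68_gt

open Matrix NormedSpace

variable {n : ℕ} {N : Fin n → ℕ} {A B : Subgroup (Alg N)ˣ}

private theorem sw_sq {u : (Alg N)ˣ} (hu : Orth u) :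
    ∑ a, ∑ b, (bd N u.1 a b) ^ 2 = (Fintype.card (Kx N) : ℝ) := by
  have h1 : (bd N u.1)ᵀ * bd N u.1 = 1 := by
    have h2 : (bd N u.1)ᵀ = bd N (fun i => (u.1 i)ᵀ) := Matrix.blockDiagonal'_transpose _
    rw [h2, ← map_mul]
    have h3 : (fun i => (u.1 i)ᵀ) * u.1 = (1 : Alg N) := funext fun i => hu i
    rw [h3, map_one]
  have h4 := congrArg Matrix.trace h1
  rw [Matrix.trace_one] at h4
  rw [← h4, Matrix.trace]
  simp only [Matrix.diag_apply, Matrix.mul_apply, Matrix.transpose_apply]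
  rw [Finset.sum_comm]
  exact Finset.sum_congr rfl fun b _ => Finset.sum_congr rfl fun a _ => pow_two _

private def sw_T (k u : (Alg N)ˣ) : ℝ := ∑ a, ∑ b, bd N k.1 a b * bd N u.1 a b

private theorem sw_cont_elem (a b : Kx N) : Continuous fun u : (Alg N)ˣ => bd N u.1 a b :=
  (continuous_bd.comp Units.continuous_val).matrix_elem a b

private theorem sw_cont_kp (d : ℕ) (a b : Fin d → Kx N) :
    Continuous fun u : (Alg N)ˣ => kp d (bd N u.1) a b :=
  ((continuous_kp d).comp (continuous_bd.comp Units.continuous_val)).matrix_elem a b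

private theorem sw_T_cont (k : (Alg N)ˣ) : Continuous (sw_T k) :=
  continuous_finsetSum _ fun a _ => continuous_finsetSum _ fun b _ =>
    continuous_const.mul (sw_cont_elem a b)

private theorem sw_T_self {k : (Alg N)ˣ} (ho : Orth k) :
    sw_T k k = (Fintype.card (Kx N) : ℝ) := by
  rw [← sw_sq ho]
  exact Finset.sum_congr rfl fun b _ => Finset.sum_congr rfl fun a _ => (pow_two _).symm

private theorem sw_diff {k u : (Alg N)ˣ} (ho : Orth k) (hu : Orth u) (s : ℝ) (hs : s ^ 2 = 1) :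
    ∑ a, ∑ b, (bd N k.1 a b + s * bd N u.1 a b) ^ 2 =
      2 * (Fintype.card (Kx N) : ℝ) + 2 * s * sw_T k u := by
  have h1 : ∀ a b, (bd N k.1 a b + s * bd N u.1 a b) ^ 2 =
      (bd N k.1 a b) ^ 2 + (bd N u.1 a b) ^ 2 + 2 * s * (bd N k.1 a b * bd N u.1 a b) := by
    intro a b
    linear_combination (bd N u.1 a b) ^ 2 * hs
  simp only [h1, Finset.sum_add_distrib, ← Finset.mul_sum]
  rw [sw_sq ho, sw_sq hu]
  change _ + _ + 2 * s * sw_T k u = _
  ring

private theorem sw_T_le {k u : (Alg N)ˣ} (ho : Orth k) (hu : Orth u) :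
    sw_T k u ≤ (Fintype.card (Kx N) : ℝ) := by
  have h1 := sw_diff ho hu (-1) (by norm_num)
  have h2 : 0 ≤ ∑ a, ∑ b, (bd N k.1 a b + -1 * bd N u.1 a b) ^ 2 :=
    Finset.sum_nonneg fun a _ => Finset.sum_nonneg fun b _ => sq_nonneg _
  linarith

private theorem sw_T_ge {k u : (Alg N)ˣ} (ho : Orth k) (hu : Orth u) :
    -(Fintype.card (Kx N) : ℝ) ≤ sw_T k u := by
  have h1 := sw_diff ho hu 1 (by norm_num)
  have h2 : 0 ≤ ∑ a, ∑ b, (bd N k.1 a b + 1 * bd N u.1 a b) ^ 2 :=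
    Finset.sum_nonneg fun a _ => Finset.sum_nonneg fun b _ => sq_nonneg _
  linarith

private theorem sw_T_eq {k u : (Alg N)ˣ} (ho : Orth k) (hu : Orth u)
    (h : sw_T k u = (Fintype.card (Kx N) : ℝ)) : k = u := by
  have h1 := sw_diff ho hu (-1) (by norm_num)
  rw [h] at h1
  have h2 : ∑ a, ∑ b, (bd N k.1 a b + -1 * bd N u.1 a b) ^ 2 = 0 := by
    rw [h1]
    ring
  rw [Finset.sum_eq_zero_iff_of_nonneg
    fun a _ => Finset.sum_nonneg fun b _ => sq_nonneg _] at h2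
  refine Units.ext (funext fun i => Matrix.ext fun a b => ?_)
  have h3 := h2 ⟨i, a⟩ (Finset.mem_univ _)
  rw [Finset.sum_eq_zero_iff_of_nonneg fun b _ => sq_nonneg _] at h3
  have h4 := h3 ⟨i, b⟩ (Finset.mem_univ _)
  rw [bd_apply, bd_apply] at h4
  have h5 : k.1 i a b + -1 * u.1 i a b = 0 := pow_eq_zero_iff (two_ne_zero) |>.1 h4
  linarith

private theorem sw_T_pow (k u : (Alg N)ˣ) (d : ℕ) :
    (sw_T k u) ^ d = ∑ p : (Fin d → Kx N) × (Fin d → Kx N),
      kp d (bd N k.1) p.1 p.2 * kp d (bd N u.1) p.1 p.2 := by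
  have h1 : sw_T k u = ∑ q : Kx N × Kx N, bd N k.1 q.1 q.2 * bd N u.1 q.1 q.2 :=
    (Fintype.sum_prod_type' _).symm
  have h2 : (sw_T k u) ^ d = ∏ _r : Fin d, sw_T k u := by
    rw [Finset.prod_const, Finset.card_univ, Fintype.card_fin]
  rw [h2, h1, Finset.prod_univ_sum, Fintype.piFinset_univ]
  refine Fintype.sum_equiv
    (Equiv.arrowProdEquivProdArrow (Fin d) (fun _ => Kx N) (fun _ => Kx N)) _ _ fun x => ?_
  exact Finset.prod_mul_distrib

private theorem sw_lin (hA : IsCompact (A : Set (Alg N)ˣ)) (hB : IsCompact (B : Set (Alg N)ˣ))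
    (g : (Alg N)ˣ) {ι : Type} (s : Finset ι) (c : ι → ℝ) (f : ι → (Alg N)ˣ → ℝ)
    (hf : ∀ i, Continuous (f i)) :
    mn A (fun l => mn B fun h => ∑ i ∈ s, c i * f i (l⁻¹ * g * h)) =
      ∑ i ∈ s, c i * mn A (fun l => mn B fun h => f i (l⁻¹ * g * h)) := by
  have hin : (fun l : (Alg N)ˣ => mn B fun h => ∑ i ∈ s, c i * f i (l⁻¹ * g * h)) =
      fun l => ∑ i ∈ s, c i * mn B fun h => f i (l⁻¹ * g * h) := by
    funext l
    rw [mn_sum hB s (f := fun i h => c i * f i (l⁻¹ * g * h))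
      (fun i => continuous_const.mul ((hf i).comp (continuous_const.mul continuous_id)))]
    exact Finset.sum_congr rfl fun i _ => mn_smul hB _ _
  have hc : ∀ i, Continuous fun l : (Alg N)ˣ => mn B fun h => f i (l⁻¹ * g * h) := fun i =>
    mn_continuous hB (F := fun l h => f i (l⁻¹ * g * h))
      ((hf i).comp ((continuous_fst.inv.mul continuous_const).mul continuous_snd))
  rw [hin, mn_sum hA s (f := fun i l => c i * mn B fun h => f i (l⁻¹ * g * h))
    (fun i => continuous_const.mul (hc i))]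
  exact Finset.sum_congr rfl fun i _ => mn_smul hA _ _

private theorem sw_pow (hA : IsCompact (A : Set (Alg N)ˣ)) (hB : IsCompact (B : Set (Alg N)ˣ))
    (k g : (Alg N)ˣ) (d : ℕ) :
    mn A (fun l => mn B fun h => (sw_T k (l⁻¹ * g * h)) ^ d) =
      ∑ p : (Fin d → Kx N) × (Fin d → Kx N), kp d (bd N k.1) p.1 p.2 *
        (PL A d * kp d (bd N g.1) * PR B d) p.1 p.2 := by
  simp only [sw_T_pow]
  rw [sw_lin hA hB g Finset.univ
    (fun p : (Fin d → Kx N) × (Fin d → Kx N) => kp d (bd N k.1) p.1 p.2)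
    (fun p u => kp d (bd N u.1) p.1 p.2) (fun p => sw_cont_kp d p.1 p.2)]
  exact Finset.sum_congr rfl fun p _ => by rw [dm_kp hA hB]

private theorem sw_poly (hA : IsCompact (A : Set (Alg N)ˣ)) (hB : IsCompact (B : Set (Alg N)ˣ))
    {k : (Alg N)ˣ} (h : ∀ d, PL A d * kp d (bd N k.1) * PR B d = PL A d * PR B d)
    (p : Polynomial ℝ) :
    mn A (fun l => mn B fun h => p.eval (sw_T k (l⁻¹ * k * h))) =
      mn A (fun l => mn B fun h => p.eval (sw_T k (l⁻¹ * 1 * h))) := by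
  simp only [Polynomial.eval_eq_sum_range]
  rw [sw_lin hA hB k (Finset.range (p.natDegree + 1)) (fun i => p.coeff i)
      (fun i u => (sw_T k u) ^ i) (fun i => (sw_T_cont k).pow i),
    sw_lin hA hB 1 (Finset.range (p.natDegree + 1)) (fun i => p.coeff i)
      (fun i u => (sw_T k u) ^ i) (fun i => (sw_T_cont k).pow i)]
  refine Finset.sum_congr rfl fun i _ => ?_
  rw [sw_pow hA hB k k i, sw_pow hA hB k 1 i, h i, Units.val_one, map_one, kp_one, mul_one]

private theorem sw_zero {K : Subgroup (Alg N)ˣ} (hK : IsCompact (K : Set (Alg N)ˣ)) :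
    mn K (fun _ => 0) = 0 := by
  have h1 := mn_smul hK (fun _ => (0 : ℝ)) 0
  simpa using h1

theorem sw (hA : IsCompact (A : Set (Alg N)ˣ)) (hB : IsCompact (B : Set (Alg N)ˣ))
    (oA : ∀ a ∈ A, Orth a) (oB : ∀ b ∈ B, Orth b) {k : (Alg N)ˣ} (ho : Orth k)
    (h : ∀ d, PL A d * kp d (bd N k.1) * PR B d = PL A d * PR B d) :
    ∃ l ∈ A, ∃ b ∈ B, k = l * b := by
  by_contra hno
  obtain ⟨n₀, hn₀⟩ : ∃ n₀ : ℝ, n₀ = Fintype.card (Kx N) := ⟨_, rfl⟩
  have hcm : Continuous fun q : (Alg N)ˣ × (Alg N)ˣ => sw_T k (q.1⁻¹ * 1 * q.2) :=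
    (sw_T_cont k).comp ((continuous_fst.inv.mul continuous_const).mul continuous_snd)
  obtain ⟨⟨l₀, b₀⟩, hlb, hmax⟩ := (hA.prod hB).exists_isMaxOn
    ⟨(1, 1), Set.mk_mem_prod A.one_mem B.one_mem⟩ hcm.continuousOn
  have hl₀ : l₀ ∈ A := hlb.1
  have hb₀ : b₀ ∈ B := hlb.2
  have oS : ∀ l ∈ A, ∀ b ∈ B, ∀ g, Orth g → Orth (l⁻¹ * g * b) := fun l hl b hb g hg =>
    orth_mul (orth_mul (orth_inv (oA l hl)) hg) (oB b hb)
  have o1 : Orth (1 : (Alg N)ˣ) := oA 1 A.one_mem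
  have hlt : sw_T k (l₀⁻¹ * 1 * b₀) < n₀ := by
    refine lt_of_le_of_ne ?_ fun he => ?_
    · rw [hn₀]
      exact sw_T_le ho (oS _ hl₀ _ hb₀ _ o1)
    · rw [hn₀] at he
      have h1 := sw_T_eq ho (oS _ hl₀ _ hb₀ _ o1) he
      exact hno ⟨l₀⁻¹, A.inv_mem hl₀, b₀, hb₀, by rw [h1, mul_one]⟩
  obtain ⟨m, hm⟩ : ∃ m, m = sw_T k (l₀⁻¹ * 1 * b₀) := ⟨_, rfl⟩
  rw [← hm] at hlt
  have hle : ∀ l ∈ A, ∀ b ∈ B, sw_T k (l⁻¹ * 1 * b) ≤ m := by
    intro l hl b hb
    rw [hm]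
    exact isMaxOn_iff.1 hmax (l, b) (Set.mk_mem_prod hl hb)
  have hint : ∀ g, Orth g → ∀ l ∈ A, ∀ b ∈ B,
      sw_T k (l⁻¹ * g * b) ∈ Set.Icc (-n₀) n₀ := by
    intro g hg l hl b hb
    rw [hn₀]
    exact ⟨sw_T_ge ho (oS _ hl _ hb _ hg), sw_T_le ho (oS _ hl _ hb _ hg)⟩
  obtain ⟨φ, hφ⟩ : ∃ φ : ℝ → ℝ, φ = fun t => max 0 (t - m) := ⟨_, rfl⟩
  have hφc : Continuous φ := by
    rw [hφ]
    exact continuous_const.max (continuous_id.sub continuous_const)
  have hφ0 : ∀ t, 0 ≤ φ t := by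
    intro t
    rw [hφ]
    exact le_max_left _ _
  have hφ1 : ∀ t ≤ m, φ t = 0 := by
    intro t ht
    rw [hφ]
    exact max_eq_left (by linarith)
  have hφ2 : 0 < φ n₀ := by
    rw [hφ]
    exact lt_max_of_lt_right (by linarith)
  have cJ : ∀ (ψ : ℝ → ℝ), Continuous ψ → ∀ g : (Alg N)ˣ,
      Continuous fun q : (Alg N)ˣ × (Alg N)ˣ => ψ (sw_T k (q.1⁻¹ * g * q.2)) :=
    fun ψ hψ g => hψ.comp ((sw_T_cont k).comp
      ((continuous_fst.inv.mul continuous_const).mul continuous_snd))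
  have cI : ∀ (ψ : ℝ → ℝ), Continuous ψ → ∀ g l : (Alg N)ˣ,
      Continuous fun b : (Alg N)ˣ => ψ (sw_T k (l⁻¹ * g * b)) :=
    fun ψ hψ g l => hψ.comp ((sw_T_cont k).comp (continuous_const.mul continuous_id))
  have cO : ∀ (ψ : ℝ → ℝ), Continuous ψ → ∀ g : (Alg N)ˣ,
      Continuous fun l : (Alg N)ˣ => mn B fun b => ψ (sw_T k (l⁻¹ * g * b)) :=
    fun ψ hψ g => mn_continuous hB (F := fun l b => ψ (sw_T k (l⁻¹ * g * b))) (cJ ψ hψ g)
  have hpos : 0 < mn A fun l => mn B fun b => φ (sw_T k (l⁻¹ * k * b)) := by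
    refine mn_pos hA (cO φ hφc k) (fun l _ => ?_) ?_
    · have h1 := mn_le hB (continuous_const (y := (0 : ℝ))) (cI φ hφc k l) fun b _ => hφ0 _
      rwa [sw_zero hB] at h1
    · refine mn_pos hB (cI φ hφc k 1) (fun b _ => hφ0 _) ?_
      rw [inv_one, one_mul, mul_one, sw_T_self ho, ← hn₀]
      exact hφ2
  obtain ⟨V, hV⟩ : ∃ V, V = mn A fun _ => mn B fun _ => 1 := ⟨_, rfl⟩
  have hVp : 0 < V := by
    rw [hV]
    exact mn_pos hA continuous_const (fun _ _ => (mn_one_pos hB).le) (mn_one_pos hB)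
  obtain ⟨J, hJ⟩ : ∃ J, J = mn A fun l => mn B fun b => φ (sw_T k (l⁻¹ * k * b)) := ⟨_, rfl⟩
  rw [← hJ] at hpos
  obtain ⟨p, hp⟩ := exists_polynomial_near_of_continuousOn (-n₀) n₀ φ hφc.continuousOn
    (J / (4 * V)) (by positivity)
  obtain ⟨ε, hε⟩ : ∃ ε, ε = J / (4 * V) := ⟨_, rfl⟩
  rw [← hε] at hp
  obtain ⟨q, hq⟩ : ∃ q : Polynomial ℝ, q = p + Polynomial.C ε := ⟨_, rfl⟩
  have hq1 : ∀ t ∈ Set.Icc (-n₀) n₀, φ t ≤ q.eval t ∧ q.eval t ≤ φ t + 2 * ε := by
    intro t ht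
    have h1 := abs_lt.1 (hp t ht)
    rw [hq, Polynomial.eval_add, Polynomial.eval_C]
    constructor
    · linarith [h1.1, h1.2]
    · linarith [h1.1, h1.2]
  have hqc : Continuous fun t => q.eval t := q.continuous
  have h1 : J ≤ mn A fun l => mn B fun b => q.eval (sw_T k (l⁻¹ * k * b)) := by
    rw [hJ]
    exact mn_le hA (cO φ hφc k) (cO _ hqc k) fun l hl =>
      mn_le hB (cI φ hφc k l) (cI _ hqc k l) fun b hb => (hq1 _ (hint k ho l hl b hb)).1
  rw [sw_poly hA hB h q] at h1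
  have h2 : mn A (fun l => mn B fun b => q.eval (sw_T k (l⁻¹ * 1 * b))) ≤
      mn A (fun _ => mn B fun _ => 2 * ε * 1) := by
    refine mn_le hA (cO _ hqc 1) continuous_const fun l hl =>
      mn_le hB (cI _ hqc 1 l) continuous_const fun b hb => ?_
    have h3 := (hq1 _ (hint 1 o1 l hl b hb)).2
    rw [hφ1 _ (hle l hl b hb)] at h3
    linarith
  have h3 : mn A (fun _ => mn B fun _ => 2 * ε * 1) = 2 * ε * V := by
    rw [mn_smul hB (fun _ => 1) (2 * ε), mn_smul hA (fun _ => mn B fun _ => 1) (2 * ε), hV]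
  have h4 : 2 * ε * V = J / 2 := by
    rw [hε]
    field_simp
    norm_num
  linarith

end Pool.Agent.MP_417c68_gt
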