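import Pool.Agent.Lib.MP_417c68_gt_T.Nrm

/-!
# MP_417c68_gt, project T, module Tan: the tangent lemma

Text: `/team-store/TEXT_417c68_T.md`, section 3.
-/

noncomputable section

namespace Pool.Agent.MP_417c68_gt

open Matrix NormedSpace

variable {n : ℕ} {N : Fin n → ℕ} {A B : Subgroup (Alg N)ˣ}

open Filter Topology in
theorem tan_lemma (hA : IsClosed (A : Set (Alg N)ˣ)) (hB : IsClosed (B : Set (Alg N)ˣ))
    (oA : ∀ a ∈ A, Orth a) (oB : ∀ b ∈ B, Orth b) {ξ : Alg N}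
    (h : ∀ t : ℝ, ∃ a ∈ A, ∃ b ∈ B, eu (t • ξ) = a * b) :
    ∃ α ∈ lie A, ∃ β ∈ lie B, ξ = α + β := by
  have hAc : IsCompact (A : Set (Alg N)ˣ) := isCompact_orth.of_isClosed_subset hA oA
  -- the sets `S t`
  have hScl : ∀ t : ℝ, IsCompact {a : (Alg N)ˣ | a ∈ A ∧ a⁻¹ * eu (t • ξ) ∈ B} := by
    intro t
    refine hAc.of_isClosed_subset ?_ fun a ha => ha.1
    exact hA.inter (hB.preimage (continuous_inv.mul continuous_const))
  have hSne : ∀ t : ℝ, {a : (Alg N)ˣ | a ∈ A ∧ a⁻¹ * eu (t • ξ) ∈ B}.Nonempty := by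
    intro t
    obtain ⟨a, ha, b, hb, e⟩ := h t
    refine ⟨a, ha, ?_⟩
    show a⁻¹ * eu (t • ξ) ∈ B
    rw [e, inv_mul_cancel_left]
    exact hb
  have hcF : Continuous fun a : (Alg N)ˣ => nF (a.1 - 1) :=
    nF_cont.comp (Units.continuous_val.sub continuous_const)
  have hmin : ∀ t : ℝ, ∃ a ∈ A, a⁻¹ * eu (t • ξ) ∈ B ∧ ∀ a' ∈ A, a'⁻¹ * eu (t • ξ) ∈ B →
      nF (a.1 - 1) ≤ nF (a'.1 - 1) := by
    intro t
    obtain ⟨a, ha, h1⟩ := (hScl t).exists_isMinOn (hSne t) hcF.continuousOn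
    exact ⟨a, ha.1, ha.2, fun a' ha' hb' => h1 ⟨ha', hb'⟩⟩
  choose a haA haB hamin using hmin
  obtain ⟨s, hs⟩ : ∃ s : ℕ → ℝ, s = fun j : ℕ => 1 / ((j : ℝ) + 1) := ⟨_, rfl⟩
  have hs0 : Tendsto s atTop (𝓝 0) := by
    rw [hs]
    exact tendsto_one_div_add_atTop_nhds_zero_nat
  have hspos : ∀ j, 0 < s j := fun j => by
    rw [hs]
    positivity
  -- the minimum tends to zero along a subsequence
  have hsub : ∃ φ : ℕ → ℕ, StrictMono φ ∧
      Tendsto (fun j => nF ((a (s (φ j))).1 - 1)) atTop (𝓝 0) := by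
    have hseq : ∀ j, a (s j) ∈ (A : Set (Alg N)ˣ) := fun j => haA _
    have := firstCountable_units (N := N)
    obtain ⟨c, hc, φ, hφ, hlim⟩ := hAc.tendsto_subseq hseq
    have hsφ : Tendsto (fun j => s (φ j)) atTop (𝓝 0) := hs0.comp hφ.tendsto_atTop
    have he : Tendsto (fun j => eu (s (φ j) • ξ)) atTop (𝓝 1) := by
      have h1 : Tendsto (fun j => s (φ j) • ξ) atTop (𝓝 ((0 : ℝ) • ξ)) :=
        hsφ.smul tendsto_const_nhds
      have h2 := (continuous_eu.tendsto _).comp h1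
      rwa [zero_smul, eu_zero] at h2
    have hcB : c⁻¹ ∈ B := by
      have h1 : Tendsto (fun j => (a (s (φ j)))⁻¹ * eu (s (φ j) • ξ)) atTop (𝓝 (c⁻¹ * 1)) :=
        (hlim.inv).mul he
      rw [mul_one] at h1
      exact hB.mem_of_tendsto h1 (Eventually.of_forall fun j => haB _)
    refine ⟨φ, hφ, ?_⟩
    have hz : Tendsto (fun j => nF ((a (s (φ j)) * c⁻¹).1 - 1)) atTop (𝓝 0) := by
      have h1 : Tendsto (fun j => a (s (φ j)) * c⁻¹) atTop (𝓝 (c * c⁻¹)) :=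
        hlim.mul tendsto_const_nhds
      rw [mul_inv_cancel] at h1
      have h2 := (hcF.tendsto _).comp h1
      rw [Units.val_one, sub_self, nF_zero] at h2
      exact h2
    refine squeeze_zero (fun j => nF_nonneg _) (fun j => ?_) hz
    refine hamin _ _ (A.mul_mem (haA _) (A.inv_mem hc)) ?_
    have h1 : (a (s (φ j)) * c⁻¹)⁻¹ * eu (s (φ j) • ξ) =
        c * ((a (s (φ j)))⁻¹ * eu (s (φ j) • ξ)) := by group
    rw [h1]
    have h2 := B.inv_mem hcB
    rw [inv_inv] at h2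
    exact B.mul_mem h2 (haB _)
  obtain ⟨φ, hφ, hφ0⟩ := hsub
  -- the scale `ρ`
  obtain ⟨r, hr⟩ : ∃ r : ℕ → ℝ, r = fun j => Real.sqrt (nF ((a (s (φ j))).1 - 1)) := ⟨_, rfl⟩
  have hr0 : Tendsto r atTop (𝓝 0) := by
    rw [hr]
    have h1 := (Real.continuous_sqrt.tendsto 0).comp hφ0
    rwa [Real.sqrt_zero] at h1
  have hrnn : ∀ j, 0 ≤ r j := fun j => by
    rw [hr]
    exact Real.sqrt_nonneg _
  have hr2 : ∀ j, r j ^ 2 = nF ((a (s (φ j))).1 - 1) := fun j => by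
    rw [hr]
    exact Real.sq_sqrt (nF_nonneg _)
  have hsφ : Tendsto (fun j => s (φ j)) atTop (𝓝 0) := hs0.comp hφ.tendsto_atTop
  obtain ⟨ρ, hρ⟩ : ∃ ρ : ℕ → ℝ, ρ = fun j => max (s (φ j)) (r j) := ⟨_, rfl⟩
  have hρpos : ∀ j, 0 < ρ j := fun j => by
    rw [hρ]
    exact lt_max_of_lt_left (hspos _)
  have hρ0 : Tendsto ρ atTop (𝓝 0) := by
    rw [hρ]
    have h1 := hsφ.max hr0
    rwa [max_self] at h1
  have hρr : ∀ j, r j ≤ ρ j := fun j => by
    rw [hρ]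
    exact le_max_right _ _
  have hρs : ∀ j, s (φ j) ≤ ρ j := fun j => by
    rw [hρ]
    exact le_max_left _ _
  -- convergent subsequences
  have hx1 : ∀ j, nF ((ρ j)⁻¹ • ((a (s (φ j))).1 - 1)) ≤ 1 := by
    intro j
    rw [nF_smul, ← hr2, ← mul_pow]
    have h1 : (ρ j)⁻¹ * r j ≤ 1 := by
      rw [inv_mul_le_iff₀ (hρpos j), mul_one]
      exact hρr j
    exact pow_le_one₀ (mul_nonneg (inv_nonneg.2 (hρpos j).le) (hrnn j)) h1
  obtain ⟨α, ψ, hψ, hα⟩ := exists_subseq hx1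
  have hσ1 : ∀ j, s (φ (ψ j)) / ρ (ψ j) ∈ Set.Icc (0 : ℝ) 1 := fun j =>
    ⟨div_nonneg (hspos _).le (hρpos _).le, (div_le_one (hρpos _)).2 (hρs _)⟩
  obtain ⟨σ, -, χ, hχ, hσ⟩ := isCompact_Icc.tendsto_subseq hσ1
  obtain ⟨u, hu⟩ : ∃ u : ℕ → ℕ, u = fun j => ψ (χ j) := ⟨_, rfl⟩
  have hu' : Tendsto u atTop atTop := by
    rw [hu]
    exact hψ.tendsto_atTop.comp hχ.tendsto_atTop
  have hα' : Tendsto (fun j => (ρ (u j))⁻¹ • ((a (s (φ (u j)))).1 - 1)) atTop (𝓝 α) := by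
    rw [hu]
    exact hα.comp hχ.tendsto_atTop
  have hσ' : Tendsto (fun j => s (φ (u j)) / ρ (u j)) atTop (𝓝 σ) := by
    rw [hu]
    exact hσ
  have hρu : Tendsto (fun j => ρ (u j)) atTop (𝓝 0) := hρ0.comp hu'
  have hsu : Tendsto (fun j => s (φ (u j))) atTop (𝓝 0) := hsφ.comp hu'
  have hαl : α ∈ lie A :=
    lie_of_tendsto hA (fun j => haA _) (fun j => hρpos _) hρu hα'
  -- the other factor
  have hE : Tendsto (fun j => (ρ (u j))⁻¹ • ((eu (s (φ (u j)) • ξ)).1 - 1)) atTop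
      (𝓝 (σ • ξ)) := by
    have h1 := eu_slope_seq ξ (r := fun j => s (φ (u j))) (fun j => hspos _) hsu
    refine (hσ'.smul h1).congr fun j => ?_
    rw [smul_smul]
    congr 1
    have := (hspos (φ (u j))).ne'
    field_simp
  have hainv : Tendsto (fun j => ((a (s (φ (u j))))⁻¹ : (Alg N)ˣ).1) atTop (𝓝 1) := by
    have h1 : Tendsto (fun j => (a (s (φ (u j)))).1) atTop (𝓝 1) := by
      have h2 := (hρu.smul hα').add_const (1 : Alg N)
      rw [zero_smul, zero_add] at h2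
      refine h2.congr fun j => ?_
      rw [smul_smul, mul_inv_cancel₀ (hρpos _).ne', one_smul, sub_add_cancel]
    have h2 : Continuous fun X : Alg N => (fun i => (X i)ᵀ : Alg N) :=
      continuous_pi fun i => (continuous_apply i).matrix_transpose
    have h3 := (h2.tendsto 1).comp h1
    have h4 : (fun i => ((1 : Alg N) i)ᵀ : Alg N) = 1 := by
      funext i
      show (1 : Matrix (Fin (N i)) (Fin (N i)) ℝ)ᵀ = 1
      exact Matrix.transpose_one
    rw [h4] at h3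
    refine h3.congr fun j => ?_
    funext i
    show ((a (s (φ (u j)))).1 i)ᵀ = ((a (s (φ (u j))))⁻¹).1 i
    have h5 : (a (s (φ (u j)))).1 i * ((a (s (φ (u j))))⁻¹).1 i = 1 :=
      congrFun (a (s (φ (u j)))).mul_inv i
    have h6 := oA _ (haA (s (φ (u j)))) i
    calc ((a (s (φ (u j)))).1 i)ᵀ =
        ((a (s (φ (u j)))).1 i)ᵀ * ((a (s (φ (u j)))).1 i * ((a (s (φ (u j))))⁻¹).1 i) := by
          rw [h5, mul_one]
      _ = _ := by rw [← mul_assoc, h6, one_mul]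
  have hβ : Tendsto (fun j => (ρ (u j))⁻¹ •
      (((a (s (φ (u j))))⁻¹ * eu (s (φ (u j)) • ξ)).1 - 1)) atTop (𝓝 (σ • ξ - α)) := by
    have h1 := hainv.mul (hE.sub hα')
    rw [one_mul] at h1
    refine h1.congr fun j => ?_
    rw [← smul_sub, sub_sub_sub_cancel_right, mul_smul_comm, mul_sub, Units.val_mul,
      Units.inv_mul]
  have hβl : σ • ξ - α ∈ lie B :=
    lie_of_tendsto hB (fun j => haB _) (fun j => hρpos _) hρu hβ
  by_cases hσ0 : σ = 0
  · -- impossible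
    exfalso
    rw [hσ0, zero_smul, zero_sub] at hβl
    have hev : ∀ᶠ j in atTop, ρ (u j) = r (u j) := by
      have h1 : ∀ᶠ j in atTop, s (φ (u j)) / ρ (u j) < 1 := by
        rw [hσ0] at hσ'
        exact hσ'.eventually (gt_mem_nhds one_pos)
      refine h1.mono fun j hj => ?_
      rw [div_lt_one (hρpos _)] at hj
      have h2 : ρ (u j) = max (s (φ (u j))) (r (u j)) := by rw [hρ]
      rcases max_choice (s (φ (u j))) (r (u j)) with h3 | h3
      · rw [h2, h3] at hj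
        exact absurd hj (lt_irrefl _)
      · rw [h2, h3]
    have horth : ∀ t : ℝ, Orth (eu (t • α)) := fun t => oA _ (hαl t)
    have hkey : ∀ j, nF ((a (s (φ (u j)))).1 - 1) ≤
        nF ((a (s (φ (u j)))).1 - (eu (ρ (u j) • α)).1) := by
      intro j
      have h1 : a (s (φ (u j))) * (eu (ρ (u j) • α))⁻¹ ∈ A :=
        A.mul_mem (haA _) (A.inv_mem (hαl _))
      have h2 : (a (s (φ (u j))) * (eu (ρ (u j) • α))⁻¹)⁻¹ * eu (s (φ (u j)) • ξ) ∈ B := by
        have e : (a (s (φ (u j))) * (eu (ρ (u j) • α))⁻¹)⁻¹ * eu (s (φ (u j)) • ξ) =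
            eu (ρ (u j) • α) * ((a (s (φ (u j))))⁻¹ * eu (s (φ (u j)) • ξ)) := by group
        rw [e]
        have h3 := hβl (-(ρ (u j)))
        rw [neg_smul, smul_neg, neg_neg] at h3
        exact B.mul_mem h3 (haB _)
      have h3 := hamin _ _ h1 h2
      have h4 : ((a (s (φ (u j))) * (eu (ρ (u j) • α))⁻¹).1 - 1) * (eu (ρ (u j) • α)).1 =
          (a (s (φ (u j)))).1 - (eu (ρ (u j) • α)).1 := by
        rw [sub_mul, one_mul, Units.val_mul, mul_assoc, Units.inv_mul, mul_one]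
      rw [← h4, nF_mul_right (horth _)]
      exact h3
    have hlim1 : Tendsto (fun j => nF ((ρ (u j))⁻¹ • ((a (s (φ (u j)))).1 -
        (eu (ρ (u j) • α)).1))) atTop (𝓝 0) := by
      have h1 := hα'.sub (eu_slope_seq α (fun j => hρpos (u j)) hρu)
      rw [sub_self] at h1
      have h2 := (nF_cont.tendsto _).comp h1
      rw [nF_zero] at h2
      refine h2.congr fun j => ?_
      rw [Function.comp_apply, ← smul_sub, sub_sub_sub_cancel_right]
    have hge : ∀ᶠ j in atTop, (1 : ℝ) ≤ nF ((ρ (u j))⁻¹ • ((a (s (φ (u j)))).1 -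
        (eu (ρ (u j) • α)).1)) := by
      refine hev.mono fun j hj => ?_
      rw [nF_smul]
      have h1 := hkey j
      rw [← hr2, ← hj] at h1
      have h2 : ((ρ (u j))⁻¹) ^ 2 * (ρ (u j)) ^ 2 = 1 := by
        rw [← mul_pow, inv_mul_cancel₀ (hρpos _).ne', one_pow]
      rw [← h2]
      exact mul_le_mul_of_nonneg_left h1 (sq_nonneg _)
    have h1 : (1 : ℝ) ≤ 0 := ge_of_tendsto hlim1 hge
    linarith
  · refine ⟨σ⁻¹ • α, lie_smul _ hαl, σ⁻¹ • (σ • ξ - α), lie_smul _ hβl, ?_⟩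
    rw [← smul_add, add_sub_cancel, smul_smul, inv_mul_cancel₀ hσ0, one_smul]

end Pool.Agent.MP_417c68_gt
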