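import Pool.Agent.Lib.MP_417c68_gt_T.Inv
import Pool.Agent.Lib.MP_417c68_gt_T.Sw
import Pool.Agent.Lib.MP_417c68_gt_T.Tan
import Pool.Agent.Lib.MP_417c68_gt_T.Re
import Pool.Agent.Lib.MP_417c68_gt_P.J.Tr

/-!
# MP_417c68_gt, project T, module LieT: Theorem T1

Text: `/team-store/TEXT_417c68_T.md`, section 4.

PROOFS.
* `proj_k`: `kV V` consists of skew elements (`kV_skew`), `ip` is negative definite on skew
  elements, so there is `a' ∈ kV V` with `ip (a - a') y = 0` for all `y ∈ kV V` (orthogonal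
  projection
  in finite dimension).  `c = a - a'`: for `x, y ∈ V`: `ip (br c x) y = ip c (br x y) = 0` and
  `br c x ∈ V`, so `br c x = 0` (`ip_self_zero`).
* `kcen`: an element of `kV V` which commutes with `V` is orthogonal to all `br x y`, so `0`.
* `sumN_of_cocompact`: `ξ ∈ kV (pS G)`; `lie_br`, `lie_add`, `lie_smul` in the closed group `GP G`
  (`x ∈ pp G` lies in `lie (GP G)`) give `ξ ∈ lie (GP G)`; `eu (t • ξ) ∈ GP G` is orthogonal
  (`kV_skew`,
  `orth_eu`); `inv_kp`, `sw`: `cpu (eu (t • ξ)) ∈ CG (pS L) * CG (pS H)`; `eu_cp0`, `cp_smul`: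
  `eu (t • cp ξ 0)`; `tan_lemma`, `re_part` (for `V = pS L`, `pS H`, and, with `CG_mono`, for `pS
  G`; the
  decomposition `α = cp a b` is unique); `proj_k`, `kcen`.  `trp_pS` is in `J/Tr.lean`.
-/

noncomputable section

namespace Pool.Agent.MP_417c68_gt

open Matrix NormedSpace

variable {n : ℕ} {N : Fin n → ℕ} {G H L : Subgroup (Alg N)ˣ}

/-- every element of `[𝔭(G), 𝔭(G)]` is the sum of an element which normalizes `𝔭(L)` and an
element which normalizes `𝔭(H)` -/
def SumN (G H L : Subgroup (Alg N)ˣ) : Prop :=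
  ∀ ξ ∈ kV (pS G), ∃ a ∈ kV (pS G), ∃ b ∈ kV (pS G), ξ = a + b ∧
    (∀ w ∈ pp L, br a w ∈ pp L) ∧ ∀ v ∈ pp H, br b v ∈ pp H

private theorem lieT_ip_br (W X Y : Alg N) : ip (br W X) Y = ip W (br X Y) := by
  unfold ip
  refine Finset.sum_congr rfl fun i _ => ?_
  show ((W i * X i - X i * W i) * Y i).trace = (W i * (X i * Y i - Y i * X i)).trace
  rw [sub_mul, mul_sub, Matrix.trace_sub, Matrix.trace_sub, mul_assoc, mul_assoc,
    Matrix.trace_mul_comm (X i) (W i * Y i), mul_assoc]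

private theorem lieT_skew_zero {W : Alg N} (h : ∀ i, (W i)ᵀ = -(W i)) (h0 : ip W W = 0) :
    W = 0 := by
  have h1 : ip W W = ∑ i, -((W i)ᵀ * W i).trace := by
    unfold ip
    refine Finset.sum_congr rfl fun i _ => ?_
    rw [h i, neg_mul, Matrix.trace_neg, neg_neg]
  rw [h1, Finset.sum_neg_distrib, neg_eq_zero,
    Finset.sum_eq_zero_iff_of_nonneg fun i _ => fr_nonneg' (W i)] at h0
  funext i
  have h2 := h0 i (Finset.mem_univ i)
  rw [← Matrix.conjTranspose_eq_transpose_of_trivial] at h2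
  exact Matrix.trace_conjTranspose_mul_self_eq_zero_iff.1 h2

private theorem lieT_ip_add_right (X Y Z : Alg N) : ip X (Y + Z) = ip X Y + ip X Z := by
  rw [ip_comm, ip_add_left, ip_comm Y, ip_comm Z]

private theorem lieT_ip_smul_right (c : ℝ) (X Y : Alg N) : ip X (c • Y) = c * ip X Y := by
  rw [ip_comm, ip_smul_left, ip_comm Y]

private theorem lieT_sub_br (X Y Z : Alg N) : br (X - Y) Z = br X Z - br Y Z := by
  unfold br
  noncomm_ring

private theorem lieT_add_br (X Y Z : Alg N) : br (X + Y) Z = br X Z + br Y Z := by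
  unfold br
  noncomm_ring

/-- Orthogonal projection to a space of skew elements. -/
private theorem lieT_proj {K : Submodule ℝ (Alg N)} (hK : ∀ x ∈ K, ∀ i, (x i)ᵀ = -(x i))
    (a : Alg N) : ∃ a' ∈ K, ∀ y ∈ K, ip (a - a') y = 0 := by
  let φ : K →ₗ[ℝ] Module.Dual ℝ K := LinearMap.mk₂ ℝ (fun x y => ip x.1 y.1)
    (fun x x' y => ip_add_left x.1 x'.1 y.1) (fun c x y => ip_smul_left c x.1 y.1)
    (fun x y y' => lieT_ip_add_right x.1 y.1 y'.1) (fun c x y => lieT_ip_smul_right c x.1 y.1)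
  let ψ : Module.Dual ℝ K :=
    { toFun := fun y => ip a y.1
      map_add' := fun y y' => lieT_ip_add_right a y.1 y'.1
      map_smul' := fun c y => lieT_ip_smul_right c a y.1 }
  have hinj : Function.Injective φ := by
    rw [injective_iff_map_eq_zero]
    intro x hx
    have h1 : ip x.1 x.1 = 0 := LinearMap.congr_fun hx x
    exact Subtype.ext (lieT_skew_zero (hK x.1 x.2) h1)
  have hsurj : Function.Surjective φ :=
    (LinearMap.injective_iff_surjective_of_finrank_eq_finrank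
      (Subspace.dual_finrank_eq (K := ℝ) (V := K)).symm).1 hinj
  obtain ⟨a', ha'⟩ := hsurj ψ
  refine ⟨a'.1, a'.2, fun y hy => ?_⟩
  have h1 : ip a'.1 y = ip a y := LinearMap.congr_fun ha' ⟨y, hy⟩
  rw [ip_sub_left, h1, sub_self]

theorem proj_k {V : Submodule ℝ (Alg N)} (hV : Trp V) {a : Alg N}
    (ha : ∀ i, (a i)ᵀ = -(a i)) (h : ∀ x ∈ V, br a x ∈ V) :
    ∃ a' ∈ kV V, ∀ x ∈ V, br a' x = br a x := by
  obtain ⟨a', ha', h1⟩ := lieT_proj (K := kV V) (fun x hx i => kV_skew hV hx i) a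
  refine ⟨a', ha', fun x hx => ?_⟩
  have h2 : br (a - a') x ∈ V := by
    rw [lieT_sub_br]
    exact V.sub_mem (h x hx) (kV_br hV ha' hx)
  have h3 : br (a - a') x = 0 := by
    refine ip_self_zero (hV.sym _ h2) ?_
    rw [lieT_ip_br]
    exact h1 _ (Submodule.subset_span ⟨x, hx, _, h2, rfl⟩)
  rw [lieT_sub_br, sub_eq_zero] at h3
  exact h3.symm

theorem kcen {V : Submodule ℝ (Alg N)} (hV : Trp V) {a : Alg N} (ha : a ∈ kV V)
    (h : ∀ x ∈ V, br a x = 0) : a = 0 := by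
  have h1 : ∀ z ∈ kV V, ip a z = 0 := by
    intro z hz
    refine Submodule.span_induction (p := fun z _ => ip a z = 0) ?_ ?_ ?_ ?_ hz
    · rintro _ ⟨x, hx, y, _, rfl⟩
      rw [← lieT_ip_br, h x hx, ip_zero_left]
    · rw [ip_comm, ip_zero_left]
    · intro x y _ _ hx hy
      rw [lieT_ip_add_right, hx, hy, add_zero]
    · intro c x _ hx
      rw [lieT_ip_smul_right, hx, mul_zero]
  exact lieT_skew_zero (fun i => kV_skew hV ha i) (h1 a ha)

/-- Theorem T1 -/
theorem sumN_of_cocompact (hG : SelfAdj G) (hH : SelfAdj H) (hL : SelfAdj L) (hHG : H ≤ G)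
    (hLG : L ≤ G) (hC : Cocompact G H L) : SumN G H L := by
  intro ξ hξ
  have tG := trp_pS hG
  have tH := trp_pS hH
  have tL := trp_pS hL
  have hVG : pS H ≤ pS G := fun X hX =>
    (mem_pS hG.closed).2 (pp_mono hHG ((mem_pS hH.closed).1 hX))
  have hWG : pS L ≤ pS G := fun X hX =>
    (mem_pS hG.closed).2 (pp_mono hLG ((mem_pS hL.closed).1 hX))
  have hcl : IsClosed (GP G : Set (Alg N)ˣ) := Subgroup.isClosed_topologicalClosure _
  have hpG : ∀ x ∈ pS G, x ∈ lie (GP G) := by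
    intro x hx t
    refine Subgroup.le_topologicalClosure _ (Subgroup.subset_closure ⟨t • x, ?_, rfl⟩)
    exact (mem_pS hG.closed).1 ((pS G).smul_mem t hx)
  have hξl : ξ ∈ lie (GP G) := by
    refine Submodule.span_induction (p := fun A _ => A ∈ lie (GP G)) ?_ ?_ ?_ ?_ hξ
    · rintro _ ⟨x, hx, y, hy, rfl⟩
      exact lie_br hcl (hpG x hx) (hpG y hy)
    · exact hpG 0 (pS G).zero_mem
    · intro x y _ _ hx hy
      exact lie_add hcl hx hy
    · intro c x _ hx
      exact lie_smul c hx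
  have hsk := kV_skew tG hξ
  have horth : ∀ t : ℝ, Orth (eu (t • ξ)) := by
    intro t
    refine orth_eu fun i => ?_
    exact kV_skew tG ((kV (pS G)).smul_mem t hξ) i
  have oL := CG_orth (V := pS L) tL.sym
  have oH := CG_orth (V := pS H) tH.sym
  have cL := CG_compact (V := pS L) tL.sym
  have cH := CG_compact (V := pS H) tH.sym
  have hprod : ∀ t : ℝ, ∃ a ∈ CG (pS L), ∃ b ∈ CG (pS H), eu (t • cp ξ 0) = a * b := by
    intro t
    obtain ⟨a, ha, b, hb, e⟩ := sw cL cH oL oH (orth_cpu (horth t))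
      fun d => inv_kp hG hH hL hHG hLG hC (hξl t) (horth t) d
    refine ⟨a, ha, b, hb, ?_⟩
    rw [cp_smul, smul_zero, eu_cp0]
    exact e
  obtain ⟨α, hα, β, hβ, hαβ⟩ := tan_lemma (CG_closed _) (CG_closed _) oL oH hprod
  have hαG : α ∈ lie (CG (pS G)) := fun t => CG_mono hWG (hα t)
  have hβG : β ∈ lie (CG (pS G)) := fun t => CG_mono hVG (hβ t)
  obtain ⟨a, b, rfl, ask, aL⟩ := re_part tL hα
  obtain ⟨a', b', rfl, ask', aH⟩ := re_part tH hβ
  obtain ⟨a₂, b₂, e₂, -, aG⟩ := re_part tG hαG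
  obtain ⟨a₃, b₃, e₃, -, aG'⟩ := re_part tG hβG
  rw [← (cp_inj e₂).1] at aG
  rw [← (cp_inj e₃).1] at aG'
  rw [cp_add] at hαβ
  have hξ' : ξ = a + a' := (cp_inj hαβ).1
  obtain ⟨c, hc, hca⟩ := proj_k tG ask aG
  obtain ⟨c', hc', hca'⟩ := proj_k tG ask' aG'
  refine ⟨c, hc, c', hc', ?_, fun w hw => ?_, fun v hv => ?_⟩
  · have h1 : ξ - (c + c') = 0 := by
      refine kcen tG ((kV (pS G)).sub_mem hξ ((kV (pS G)).add_mem hc hc')) fun x hx => ?_
      rw [lieT_sub_br, lieT_add_br, hca x hx, hca' x hx, hξ', lieT_add_br, sub_self]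
    exact sub_eq_zero.1 h1
  · have hw' : w ∈ pS L := (mem_pS hL.closed).2 hw
    rw [hca w (hWG hw')]
    exact (mem_pS hL.closed).1 (aL w hw')
  · have hv' : v ∈ pS H := (mem_pS hH.closed).2 hv
    rw [hca' v (hVG hv')]
    exact (mem_pS hH.closed).1 (aH v hv')

end Pool.Agent.MP_417c68_gt
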